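import Pool.Agent.Lib_helper69.HM.Defs

set_option autoImplicit false

open MeasureTheory Finset
open scoped ENNReal

namespace Pool.Agent.HM

variable {G : Type} [DecidableEq G]

/-- reflection of the field -/
theorem lm_neg {F : (G → ℝ) → ℝ≥0∞} (hF : Measurable F) (W : Finset G) (ξ : G → ℝ) :
    lm W (fun f => F (-f)) ξ = lm W F (-ξ) := by
  have hF' : Measurable fun f : G → ℝ => F (-f) := hF.comp measurable_neg
  induction W using Finset.induction_on generalizing ξ with
  | empty => simp [lm]
  | insert i s hi ih =>
    unfold lm at *
    rw [lmarginal_insert _ hF' hi, lmarginal_insert _ hF hi,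
      ← lintegral_neg_eq_self (μ := volume)
        (fun x => lmarginal (fun _ => (volume : Measure ℝ)) s F (Function.update (-ξ) i x))]
    refine lintegral_congr fun x => ?_
    rw [ih]
    congr 1
    ext j
    by_cases hj : j = i
    · subst hj; simp
    · simp [hj]

/-- translation of the field -/
theorem lm_add {F : (G → ℝ) → ℝ≥0∞} (hF : Measurable F) (W : Finset G) (c ξ : G → ℝ) :
    lm W (fun f => F (f + c)) ξ = lm W F (ξ + c) := by
  have hF' : Measurable fun f : G → ℝ => F (f + c) := hF.comp (measurable_id.add_const c)
  induction W using Finset.induction_on generalizing ξ with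
  | empty => simp [lm]
  | insert i s hi ih =>
    unfold lm at *
    rw [lmarginal_insert _ hF' hi, lmarginal_insert _ hF hi,
      ← lintegral_add_right_eq_self (μ := volume)
        (fun x => lmarginal (fun _ => (volume : Measure ℝ)) s F (Function.update (ξ + c) i x)) (c i)]
    refine lintegral_congr fun x => ?_
    rw [ih]
    congr 1
    ext j
    by_cases hj : j = i
    · subst hj; simp
    · simp [hj]

/-- partial integrals of functions which depend only on the coordinates in `A` -/
theorem lm_congr_on {F : (G → ℝ) → ℝ≥0∞} {A : Finset G}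
    (hdep : ∀ f g : G → ℝ, (∀ x ∈ A, f x = g x) → F f = F g) (W : Finset G) {ξ η : G → ℝ}
    (h : ∀ x ∈ A, x ∉ W → ξ x = η x) : lm W F ξ = lm W F η := by
  unfold lm lmarginal
  refine lintegral_congr fun y => hdep _ _ fun x hx => ?_
  by_cases hW : x ∈ W
  · simp [Function.updateFinset, hW]
  · simp [Function.updateFinset, hW, h x hx hW]

/-- change of the index set by a map which is injective where it matters -/
theorem lm_transport {G' : Type} [DecidableEq G'] (e : G' → G) (s A : Finset G') (hsA : s ⊆ A)
    (he : ∀ a ∈ A, ∀ b ∈ s, e a = e b → a = b) {F : (G' → ℝ) → ℝ≥0∞} (hF : Measurable F)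
    (hdep : ∀ f g : G' → ℝ, (∀ x ∈ A, f x = g x) → F f = F g) (ξ : G → ℝ) :
    lm (s.image e) (fun f => F (f ∘ e)) ξ = lm s F (ξ ∘ e) := by
  have hm : Measurable fun f : G → ℝ => f ∘ e :=
    measurable_pi_lambda _ fun i => measurable_pi_apply (e i)
  have hF' : Measurable fun f : G → ℝ => F (f ∘ e) := hF.comp hm
  induction s using Finset.induction_on generalizing ξ with
  | empty => simp [lm]
  | insert i s hi ih =>
    have hsA' : s ⊆ A := fun x hx => hsA (mem_insert_of_mem hx)
    have hiA : i ∈ A := hsA (mem_insert_self i s)
    have he' : ∀ a ∈ A, ∀ b ∈ s, e a = e b → a = b := fun a ha b hb =>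
      he a ha b (mem_insert_of_mem hb)
    have hni : e i ∉ s.image e := by
      intro h
      obtain ⟨b, hb, hbe⟩ := mem_image.1 h
      have := he' i hiA b hb hbe.symm
      subst this
      exact hi hb
    have IH := ih hsA' he'
    rw [image_insert]
    unfold lm at *
    rw [lmarginal_insert _ hF' hni, lmarginal_insert _ hF hi]
    refine lintegral_congr fun x => ?_
    rw [IH]
    refine lm_congr_on hdep s fun a ha _ => ?_
    by_cases hai : a = i
    · subst hai; simp
    · have : e a ≠ e i := fun h => hai (he a ha i (mem_insert_self i s) h)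
      simp [hai, this]

end Pool.Agent.HM
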