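import Pool.Agent.Lib_helper14.HM.Rho

set_option autoImplicit false

open MeasureTheory Finset
open scoped ENNReal

namespace Pool.Agent.HM

variable {G : Type} [AddCommGroup G] [DecidableEq G]

theorem mem_edges {stp : Bool → G} {W : Finset G} {p : G × Bool} :
    p ∈ edges stp W ↔ p.1 ∈ W ∨ p.1 + stp p.2 ∈ W := by
  unfold edges
  rw [mem_union, mem_product, mem_image]
  constructor
  · rintro (h | ⟨q, hq, rfl⟩)
    · exact Or.inl h.1
    · right
      simpa using (mem_product.1 hq).1
  · rintro (h | h)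
    · exact Or.inl ⟨h, mem_univ _⟩
    · exact Or.inr ⟨(p.1 + stp p.2, p.2), mem_product.2 ⟨h, mem_univ _⟩, by simp⟩

theorem edges_mono (stp : Bool → G) {W W' : Finset G} (h : W' ⊆ W) :
    edges stp W' ⊆ edges stp W := by
  intro p hp
  rw [mem_edges] at hp ⊢
  exact hp.imp (fun x => h x) (fun x => h x)

theorem edges_univ [Fintype G] (stp : Bool → G) : edges stp (univ : Finset G) = univ := by
  ext p
  simp [mem_edges]

theorem card_edges_le (stp : Bool → G) (W : Finset G) : (edges stp W).card ≤ 4 * W.card := by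
  unfold edges
  have h1 : (W ×ˢ (univ : Finset Bool)).card = 2 * W.card := by
    rw [card_product]; simp [mul_comm]
  have h2 := (card_union_le (W ×ˢ (univ : Finset Bool))
    ((W ×ˢ (univ : Finset Bool)).image fun p => (p.1 - stp p.2, p.2)))
  have h3 := card_image_le (s := W ×ˢ (univ : Finset Bool))
    (f := fun p : G × Bool => (p.1 - stp p.2, p.2))
  omega

/-- the part of the weight in `W` which does not belong to `W'` -/
noncomputable def rest (ρ : ℝ → ℝ) (m : ℝ) (stp : Bool → G) (W W' : Finset G) (f : G → ℝ) :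
    ℝ≥0∞ :=
  (∏ p ∈ edges stp W \ edges stp W', ENNReal.ofReal (ρ (f (p.1 + stp p.2) - f p.1))) *
    ∏ x ∈ W \ W', ENNReal.ofReal (Real.exp (-(m ^ 2 * f x ^ 2 / 2)))

theorem measurable_rest {ρ : ℝ → ℝ} (hρ : EdgeWeight ρ) (m : ℝ) (stp : Bool → G)
    (W W' : Finset G) : Measurable (rest ρ m stp W W') := by
  have hm := hρ.measurable
  refine Measurable.mul ?_ ?_
  · refine Finset.measurable_prod _ fun p _ => (hm.comp ?_).ennreal_ofReal
    exact (measurable_pi_apply (p.1 + stp p.2)).sub (measurable_pi_apply p.1)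
  · refine Finset.measurable_prod _ fun x _ => Measurable.ennreal_ofReal ?_
    fun_prop

theorem wt_split (ρ : ℝ → ℝ) (m : ℝ) (stp : Bool → G) {W W' : Finset G} (h : W' ⊆ W)
    (f : G → ℝ) : wt ρ m stp W f = wt ρ m stp W' f * rest ρ m stp W W' f := by
  unfold wt rest
  rw [← prod_sdiff (edges_mono stp h), ← prod_sdiff h]
  ring

/-- the remaining part does not depend on the variables in `W'` -/
theorem rest_congr (ρ : ℝ → ℝ) (m : ℝ) (stp : Bool → G) (W W' : Finset G) {f g : G → ℝ}
    (h : ∀ x ∉ W', f x = g x) : rest ρ m stp W W' f = rest ρ m stp W W' g := by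
  unfold rest
  congr 1
  · refine prod_congr rfl fun p hp => ?_
    rw [mem_sdiff, mem_edges (W := W')] at hp
    have := hp.2
    push Not at this
    rw [h _ this.1, h _ this.2]
  · refine prod_congr rfl fun x hx => ?_
    rw [h x (mem_sdiff.1 hx).2]

/-- the weight depends only on the variables in `W` and their neighbours -/
theorem wt_congr (ρ : ℝ → ℝ) (m : ℝ) (stp : Bool → G) (W : Finset G) {f g : G → ℝ}
    (h : ∀ x ∈ W, f x = g x) (h' : ∀ p ∈ edges stp W, f p.1 = g p.1 ∧
      f (p.1 + stp p.2) = g (p.1 + stp p.2)) : wt ρ m stp W f = wt ρ m stp W g := by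
  unfold wt
  congr 1
  · refine prod_congr rfl fun p hp => ?_
    rw [(h' p hp).1, (h' p hp).2]
  · exact prod_congr rfl fun x hx => by rw [h x hx]

end Pool.Agent.HM
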