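import Pool.Agent.Lib_helper12.HM.D1
import Pool.Agent.Lib_helper14.HM.N1

set_option autoImplicit false

open MeasureTheory Finset
open scoped ENNReal

namespace Pool.Agent.HM

/-- a factor which does not depend on the integrated coordinates -/
theorem lm_pull {G : Type} [DecidableEq G] {g D : (G → ℝ) → ℝ≥0∞} (hD : Measurable D)
    (K : Finset G) (hg : ∀ f f' : G → ℝ, (∀ v, v ∉ K → f v = f' v) → g f = g f') (ξ : G → ℝ) :
    lm K (fun f => g f * D f) ξ = g ξ * lm K D ξ := by
  unfold lm lmarginal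
  have e : ∀ y : (i : K) → ℝ, g (Function.updateFinset ξ K y) = g ξ := by
    intro y
    refine hg _ _ fun v hv => ?_
    simp [Function.updateFinset, hv]
  simp only [e]
  rw [lintegral_const_mul]
  exact hD.comp measurable_updateFinset

/-- first integrate over a subset -/
theorem lm_sub {G : Type} [DecidableEq G] {F : (G → ℝ) → ℝ≥0∞} (hF : Measurable F)
    {W W' : Finset G} (hW : W' ⊆ W) (ξ : G → ℝ) :
    lm W F ξ = lm (W \ W') (lm W' F) ξ := by
  have u := lmarginal_union (fun _ : G => (volume : Measure ℝ)) _ hF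
    (disjoint_sdiff_self_left : Disjoint (W \ W') W')
  rw [sdiff_union_of_subset hW] at u
  unfold lm
  rw [u]

variable {G : Type} [AddCommGroup G] [DecidableEq G]

theorem dlr_aux {ρ : ℝ → ℝ} (hρ : EdgeWeight ρ) (m : ℝ) (stp : Bool → G) {W W' : Finset G}
    (hW : W' ⊆ W) {F : (G → ℝ) → ℝ≥0∞} (hF : Measurable F) {S : Set (G → ℝ)}
    (hdep : ∀ f g : G → ℝ, (∀ x ∉ W', f x = g x) → (f ∈ S ↔ g ∈ S)) (ξ : G → ℝ) :
    lm W' (S.indicator fun g => F g * wt ρ m stp W g) ξ =
      S.indicator (fun _ => 1) ξ * rest ρ m stp W W' ξ *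
        lm W' (fun g => F g * wt ρ m stp W' g) ξ := by
  have hw := (nice_wt hρ m stp W').meas
  have e : (S.indicator fun g => F g * wt ρ m stp W g) = fun g =>
      (S.indicator (fun _ => 1) g * rest ρ m stp W W' g) * (F g * wt ρ m stp W' g) := by
    funext g
    by_cases hg : g ∈ S
    · rw [Set.indicator_of_mem hg, Set.indicator_of_mem hg, wt_split ρ m stp hW]
      ring
    · rw [Set.indicator_of_notMem hg, Set.indicator_of_notMem hg]
      ring
  rw [e]
  refine lm_pull (hF.mul hw) W' (fun f f' hff => ?_) ξ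
  rw [rest_congr ρ m stp W W' hff]
  congr 1
  by_cases h : f ∈ S
  · rw [Set.indicator_of_mem h, Set.indicator_of_mem ((hdep f f' hff).1 h)]
  · rw [Set.indicator_of_notMem h, Set.indicator_of_notMem fun h' => h ((hdep f f' hff).2 h')]

theorem dlr_aux' {ρ : ℝ → ℝ} (hρ : EdgeWeight ρ) (m : ℝ) (stp : Bool → G) {W W' : Finset G}
    (hW : W' ⊆ W) {S : Set (G → ℝ)}
    (hdep : ∀ f g : G → ℝ, (∀ x ∉ W', f x = g x) → (f ∈ S ↔ g ∈ S)) (ξ : G → ℝ) :
    lm W' (S.indicator (wt ρ m stp W)) ξ =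
      S.indicator (fun _ => 1) ξ * rest ρ m stp W W' ξ * lm W' (wt ρ m stp W') ξ := by
  have := dlr_aux hρ m stp hW (F := fun _ => 1) measurable_const hdep ξ
  simpa only [one_mul] using this

/-- Markov property, lower bound -/
theorem dlr_ge {ρ : ℝ → ℝ} (hρ : EdgeWeight ρ) (m : ℝ) (stp : Bool → G) {W W' : Finset G}
    (hW : W' ⊆ W) {F : (G → ℝ) → ℝ≥0∞} (hF : Measurable F) {S : Set (G → ℝ)}
    (hS : MeasurableSet S) (hdep : ∀ f g : G → ℝ, (∀ x ∉ W', f x = g x) → (f ∈ S ↔ g ∈ S))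
    {M : ℝ≥0∞} (h : ∀ f ∈ S, M * lm W' (wt ρ m stp W') f ≤
      lm W' (fun g => F g * wt ρ m stp W' g) f) (ξ : G → ℝ) :
    M * lm W (S.indicator (wt ρ m stp W)) ξ ≤
      lm W (S.indicator fun g => F g * wt ρ m stp W g) ξ := by
  have hw := (nice_wt hρ m stp W).meas
  have hFw : Measurable (S.indicator fun g => F g * wt ρ m stp W g) := (hF.mul hw).indicator hS
  rw [lm_sub (hw.indicator hS) hW, lm_sub hFw hW]
  unfold lm
  conv_lhs => rw [lmarginal]
  conv_rhs => rw [lmarginal]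
  rw [← lintegral_const_mul]
  · refine lintegral_mono fun y => ?_
    set ζ := Function.updateFinset ξ (W \ W') y
    have e1 := dlr_aux hρ m stp hW hF hdep ζ
    have e2 := dlr_aux' hρ m stp hW hdep ζ
    unfold lm at e1 e2
    rw [e1, e2]
    by_cases hζ : ζ ∈ S
    · have := h ζ hζ
      unfold lm at this
      calc M * (S.indicator (fun _ => 1) ζ * rest ρ m stp W W' ζ *
            (∫⋯∫⁻_W', wt ρ m stp W') ζ)
          = S.indicator (fun _ => 1) ζ * rest ρ m stp W W' ζ *
            (M * (∫⋯∫⁻_W', wt ρ m stp W') ζ) := by ring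
        _ ≤ _ := by gcongr
    · rw [Set.indicator_of_notMem hζ]
      simp
  · exact ((hw.indicator hS).lmarginal _).comp measurable_updateFinset

/-- Markov property, upper bound -/
theorem dlr_le {ρ : ℝ → ℝ} (hρ : EdgeWeight ρ) (m : ℝ) (stp : Bool → G) {W W' : Finset G}
    (hW : W' ⊆ W) {F : (G → ℝ) → ℝ≥0∞} (hF : Measurable F) {S : Set (G → ℝ)}
    (hS : MeasurableSet S) (hdep : ∀ f g : G → ℝ, (∀ x ∉ W', f x = g x) → (f ∈ S ↔ g ∈ S))
    {M : ℝ≥0∞} (h : ∀ f ∈ S, lm W' (fun g => F g * wt ρ m stp W' g) f ≤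
      M * lm W' (wt ρ m stp W') f) (ξ : G → ℝ) :
    lm W (S.indicator fun g => F g * wt ρ m stp W g) ξ ≤
      M * lm W (S.indicator (wt ρ m stp W)) ξ := by
  have hw := (nice_wt hρ m stp W).meas
  have hFw : Measurable (S.indicator fun g => F g * wt ρ m stp W g) := (hF.mul hw).indicator hS
  rw [lm_sub (hw.indicator hS) hW, lm_sub hFw hW]
  unfold lm
  conv_lhs => rw [lmarginal]
  conv_rhs => rw [lmarginal]
  rw [← lintegral_const_mul]
  · refine lintegral_mono fun y => ?_
    set ζ := Function.updateFinset ξ (W \ W') y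
    have e1 := dlr_aux hρ m stp hW hF hdep ζ
    have e2 := dlr_aux' hρ m stp hW hdep ζ
    unfold lm at e1 e2
    rw [e1, e2]
    by_cases hζ : ζ ∈ S
    · have := h ζ hζ
      unfold lm at this
      calc S.indicator (fun _ => 1) ζ * rest ρ m stp W W' ζ *
            (∫⋯∫⁻_W', fun g => F g * wt ρ m stp W' g) ζ
          ≤ S.indicator (fun _ => 1) ζ * rest ρ m stp W W' ζ *
            (M * (∫⋯∫⁻_W', wt ρ m stp W') ζ) := by gcongr
        _ = _ := by ring
    · rw [Set.indicator_of_notMem hζ]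
      simp
  · exact ((hw.indicator hS).lmarginal _).comp measurable_updateFinset

end Pool.Agent.HM
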