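import Pool.Agent.Lib_helper12.HM.A5

set_option autoImplicit false

open MeasureTheory Finset
open scoped ENNReal

namespace Pool.Agent.HM

variable {G : Type} [DecidableEq G]

theorem lintegral_gib {w : (G → ℝ) → ℝ≥0∞} (hw : Measurable w) (W : Finset G) (ξ : G → ℝ)
    {F : (G → ℝ) → ℝ≥0∞} (hF : Measurable F) :
    ∫⁻ f, F f ∂gib w W ξ = (lm W w ξ)⁻¹ * lm W (fun f => F f * w f) ξ := by
  unfold gib
  rw [lintegral_smul_measure, smul_eq_mul, lintegral_withDensity_eq_lintegral_mul _ hw hF,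
    lintegral_map (hw.mul hF) measurable_updateFinset]
  congr 1
  unfold lm lmarginal
  refine lintegral_congr fun y => ?_
  simp only [Pi.mul_apply]
  rw [mul_comm]

theorem gib_apply {w : (G → ℝ) → ℝ≥0∞} (hw : Measurable w) (W : Finset G) (ξ : G → ℝ)
    {S : Set (G → ℝ)} (hS : MeasurableSet S) :
    gib w W ξ S = (lm W w ξ)⁻¹ * lm W (S.indicator w) ξ := by
  rw [← lintegral_indicator_one hS, lintegral_gib hw W ξ (measurable_one.indicator hS)]
  congr 2
  funext f
  by_cases hf : f ∈ S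
  · rw [Set.indicator_of_mem hf, Set.indicator_of_mem hf]; simp
  · rw [Set.indicator_of_notMem hf, Set.indicator_of_notMem hf]; simp

theorem gib_prob {w : (G → ℝ) → ℝ≥0∞} (hw : Measurable w) (W : Finset G) (ξ : G → ℝ)
    (h0 : lm W w ξ ≠ 0) (h1 : lm W w ξ ≠ ∞) : IsProbabilityMeasure (gib w W ξ) := by
  refine ⟨?_⟩
  rw [gib_apply hw W ξ MeasurableSet.univ, Set.indicator_univ]
  exact ENNReal.inv_mul_cancel h0 h1

/-- symmetry -/
theorem gib_map_neg {w : (G → ℝ) → ℝ≥0∞} (hw : Nice w) (W : Finset G) (ξ : G → ℝ) :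
    (gib w W ξ).map (fun f => -f) = gib w W (-ξ) := by
  have hZ : lm W w (-ξ) = lm W w ξ := by
    rw [← lm_neg hw.meas W ξ]
    simp only [hw.even]
  ext S hS
  rw [Measure.map_apply measurable_neg hS, gib_apply hw.meas W _ hS,
    gib_apply hw.meas W _ (measurable_neg hS), hZ, ← lm_neg (hw.meas.indicator hS) W ξ]
  congr 2
  funext f
  by_cases hf : -f ∈ S
  · rw [Set.indicator_of_mem hf, Set.indicator_of_mem (show f ∈ Neg.neg ⁻¹' S from hf), hw.even]
  · rw [Set.indicator_of_notMem hf, Set.indicator_of_notMem (show f ∉ Neg.neg ⁻¹' S from hf)]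

/-- a symmetry of the weight given by a permutation of the index set -/
theorem gib_map_equiv [Fintype G] {w : (G → ℝ) → ℝ≥0∞} (hw : Measurable w) (e : G ≃ G)
    (he : ∀ f, w (f ∘ e) = w f) :
    (gib w univ 0).map (fun f => f ∘ e) = gib w univ 0 := by
  have hm : Measurable fun f : G → ℝ => f ∘ e :=
    measurable_pi_lambda _ fun i => measurable_pi_apply (e i)
  ext S hS
  rw [Measure.map_apply hm hS, gib_apply hw _ _ hS, gib_apply hw _ _ (hm hS)]
  congr 1
  have h := lm_transport (e : G → G) univ univ (subset_refl _)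
    (fun a _ b _ hab => e.injective hab) (hw.indicator hS) (fun f g hfg => by
      have : f = g := funext fun x => hfg x (mem_univ x)
      rw [this]) (0 : G → ℝ)
  rw [image_univ_equiv] at h
  have e0 : (0 : G → ℝ) ∘ e = 0 := rfl
  rw [e0] at h
  rw [← h]
  congr 1
  funext f
  by_cases hf : f ∘ e ∈ S
  · rw [Set.indicator_of_mem hf,
      Set.indicator_of_mem (show f ∈ (fun f : G → ℝ => f ∘ e) ⁻¹' S from hf), he]
  · rw [Set.indicator_of_notMem hf,
      Set.indicator_of_notMem (show f ∉ (fun f : G → ℝ => f ∘ e) ⁻¹' S from hf)]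

end Pool.Agent.HM
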