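import Pool.Agent.Lib_helper12.HM.G1
import Pool.Agent.Lib_helper14.HM.A12
import Pool.Agent.Lib_helper14.HM.N1

set_option autoImplicit false

open MeasureTheory Finset
open scoped ENNReal

namespace Pool.Agent.HM

variable {G : Type} [DecidableEq G]

/-- Holley's inequality, increasing function -/
theorem holley {w₁ w₂ : (G → ℝ) → ℝ≥0∞} (h₁ : Measurable w₁) (h₂ : Measurable w₂)
    (hx : ∀ a b, w₁ a * w₂ b ≤ w₁ (a ⊓ b) * w₂ (a ⊔ b)) (W : Finset G) {ξ η : G → ℝ}
    (hξη : ξ ≤ η) {F : (G → ℝ) → ℝ≥0∞} (hF : Measurable F) (hmono : Monotone F) :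
    lm W (fun f => F f * w₁ f) ξ * lm W w₂ η ≤ lm W w₁ ξ * lm W (fun f => F f * w₂ f) η := by
  have h := four_lm (hF.mul h₁) h₂ h₁ (hF.mul h₂) (fun a b => by
    simp only [Pi.mul_apply]
    calc F a * w₁ a * w₂ b = F a * (w₁ a * w₂ b) := by ring
      _ ≤ F (a ⊔ b) * (w₁ (a ⊓ b) * w₂ (a ⊔ b)) := mul_le_mul' (hmono le_sup_left) (hx a b)
      _ = _ := by ring) W ξ η
  rw [inf_of_le_left hξη, sup_of_le_right hξη] at h
  exact h

/-- Holley's inequality, decreasing function -/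
theorem holley_anti {w₁ w₂ : (G → ℝ) → ℝ≥0∞} (h₁ : Measurable w₁) (h₂ : Measurable w₂)
    (hx : ∀ a b, w₁ a * w₂ b ≤ w₁ (a ⊓ b) * w₂ (a ⊔ b)) (W : Finset G) {ξ η : G → ℝ}
    (hξη : ξ ≤ η) {F : (G → ℝ) → ℝ≥0∞} (hF : Measurable F) (hanti : Antitone F) :
    lm W w₁ ξ * lm W (fun f => F f * w₂ f) η ≤ lm W (fun f => F f * w₁ f) ξ * lm W w₂ η := by
  have h := four_lm h₁ (hF.mul h₂) (hF.mul h₁) h₂ (fun a b => by
    simp only [Pi.mul_apply]
    calc w₁ a * (F b * w₂ b) = F b * (w₁ a * w₂ b) := by ring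
      _ ≤ F (a ⊓ b) * (w₁ (a ⊓ b) * w₂ (a ⊔ b)) := mul_le_mul' (hanti inf_le_right) (hx a b)
      _ = _ := by ring) W ξ η
  rw [inf_of_le_left hξη, sup_of_le_right hξη] at h
  exact h

/-- Harris (FKG) inequality for partial integrals -/
theorem fkg {w : (G → ℝ) → ℝ≥0∞} (hw : Nice w) (W : Finset G) (ξ : G → ℝ)
    {F H : (G → ℝ) → ℝ≥0∞} (hF : Measurable F) (hH : Measurable H) (mF : Monotone F)
    (mH : Monotone H) :
    lm W (fun f => F f * w f) ξ * lm W (fun f => H f * w f) ξ ≤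
      lm W w ξ * lm W (fun f => F f * H f * w f) ξ := by
  have h := four_lm (hF.mul hw.meas) (hH.mul hw.meas) hw.meas ((hF.mul hH).mul hw.meas)
    (fun a b => by
      simp only [Pi.mul_apply]
      calc F a * w a * (H b * w b) = F a * H b * (w a * w b) := by ring
        _ ≤ F (a ⊔ b) * H (a ⊔ b) * (w (a ⊓ b) * w (a ⊔ b)) :=
          mul_le_mul' (mul_le_mul' (mF le_sup_left) (mH le_sup_right)) (hw.sm a b)
        _ = _ := by ring) W ξ ξ
  rw [inf_idem, sup_idem] at h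
  exact h

/-- one increasing, one decreasing function -/
theorem fkg_anti {w : (G → ℝ) → ℝ≥0∞} (hw : Nice w) (W : Finset G) (ξ : G → ℝ)
    {F H : (G → ℝ) → ℝ≥0∞} (hF : Measurable F) (hH : Measurable H) (mF : Monotone F)
    (mH : Antitone H) :
    lm W (fun f => F f * H f * w f) ξ * lm W w ξ ≤
      lm W (fun f => H f * w f) ξ * lm W (fun f => F f * w f) ξ := by
  have h := four_lm ((hF.mul hH).mul hw.meas) hw.meas (hH.mul hw.meas) (hF.mul hw.meas)
    (fun a b => by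
      simp only [Pi.mul_apply]
      calc F a * H a * w a * w b = F a * H a * (w a * w b) := by ring
        _ ≤ F (a ⊔ b) * H (a ⊓ b) * (w (a ⊓ b) * w (a ⊔ b)) :=
          mul_le_mul' (mul_le_mul' (mF le_sup_left) (mH inf_le_left)) (hw.sm a b)
        _ = _ := by ring) W ξ ξ
  rw [inf_idem, sup_idem] at h
  exact h

theorem ratio_le {a b c d : ℝ≥0∞} (hb0 : b ≠ 0) (hb : b ≠ ∞) (hd0 : d ≠ 0) (hd : d ≠ ∞)
    (h : a * d ≤ b * c) : b⁻¹ * a ≤ d⁻¹ * c := by
  rw [← ENNReal.mul_le_mul_iff_left hd0 hd, ← ENNReal.mul_le_mul_iff_right hb0 hb]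
  calc b * (b⁻¹ * a * d) = (b * b⁻¹) * (a * d) := by ring
    _ = a * d := by rw [ENNReal.mul_inv_cancel hb0 hb, one_mul]
    _ ≤ b * c := h
    _ = b * ((d * d⁻¹) * c) := by rw [ENNReal.mul_inv_cancel hd0 hd, one_mul]
    _ = b * (d⁻¹ * c * d) := by ring

/-- Holley's inequality, real increasing function -/
theorem holley_real {w : (G → ℝ) → ℝ≥0∞} (hw : Nice w) (W : Finset G) {ξ η : G → ℝ}
    (hξη : ξ ≤ η) (h0 : lm W w ξ ≠ 0) (h1 : lm W w ξ ≠ ∞) (h0' : lm W w η ≠ 0)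
    (h1' : lm W w η ≠ ∞) {F : (G → ℝ) → ℝ} (hF : Measurable F) (mF : Monotone F)
    (iξ : Integrable F (gib w W ξ)) (iη : Integrable F (gib w W η)) :
    ∫ f, F f ∂gib w W ξ ≤ ∫ f, F f ∂gib w W η := by
  have mp : Measurable fun f => ENNReal.ofReal (F f) := hF.ennreal_ofReal
  have mn : Measurable fun f => ENNReal.ofReal (-F f) := hF.neg.ennreal_ofReal
  have p : ∫⁻ f, ENNReal.ofReal (F f) ∂gib w W ξ ≤ ∫⁻ f, ENNReal.ofReal (F f) ∂gib w W η := by
    rw [lintegral_gib hw.meas W ξ mp, lintegral_gib hw.meas W η mp]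
    exact ratio_le h0 h1 h0' h1' (holley hw.meas hw.meas hw.sm W hξη mp
      fun a b hab => ENNReal.ofReal_le_ofReal (mF hab))
  have n : ∫⁻ f, ENNReal.ofReal (-F f) ∂gib w W η ≤ ∫⁻ f, ENNReal.ofReal (-F f) ∂gib w W ξ := by
    rw [lintegral_gib hw.meas W ξ mn, lintegral_gib hw.meas W η mn]
    refine ratio_le h0' h1' h0 h1 ?_
    have := holley_anti hw.meas hw.meas hw.sm W hξη mn
      (fun a b hab => ENNReal.ofReal_le_ofReal (neg_le_neg (mF hab)))
    rw [mul_comm, mul_comm (lm W w η)]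
    exact this
  rw [integral_eq_lintegral_pos_part_sub_lintegral_neg_part iξ,
    integral_eq_lintegral_pos_part_sub_lintegral_neg_part iη]
  have f1 : ∫⁻ f, ENNReal.ofReal (F f) ∂gib w W η ≠ ∞ := by
    have := iη.lintegral_lt_top
    exact this.ne
  have f2 : ∫⁻ f, ENNReal.ofReal (-F f) ∂gib w W ξ ≠ ∞ := by
    have := iξ.neg.lintegral_lt_top
    exact this.ne
  have q1 := (ENNReal.toReal_mono f1 p)
  have q2 := (ENNReal.toReal_mono f2 n)
  linarith

/-- Harris (FKG) inequality, real functions, one of them bounded -/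
theorem fkg_real {w : (G → ℝ) → ℝ≥0∞} (hw : Nice w) (W : Finset G) (ξ : G → ℝ)
    (h0 : lm W w ξ ≠ 0) (h1 : lm W w ξ ≠ ∞) {F H : (G → ℝ) → ℝ} (hF : Measurable F)
    (hH : Measurable H) (mF : Monotone F) (mH : Monotone H) {B : ℝ} (hB : ∀ f, |F f| ≤ B)
    (iH : Integrable H (gib w W ξ)) :
    (∫ f, F f ∂gib w W ξ) * (∫ f, H f ∂gib w W ξ) ≤ ∫ f, F f * H f ∂gib w W ξ := by
  have hp := gib_prob hw.meas W ξ h0 h1
  set μ := gib w W ξ with hμ
  -- `K = F + B ≥ 0`
  set K : (G → ℝ) → ℝ := fun f => F f + B with hK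
  have hK0 : ∀ f, 0 ≤ K f := fun f => by
    have := neg_abs_le (F f)
    have := hB f
    simp only [hK]
    linarith
  have hK2 : ∀ f, K f ≤ 2 * B := fun f => by
    have := le_abs_self (F f)
    have := hB f
    simp only [hK]
    linarith
  have hKm : Measurable K := hF.add_const B
  have mK : Monotone K := fun a b hab => add_le_add_left (mF hab) B
  have iF : Integrable F μ := Integrable.of_bound hF.aestronglyMeasurable B
    (Filter.Eventually.of_forall fun f => by rw [Real.norm_eq_abs]; exact hB f)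
  have iK : Integrable K μ := iF.add (integrable_const B)
  have iFH : Integrable (fun f => F f * H f) μ :=
    iH.bdd_mul hF.aestronglyMeasurable
      (Filter.Eventually.of_forall fun f => by rw [Real.norm_eq_abs]; exact hB f)
  have iKH : Integrable (fun f => K f * H f) μ := by
    have : (fun f => K f * H f) = fun f => F f * H f + B * H f := by
      funext f; simp only [hK]; ring
    rw [this]
    exact iFH.add (iH.const_mul B)
  have mKe : Measurable fun f => ENNReal.ofReal (K f) := hKm.ennreal_ofReal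
  have mp : Measurable fun f => ENNReal.ofReal (H f) := hH.ennreal_ofReal
  have mn : Measurable fun f => ENNReal.ofReal (-H f) := hH.neg.ennreal_ofReal
  have p : (∫⁻ f, ENNReal.ofReal (K f) ∂μ) * (∫⁻ f, ENNReal.ofReal (H f) ∂μ) ≤
      ∫⁻ f, ENNReal.ofReal (K f * H f) ∂μ := by
    have e : ∀ f, ENNReal.ofReal (K f * H f) = ENNReal.ofReal (K f) * ENNReal.ofReal (H f) :=
      fun f => ENNReal.ofReal_mul (hK0 f)
    simp only [e]
    have mKp : Measurable fun f => ENNReal.ofReal (K f) * ENNReal.ofReal (H f) := mKe.mul mp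
    rw [hμ, lintegral_gib hw.meas W ξ mKe, lintegral_gib hw.meas W ξ mp,
      lintegral_gib hw.meas W ξ mKp]
    have := fkg hw W ξ mKe mp (fun a b hab => ENNReal.ofReal_le_ofReal (mK hab))
      (fun a b hab => ENNReal.ofReal_le_ofReal (mH hab))
    calc (lm W w ξ)⁻¹ * lm W (fun f => ENNReal.ofReal (K f) * w f) ξ *
          ((lm W w ξ)⁻¹ * lm W (fun f => ENNReal.ofReal (H f) * w f) ξ)
        = (lm W w ξ)⁻¹ * (lm W w ξ)⁻¹ * (lm W (fun f => ENNReal.ofReal (K f) * w f) ξ *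
          lm W (fun f => ENNReal.ofReal (H f) * w f) ξ) := by ring
      _ ≤ (lm W w ξ)⁻¹ * (lm W w ξ)⁻¹ * (lm W w ξ *
          lm W (fun f => ENNReal.ofReal (K f) * ENNReal.ofReal (H f) * w f) ξ) := by gcongr
      _ = (lm W w ξ)⁻¹ * ((lm W w ξ)⁻¹ * lm W w ξ) *
          lm W (fun f => ENNReal.ofReal (K f) * ENNReal.ofReal (H f) * w f) ξ := by ring
      _ = _ := by rw [ENNReal.inv_mul_cancel h0 h1, mul_one]
  have n : ∫⁻ f, ENNReal.ofReal (-(K f * H f)) ∂μ ≤
      (∫⁻ f, ENNReal.ofReal (K f) ∂μ) * (∫⁻ f, ENNReal.ofReal (-H f) ∂μ) := by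
    have e : ∀ f, ENNReal.ofReal (-(K f * H f)) = ENNReal.ofReal (K f) * ENNReal.ofReal (-H f) :=
      fun f => by rw [← mul_neg]; exact ENNReal.ofReal_mul (hK0 f)
    simp only [e]
    have mKn : Measurable fun f => ENNReal.ofReal (K f) * ENNReal.ofReal (-H f) := mKe.mul mn
    rw [hμ, lintegral_gib hw.meas W ξ mKe, lintegral_gib hw.meas W ξ mn,
      lintegral_gib hw.meas W ξ mKn]
    have := fkg_anti hw W ξ mKe mn (fun a b hab => ENNReal.ofReal_le_ofReal (mK hab))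
      (fun a b hab => ENNReal.ofReal_le_ofReal (neg_le_neg (mH hab)))
    calc (lm W w ξ)⁻¹ * lm W (fun f => ENNReal.ofReal (K f) * ENNReal.ofReal (-H f) * w f) ξ
        = (lm W w ξ)⁻¹ * lm W (fun f => ENNReal.ofReal (K f) * ENNReal.ofReal (-H f) * w f) ξ *
          ((lm W w ξ)⁻¹ * lm W w ξ) := by
          rw [ENNReal.inv_mul_cancel h0 h1, mul_one]
      _ = (lm W w ξ)⁻¹ * (lm W w ξ)⁻¹ *
          (lm W (fun f => ENNReal.ofReal (K f) * ENNReal.ofReal (-H f) * w f) ξ * lm W w ξ) := by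
          ring
      _ ≤ (lm W w ξ)⁻¹ * (lm W w ξ)⁻¹ *
          (lm W (fun f => ENNReal.ofReal (-H f) * w f) ξ *
            lm W (fun f => ENNReal.ofReal (K f) * w f) ξ) := by gcongr
      _ = _ := by ring
  have hKint : ∫ f, K f ∂μ = (∫⁻ f, ENNReal.ofReal (K f) ∂μ).toReal :=
    integral_eq_lintegral_of_nonneg_ae (Filter.Eventually.of_forall hK0) hKm.aestronglyMeasurable
  have main : (∫ f, K f ∂μ) * (∫ f, H f ∂μ) ≤ ∫ f, K f * H f ∂μ := by
    rw [integral_eq_lintegral_pos_part_sub_lintegral_neg_part iH,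
      integral_eq_lintegral_pos_part_sub_lintegral_neg_part iKH, hKint, mul_sub,
      ← ENNReal.toReal_mul, ← ENNReal.toReal_mul]
    have fK : ∫⁻ f, ENNReal.ofReal (K f) ∂μ ≠ ∞ := iK.lintegral_lt_top.ne
    have f1 : ∫⁻ f, ENNReal.ofReal (K f * H f) ∂μ ≠ ∞ := iKH.lintegral_lt_top.ne
    have f2 : ∫⁻ f, ENNReal.ofReal (-H f) ∂μ ≠ ∞ := iH.neg.lintegral_lt_top.ne
    have q1 := ENNReal.toReal_mono f1 p
    have q2 := ENNReal.toReal_mono (ENNReal.mul_ne_top fK f2) n
    linarith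
  have e1 : ∫ f, K f ∂μ = ∫ f, F f ∂μ + B := by
    rw [hK, integral_add iF (integrable_const B)]
    simp
  have e2 : ∫ f, K f * H f ∂μ = ∫ f, F f * H f ∂μ + B * ∫ f, H f ∂μ := by
    have : (fun f => K f * H f) = fun f => F f * H f + B * H f := by
      funext f; simp only [hK]; ring
    rw [this, integral_add iFH (iH.const_mul B), integral_const_mul]
  rw [e1, e2] at main
  nlinarith

end Pool.Agent.HM
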