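import Pool.Agent.Lib_helper12.HM.Z1
import Pool.Agent.Lib_helper12.HM.G1

set_option autoImplicit false

open MeasureTheory Finset
open scoped ENNReal

namespace Pool.Agent.HM

variable {G : Type} [AddCommGroup G] [DecidableEq G]

theorem lintegral_exp_lin_lt_top {m : ℝ} (hm : 0 < m) (c : ℝ) :
    ∫⁻ t : ℝ, ENNReal.ofReal (Real.exp (c * t)) *
      ENNReal.ofReal (Real.exp (-(m ^ 2 * t ^ 2 / 2))) < ∞ := by
  have hb : 0 < m ^ 2 / 4 := by positivity
  have h1 : ∀ t : ℝ, ENNReal.ofReal (Real.exp (c * t)) *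
      ENNReal.ofReal (Real.exp (-(m ^ 2 * t ^ 2 / 2))) ≤
      ENNReal.ofReal (Real.exp (c ^ 2 / m ^ 2) * Real.exp (-(m ^ 2 / 4) * t ^ 2)) := by
    intro t
    rw [← ENNReal.ofReal_mul (Real.exp_pos _).le, ← Real.exp_add, ← Real.exp_add]
    refine ENNReal.ofReal_le_ofReal (Real.exp_le_exp.2 ?_)
    have h2 : c * t ≤ c ^ 2 / m ^ 2 + m ^ 2 / 4 * t ^ 2 := by
      have h3 : 0 ≤ (c / m - m / 2 * t) ^ 2 := sq_nonneg _
      have h4 : (c / m - m / 2 * t) ^ 2 = c ^ 2 / m ^ 2 + m ^ 2 / 4 * t ^ 2 - c * t := by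
        field_simp
        ring
      linarith
    linarith
  refine lt_of_le_of_lt (lintegral_mono h1) ?_
  exact ((integrable_exp_neg_mul_sq hb).const_mul _).lintegral_lt_top

/-- exponential moments of all linear functions of the variables in `W` -/
theorem integrable_exp_lin {ρ : ℝ → ℝ} (hρ : EdgeWeight ρ) {m : ℝ} (hm : 0 < m)
    (stp : Bool → G) (W : Finset G) (ξ : G → ℝ) (hZ : lm W (wt ρ m stp W) ξ ≠ 0) (c : G → ℝ) :
    Integrable (fun f : G → ℝ => Real.exp (∑ x ∈ W, c x * f x)) (gib (wt ρ m stp W) W ξ) := by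
  have hw := (nice_wt hρ m stp W).meas
  have hL : Measurable fun f : G → ℝ => Real.exp (∑ x ∈ W, c x * f x) := by
    refine Real.measurable_exp.comp (Finset.measurable_sum _ fun x _ => ?_)
    exact (measurable_pi_apply x).const_mul _
  refine ⟨hL.aestronglyMeasurable, ?_⟩
  rw [hasFiniteIntegral_iff_ofReal (Filter.Eventually.of_forall fun f => (Real.exp_pos _).le),
    lintegral_gib hw W ξ hL.ennreal_ofReal]
  refine ENNReal.mul_lt_top ?_ ?_
  · exact ENNReal.inv_lt_top.2 (pos_iff_ne_zero.2 hZ)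
  · set g : G → ℝ → ℝ≥0∞ := fun x t => ENNReal.ofReal (Real.exp (c x * t)) *
      ENNReal.ofReal (Real.exp (-(m ^ 2 * t ^ 2 / 2))) with hg
    have hgm : ∀ x, Measurable (g x) := by
      intro x
      rw [hg]
      refine Measurable.mul (Measurable.ennreal_ofReal ?_) (Measurable.ennreal_ofReal ?_) <;>
        fun_prop
    have h1 : lm W (fun f => ENNReal.ofReal (Real.exp (∑ x ∈ W, c x * f x)) * wt ρ m stp W f) ξ ≤
        lm W (fun f => ∏ x ∈ W, g x (f x)) ξ := by
      refine lintegral_mono fun y => ?_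
      set f := Function.updateFinset ξ W y
      simp only [hg]
      rw [Real.exp_sum, ENNReal.ofReal_prod_of_nonneg fun _ _ => (Real.exp_pos _).le,
        prod_mul_distrib]
      gcongr
      unfold wt
      refine mul_le_of_le_one_left' ?_
      exact prod_le_one' fun p _ => ofReal_rho_le_one hρ _
    refine lt_of_le_of_lt h1 ?_
    rw [lm_prod W hgm]
    exact ENNReal.prod_lt_top fun x _ => lintegral_exp_lin_lt_top hm (c x)

/-- polynomial moments -/
theorem integrable_pow {ρ : ℝ → ℝ} (hρ : EdgeWeight ρ) {m : ℝ} (hm : 0 < m)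
    (stp : Bool → G) (W : Finset G) (ξ : G → ℝ) (hZ : lm W (wt ρ m stp W) ξ ≠ 0) {x : G}
    (hx : x ∈ W) (k : ℕ) :
    Integrable (fun f : G → ℝ => f x ^ k) (gib (wt ρ m stp W) W ξ) := by
  have e : ∀ s : ℝ, ∀ f : G → ℝ, ∑ y ∈ W, (if y = x then s else 0) * f y = s * f x := by
    intro s f
    rw [sum_eq_single x]
    · simp
    · intro b _ hb
      simp [hb]
    · intro h
      exact absurd hx h
  have i1 := integrable_exp_lin hρ hm stp W ξ hZ (fun y => if y = x then 1 else 0)
  have i2 := integrable_exp_lin hρ hm stp W ξ hZ (fun y => if y = x then -1 else 0)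
  simp only [e] at i1 i2
  refine Integrable.mono' ((i1.add i2).const_mul (k.factorial : ℝ))
    ((measurable_pi_apply x).pow_const k).aestronglyMeasurable
    (Filter.Eventually.of_forall fun f => ?_)
  simp only [Pi.add_apply, Real.norm_eq_abs, abs_pow]
  have h1 : |f x| ^ k / k.factorial ≤ Real.exp |f x| := Real.pow_div_factorial_le_exp _ (abs_nonneg _) k
  have h2 : Real.exp |f x| ≤ Real.exp (1 * f x) + Real.exp (-1 * f x) := by
    rcases abs_cases (f x) with h | h
    · rw [h.1]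
      have := (Real.exp_pos (-1 * f x)).le
      rw [one_mul]
      linarith
    · rw [h.1, neg_one_mul]
      have := (Real.exp_pos (1 * f x)).le
      linarith
  have hk : (0 : ℝ) < k.factorial := by exact_mod_cast k.factorial_pos
  rw [div_le_iff₀ hk] at h1
  calc |f x| ^ k ≤ Real.exp |f x| * k.factorial := h1
    _ ≤ (Real.exp (1 * f x) + Real.exp (-1 * f x)) * k.factorial := by gcongr
    _ = _ := by ring

theorem integrable_coord {ρ : ℝ → ℝ} (hρ : EdgeWeight ρ) {m : ℝ} (hm : 0 < m)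
    (stp : Bool → G) (W : Finset G) (ξ : G → ℝ) (hZ : lm W (wt ρ m stp W) ξ ≠ 0) {x : G}
    (hx : x ∈ W) :
    Integrable (fun f : G → ℝ => f x) (gib (wt ρ m stp W) W ξ) := by
  simpa using integrable_pow hρ hm stp W ξ hZ hx 1

end Pool.Agent.HM
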