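import Pool.Agent.Lib_helper12.HM.K5

/-!
Kernel lemma of the project HM (MP_5fc650_pr): a summable nonnegative kernel on `Z ^ 2`, symmetric
under the dihedral group, positive and reflection positive for the reflections in the lines of
sites parallel to an axis and to a diagonal, satisfies `D 0 - D x <= K0 (D 0 - D e1) log |x|`
(infrared bound without Gaussian domination).
-/

namespace Pool.Agent.HM

open Finset

variable {D : ℤ × ℤ → ℝ}

theorem Ker.axis_abs (h : Ker D) (a : ℤ) :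
    D (0, 0) - D (a, 0) ≤ (129 + 768 * Real.log (2 + |(a : ℝ)|)) * (D (0, 0) - D (1, 0)) := by
  have hV : 0 ≤ D (0, 0) - D (1, 0) := by
    have h1 := h.VV_nonneg
    unfold VV at h1
    exact nonneg_of_mul_nonneg_right h1 (by positivity)
  have habs : D (a, 0) = D ((a.natAbs : ℤ), 0) := by
    rcases Int.natAbs_eq a with h1 | h1
    · rw [← h1]
    · have h2 := h.s1 ((a.natAbs : ℤ), 0)
      simp only at h2
      rw [← h2, ← h1]
  have hcast : |(a : ℝ)| = (a.natAbs : ℝ) := by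
    rw [Nat.cast_natAbs, Int.cast_abs]
  rw [habs, hcast]
  set n := a.natAbs with hn
  have hlog0 : 0 ≤ Real.log (2 + (n : ℝ)) := Real.log_nonneg (by linarith [Nat.cast_nonneg (α := ℝ) n])
  rcases lt_or_ge n 2 with h1 | h1
  · have h5 : D ((n : ℤ), 0) = D (0, 0) ∨ D ((n : ℤ), 0) = D (1, 0) := by
      have : n = 0 ∨ n = 1 := by omega
      rcases this with h6 | h6
      · left; rw [h6]; rfl
      · right; rw [h6]; rfl
    rcases h5 with h5 | h5
    · rw [h5, sub_self]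
      exact mul_nonneg (by linarith) hV
    · rw [h5]
      nlinarith
  · have h2 := h.axis_n h1
    have h3 : Real.log n ≤ Real.log (2 + n) := by
      have : (0 : ℝ) < n := by
        have : 0 < n := by omega
        exact_mod_cast this
      exact Real.log_le_log this (by linarith)
    nlinarith

theorem Ker.rect_ineq (h : Ker D) (a b : ℤ) :
    D (0, 0) - D (a, b) ≤ (D (0, 0) - D (a, 0)) + (D (0, 0) - D (0, b)) := by
  have h1 := multi (fun x y : ℤ × ℤ => D (x - y)) (fun _ => True) (fun A c _ => h.pd A c)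
    (ι := Fin 4) ![(0, 0), (a, 0), (0, b), (a, b)] ![1, -1, -1, 1] (fun _ => trivial)
  simp [Fin.sum_univ_four, Prod.mk_zero_zero] at h1
  have n1 : D (-a, 0) = D (a, 0) := h.s1 (a, 0)
  have n2 : D (-a, -b) = D (a, b) := h.neg (a, b)
  have n3 : D (a, -b) = D (a, b) := by
    have := h.s1 (a, -b)
    simp only at this
    rw [← this, n2]
  have n4 : D (-a, b) = D (a, b) := h.s1 (a, b)
  have n5 : D (0, -b) = D (0, b) := by
    have := h.neg (0, b)
    simpa using this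
  have n7 : D (0, 0) = D 0 := rfl
  simp only [n1, n2, n3, n4, n5, n7] at h1 ⊢
  linarith

/-- **Kernel lemma.** -/
theorem kernel : ∃ K0 > 0, ∀ D : ℤ × ℤ → ℝ, (∀ x, 0 ≤ D x) →
    (∃ B, ∀ A : Finset (ℤ × ℤ), ∑ x ∈ A, D x ≤ B) →
    (∀ x : ℤ × ℤ, D (-x.1, x.2) = D x) → (∀ x : ℤ × ℤ, D (x.2, x.1) = D x) →
    (∀ (A : Finset (ℤ × ℤ)) (a : ℤ × ℤ → ℝ), 0 ≤ ∑ x ∈ A, ∑ y ∈ A, a x * a y * D (x - y)) →
    (∀ (A : Finset (ℤ × ℤ)) (a : ℤ × ℤ → ℝ), (∀ x ∈ A, 0 ≤ x.1) →
      0 ≤ ∑ x ∈ A, ∑ y ∈ A, a x * a y * D (x.1 + y.1, x.2 - y.2)) →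
    (∀ (A : Finset (ℤ × ℤ)) (a : ℤ × ℤ → ℝ), (∀ x ∈ A, 0 ≤ x.1 + x.2) →
      0 ≤ ∑ x ∈ A, ∑ y ∈ A, a x * a y * D (x.1 + y.2, x.2 + y.1)) →
    ∀ x : ℤ × ℤ, D 0 - D x ≤
      K0 * (D 0 - D (1, 0)) * Real.log (2 + |(x.1 : ℝ)| + |(x.2 : ℝ)|) := by
  refine ⟨2000, by norm_num, fun D nn sm s1 s2 pd ax di x => ?_⟩
  obtain ⟨B, hB⟩ := sm
  have h : Ker D := ⟨nn, summable_of_sum_le nn hB, s1, s2, pd, ax, di⟩
  obtain ⟨a, b⟩ := x
  show D (0, 0) - D (a, b) ≤ 2000 * (D (0, 0) - D (1, 0)) * Real.log (2 + |(a : ℝ)| + |(b : ℝ)|)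
  have hV : 0 ≤ D (0, 0) - D (1, 0) := by
    have h1 := h.VV_nonneg
    unfold VV at h1
    exact nonneg_of_mul_nonneg_right h1 (by positivity)
  have h1 := h.rect_ineq a b
  have h2 := h.axis_abs a
  have h3 := h.axis_abs b
  have e3 : D (0, b) = D (b, 0) := by
    have := h.s2 (0, b)
    simp only at this
    exact this.symm
  rw [e3] at h1
  set L := Real.log (2 + |(a : ℝ)| + |(b : ℝ)|) with hL
  have ha := abs_nonneg (a : ℝ)
  have hb := abs_nonneg (b : ℝ)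
  have l1 : Real.log (2 + |(a : ℝ)|) ≤ L := Real.log_le_log (by linarith) (by linarith)
  have l2 : Real.log (2 + |(b : ℝ)|) ≤ L := Real.log_le_log (by linarith) (by linarith)
  have l0 : (0.69 : ℝ) ≤ L := by
    have := Real.log_two_gt_d9
    have h2' : Real.log 2 ≤ L := Real.log_le_log (by norm_num) (by linarith)
    linarith
  have e1 : D (0, 0) - D (a, b) ≤ (258 + 1536 * L) * (D (0, 0) - D (1, 0)) := by
    nlinarith
  refine e1.trans ?_
  have e2 : 258 + 1536 * L ≤ 2000 * L := by linarith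
  calc _ ≤ 2000 * L * (D (0, 0) - D (1, 0)) := mul_le_mul_of_nonneg_right e2 hV
    _ = _ := by ring

end Pool.Agent.HM
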