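import Mathlib

/-!
Kernel lemma of the project HM (MP_5fc650_pr), part 1: Hankel positive sequences.
-/

namespace Pool.Agent.HM

open Finset Filter Topology

/-- from finite sets of points to families of points -/
theorem multi {α : Type*} (K : α → α → ℝ) (P : α → Prop)
    (h : ∀ (A : Finset α) (a : α → ℝ), (∀ x ∈ A, P x) → 0 ≤ ∑ x ∈ A, ∑ y ∈ A, a x * a y * K x y)
    {ι : Type*} [Fintype ι] (x : ι → α) (c : ι → ℝ) (hx : ∀ i, P (x i)) :
    0 ≤ ∑ i, ∑ j, c i * c j * K (x i) (x j) := by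
  classical
  have key := h (univ.image x) (fun z => ∑ i, if x i = z then c i else 0) (by
    intro z hz
    obtain ⟨i, -, rfl⟩ := mem_image.1 hz
    exact hx i)
  have e1 : ∀ (i : ι) (φ : α → ℝ), ∑ z ∈ univ.image x, (if x i = z then c i else 0) * φ z =
      c i * φ (x i) := by
    intro i φ
    rw [Finset.sum_eq_single (x i)]
    · simp
    · intro z _ hz
      rw [if_neg (fun h => hz h.symm), zero_mul]
    · intro hz
      exact absurd (mem_image_of_mem x (mem_univ i)) hz
  have e2 : ∑ z ∈ univ.image x, ∑ w ∈ univ.image x,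
      (∑ i, if x i = z then c i else 0) * (∑ j, if x j = w then c j else 0) * K z w =
      ∑ i, ∑ j, c i * c j * K (x i) (x j) := by
    calc _ = ∑ z ∈ univ.image x, ∑ i, (if x i = z then c i else 0) *
          (∑ w ∈ univ.image x, (∑ j, if x j = w then c j else 0) * K z w) := by
          refine Finset.sum_congr rfl fun z _ => ?_
          rw [← Finset.sum_mul, Finset.mul_sum]
          refine Finset.sum_congr rfl fun w _ => ?_
          ring
      _ = ∑ i, c i * (∑ w ∈ univ.image x, (∑ j, if x j = w then c j else 0) * K (x i) w) := by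
          rw [Finset.sum_comm]
          refine Finset.sum_congr rfl fun i _ => ?_
          rw [e1 i (fun z => ∑ w ∈ univ.image x, (∑ j, if x j = w then c j else 0) * K z w)]
      _ = _ := by
          refine Finset.sum_congr rfl fun i _ => ?_
          have : ∑ w ∈ univ.image x, (∑ j, if x j = w then c j else 0) * K (x i) w =
              ∑ j, c j * K (x i) (x j) := by
            calc _ = ∑ w ∈ univ.image x, ∑ j, (if x j = w then c j else 0) * K (x i) w := by
                  refine Finset.sum_congr rfl fun w _ => ?_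
                  rw [Finset.sum_mul]
              _ = _ := by
                  rw [Finset.sum_comm]
                  exact Finset.sum_congr rfl fun j _ => e1 j (fun w => K (x i) w)
          rw [this, Finset.mul_sum]
          exact Finset.sum_congr rfl fun j _ => by ring
  rw [e2] at key
  exact key

/-- Hankel positivity -/
def Hk (g : ℕ → ℝ) : Prop :=
  ∀ (ι : Type) [Fintype ι] (x : ι → ℕ) (c : ι → ℝ), 0 ≤ ∑ i, ∑ j, c i * c j * g (x i + x j)

/-- the quadratic form shifted by `2 m` -/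
noncomputable def Af (g : ℕ → ℝ) {N : ℕ} (b : Fin N → ℝ) (m : ℕ) : ℝ :=
  ∑ i : Fin N, ∑ j : Fin N, b i * b j * g (i + j + 2 * m)

theorem Af_convex {g : ℕ → ℝ} (hg : Hk g) {N : ℕ} (b : Fin N → ℝ) (m : ℕ) :
    2 * Af g b m ≤ Af g b 0 + Af g b (2 * m) := by
  have h := hg (Fin N ⊕ Fin N) (Sum.elim (fun i => (i : ℕ)) (fun i => (i : ℕ) + 2 * m))
    (Sum.elim b (fun i => - b i))
  simp only [Fintype.sum_sum_type, Sum.elim_inl, Sum.elim_inr] at h
  have e0 : ∑ i : Fin N, ∑ j : Fin N, b i * b j * g (i + j) = Af g b 0 := by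
    unfold Af; simp
  have e1 : ∑ i : Fin N, ∑ j : Fin N, b i * - b j * g (i + (j + 2 * m)) = - Af g b m := by
    unfold Af
    rw [← Finset.sum_neg_distrib]
    refine Finset.sum_congr rfl fun i _ => ?_
    rw [← Finset.sum_neg_distrib]
    refine Finset.sum_congr rfl fun j _ => ?_
    rw [← add_assoc]; ring
  have e2 : ∑ i : Fin N, ∑ j : Fin N, - b i * b j * g (i + 2 * m + j) = - Af g b m := by
    unfold Af
    rw [← Finset.sum_neg_distrib]
    refine Finset.sum_congr rfl fun i _ => ?_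
    rw [← Finset.sum_neg_distrib]
    refine Finset.sum_congr rfl fun j _ => ?_
    rw [show (i : ℕ) + 2 * m + j = i + j + 2 * m by ring]; ring
  have e3 : ∑ i : Fin N, ∑ j : Fin N, - b i * - b j * g (i + 2 * m + (j + 2 * m)) =
      Af g b (2 * m) := by
    unfold Af
    refine Finset.sum_congr rfl fun i _ => ?_
    refine Finset.sum_congr rfl fun j _ => ?_
    rw [show (i : ℕ) + 2 * m + (j + 2 * m) = i + j + 2 * (2 * m) by ring]; ring
  simp only [Finset.sum_add_distrib] at h
  rw [e0, e1, e2, e3] at h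
  linarith

theorem contr {g : ℕ → ℝ} (hg : Hk g) (hb : ∃ M, ∀ n, |g n| ≤ M) {N : ℕ} (b : Fin N → ℝ) :
    Af g b 1 ≤ Af g b 0 := by
  obtain ⟨M, hM⟩ := hb
  set C : ℝ := ∑ i : Fin N, ∑ j : Fin N, |b i * b j| * M with hC
  have hbd : ∀ m, |Af g b m| ≤ C := by
    intro m
    unfold Af
    refine (Finset.abs_sum_le_sum_abs _ _).trans (Finset.sum_le_sum fun i _ => ?_)
    refine (Finset.abs_sum_le_sum_abs _ _).trans (Finset.sum_le_sum fun j _ => ?_)
    rw [abs_mul]
    exact mul_le_mul_of_nonneg_left (hM _) (abs_nonneg _)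
  have key : ∀ n : ℕ, (2 : ℝ) ^ n * (Af g b 1 - Af g b 0) ≤ Af g b (2 ^ n) - Af g b 0 := by
    intro n
    induction n with
    | zero => simp
    | succ n ih =>
      have h := Af_convex hg b (2 ^ n)
      rw [show 2 * 2 ^ n = 2 ^ (n + 1) by ring] at h
      rw [pow_succ]
      linarith
  by_contra hcon
  push Not at hcon
  set δ := Af g b 1 - Af g b 0 with hδ
  have hδ0 : 0 < δ := by linarith
  obtain ⟨n, hn⟩ := pow_unbounded_of_one_lt (2 * C / δ) (one_lt_two : (1 : ℝ) < 2)
  have h1 := key n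
  have h2 := abs_le.1 (hbd (2 ^ n))
  have h3 := abs_le.1 (hbd 0)
  have h4 : 2 * C < 2 ^ n * δ := by
    rw [div_lt_iff₀ hδ0] at hn
    linarith
  linarith [h2.2, h3.1]

/-! ### the trigonometric identities -/

/-- the sum over the antidiagonal -/
noncomputable def En (p : ℝ) (n : ℕ) : ℝ :=
  ∑ ij ∈ antidiagonal n, Real.cos ((ij.1 + 1 / 2) * p) * Real.cos ((ij.2 + 1 / 2) * p)

noncomputable def Dn (p : ℝ) (n : ℕ) : ℝ :=
  ∑ ij ∈ antidiagonal n, Real.cos (((ij.1 : ℝ) - ij.2) * p)

theorem En_eq (p : ℝ) (n : ℕ) :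
    2 * En p n = (n + 1) * Real.cos ((n + 1) * p) + Dn p n := by
  unfold En Dn
  rw [Finset.mul_sum]
  have h : ∀ ij ∈ antidiagonal n, 2 * (Real.cos (((ij.1 : ℝ) + 1 / 2) * p) *
      Real.cos ((ij.2 + 1 / 2) * p)) = Real.cos ((n + 1) * p) +
      Real.cos (((ij.1 : ℝ) - ij.2) * p) := by
    intro ij hij
    have hn : (n : ℝ) = ij.1 + ij.2 := by
      have := mem_antidiagonal.1 hij
      exact_mod_cast this.symm
    rw [show (n + 1) * p = ((ij.1 : ℝ) + 1 / 2) * p + (ij.2 + 1 / 2) * p by rw [hn]; ring,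
      show ((ij.1 : ℝ) - ij.2) * p = ((ij.1 : ℝ) + 1 / 2) * p - (ij.2 + 1 / 2) * p by ring,
      Real.cos_add, Real.cos_sub]
    ring
  rw [Finset.sum_congr rfl h, Finset.sum_add_distrib]
  simp

theorem Dn_succ_succ (p : ℝ) (n : ℕ) :
    Dn p (n + 2) = Dn p n + 2 * Real.cos ((n + 2) * p) := by
  unfold Dn
  rw [Finset.Nat.antidiagonal_succ_succ']
  simp only [Finset.sum_cons, Finset.sum_map, Function.Embedding.prodMap, Function.Embedding.coeFn_mk,
    Prod.map]
  simp
  have h1 : Real.cos (-((n + 2) * p)) = Real.cos ((n + 2) * p) := Real.cos_neg _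
  have h2 : Real.cos ((-2 + -(n : ℝ)) * p) = Real.cos ((n + 2) * p) := by
    rw [← h1]; ring_nf
  rw [h2]
  ring

theorem abs_Dn_le (p : ℝ) (n : ℕ) : |Dn p n| ≤ n + 1 := by
  unfold Dn
  refine (Finset.abs_sum_le_sum_abs _ _).trans ?_
  calc _ ≤ ∑ ij ∈ antidiagonal n, (1 : ℝ) :=
        Finset.sum_le_sum fun ij _ => Real.abs_cos_le_one _
    _ = n + 1 := by simp

theorem abs_En_le (p : ℝ) (n : ℕ) : |En p n| ≤ n + 1 := by
  unfold En
  refine (Finset.abs_sum_le_sum_abs _ _).trans ?_
  calc _ ≤ ∑ ij ∈ antidiagonal n, (1 : ℝ) := by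
        refine Finset.sum_le_sum fun ij _ => ?_
        rw [abs_mul]
        exact mul_le_one₀ (Real.abs_cos_le_one _) (abs_nonneg _) (Real.abs_cos_le_one _)
    _ = n + 1 := by simp

/-! ### the quadratic form of a summable Hankel positive sequence -/

theorem sum_prod {φ : ℕ → ℝ} (h : Summable fun n : ℕ => ((n : ℝ) + 1) * |φ n|) :
    Summable fun ij : ℕ × ℕ => |φ (ij.1 + ij.2)| := by
  rw [← Finset.HasAntidiagonal.sigmaAntidiagonalEquivProd.summable_iff]
  refine (summable_sigma_of_nonneg fun _ => abs_nonneg _).2 ⟨fun n => (hasSum_fintype _).summable, ?_⟩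
  refine h.congr fun n => ?_
  rw [tsum_fintype]
  have : ∀ b : antidiagonal n, |φ ((Finset.HasAntidiagonal.sigmaAntidiagonalEquivProd
      (⟨n, b⟩ : Σ n : ℕ, antidiagonal n)).1 + (Finset.HasAntidiagonal.sigmaAntidiagonalEquivProd
      (⟨n, b⟩ : Σ n : ℕ, antidiagonal n)).2)| = |φ n| := by
    intro b
    have := mem_antidiagonal.1 b.2
    simp [this]
  rw [Finset.sum_congr rfl fun b _ => this b]
  simp

theorem shift_sum {g : ℕ → ℝ} (hs : Summable fun n : ℕ => ((n : ℝ) + 1) * |g n|) :
    Summable fun n : ℕ => ((n : ℝ) + 1) * |g (n + 2)| := by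
  have h := (summable_nat_add_iff 2).2 hs
  refine Summable.of_nonneg_of_le (fun n => by positivity) (fun n => ?_) h
  push_cast
  have := abs_nonneg (g (n + 2))
  nlinarith

theorem quad_nonneg {g : ℕ → ℝ} (hg : Hk g) (hs : Summable fun n : ℕ => ((n : ℝ) + 1) * |g n|)
    (p : ℝ) : 0 ≤ ∑' n : ℕ, (g n - g (n + 2)) * En p n := by
  set c : ℕ → ℝ := fun i => Real.cos ((i + 1 / 2) * p) with hc
  set F : ℕ × ℕ → ℝ := fun ij => c ij.1 * c ij.2 * (g (ij.1 + ij.2) - g (ij.1 + ij.2 + 2)) with hF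
  have hFs : Summable F := by
    have h1 := sum_prod hs
    have h2 := sum_prod (φ := fun n => g (n + 2)) (shift_sum hs)
    refine Summable.of_norm_bounded (h1.add h2) fun ij => ?_
    rw [Real.norm_eq_abs, hF]
    simp only [abs_mul]
    have a1 : |c ij.1| * |c ij.2| ≤ 1 :=
      mul_le_one₀ (Real.abs_cos_le_one _) (abs_nonneg _) (Real.abs_cos_le_one _)
    calc _ ≤ 1 * |g (ij.1 + ij.2) - g (ij.1 + ij.2 + 2)| :=
          mul_le_mul_of_nonneg_right a1 (abs_nonneg _)
      _ ≤ _ := by
          rw [one_mul]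
          exact abs_sub _ _
  have hb : ∃ M, ∀ n, |g n| ≤ M := by
    refine ⟨∑' n : ℕ, ((n : ℝ) + 1) * |g n|, fun n => ?_⟩
    refine le_trans ?_ (hs.le_tsum n fun j _ => by positivity)
    have := abs_nonneg (g n)
    nlinarith [Nat.cast_nonneg (α := ℝ) n]
  have hsq : Tendsto (fun N : ℕ => range N ×ˢ range N) atTop atTop := by
    refine tendsto_atTop_finset_of_monotone ?_ ?_
    · intro a b hab
      exact Finset.product_subset_product (Finset.range_mono hab) (Finset.range_mono hab)
    · rintro ⟨i, j⟩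
      refine ⟨max i j + 1, ?_⟩
      simp
  have hlim := hFs.hasSum.comp hsq
  have hnn : 0 ≤ ∑' ij, F ij := by
    refine ge_of_tendsto' hlim fun N => ?_
    have h := contr hg hb (fun i : Fin N => c i)
    have e : ∑ ij ∈ range N ×ˢ range N, F ij =
        Af g (fun i : Fin N => c i) 0 - Af g (fun i : Fin N => c i) 1 := by
      rw [Finset.sum_product]
      unfold Af
      rw [← Finset.sum_sub_distrib, Finset.sum_range]
      refine Finset.sum_congr rfl fun i _ => ?_
      rw [← Finset.sum_sub_distrib, Finset.sum_range]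
      refine Finset.sum_congr rfl fun j _ => ?_
      simp only [hF]
      ring_nf
    show 0 ≤ ∑ ij ∈ range N ×ˢ range N, F ij
    rw [e]
    linarith
  have e : ∑' ij, F ij = ∑' n : ℕ, (g n - g (n + 2)) * En p n := by
    rw [← Finset.HasAntidiagonal.sigmaAntidiagonalEquivProd.tsum_eq]
    have hs' : Summable fun x : (Σ n : ℕ, antidiagonal n) =>
        F (Finset.HasAntidiagonal.sigmaAntidiagonalEquivProd x) :=
      Finset.HasAntidiagonal.sigmaAntidiagonalEquivProd.summable_iff.2 hFs
    rw [hs'.tsum_sigma]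
    refine tsum_congr fun n => ?_
    rw [tsum_fintype]
    unfold En
    rw [Finset.mul_sum, ← Finset.sum_coe_sort (antidiagonal n)]
    refine Finset.sum_congr rfl fun b _ => ?_
    have := mem_antidiagonal.1 b.2
    simp only [hF, hc, Finset.HasAntidiagonal.sigmaAntidiagonalEquivProd_apply, this]
    ring
  rw [← e]
  exact hnn

end Pool.Agent.HM
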