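import Pool.Agent.Lib_helper12.HM.K1

/-!
Kernel lemma of the project HM (MP_5fc650_pr), part 2: monotonicity for Hankel positive sequences.
-/

namespace Pool.Agent.HM

open Finset Filter Topology

/-- the cosine series -/
noncomputable def Sg (g : ℕ → ℝ) (p : ℝ) : ℝ := g 0 + 2 * ∑' n : ℕ, g (n + 1) * Real.cos ((n + 1) * p)

/-- its derivative -/
noncomputable def Sg' (g : ℕ → ℝ) (p : ℝ) : ℝ :=
  2 * ∑' n : ℕ, g (n + 1) * (-Real.sin ((n + 1) * p) * (n + 1))

theorem sum_one {g : ℕ → ℝ} (hs : Summable fun n : ℕ => ((n : ℝ) + 1) * |g n|) :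
    Summable fun n : ℕ => ((n : ℝ) + 1) * |g (n + 1)| := by
  have h := (summable_nat_add_iff 1).2 hs
  refine Summable.of_nonneg_of_le (fun n => by positivity) (fun n => ?_) h
  push_cast
  have := abs_nonneg (g (n + 1))
  nlinarith

theorem key_ineq {g : ℕ → ℝ} (hg : Hk g) (hs : Summable fun n : ℕ => ((n : ℝ) + 1) * |g n|)
    (p : ℝ) : 0 ≤ (1 + Real.cos p) * Sg g p + Real.sin p * Sg' g p := by
  have h := quad_nonneg hg hs p
  set e : ℕ → ℝ := fun n => 2 * En p n with he
  have hes : ∀ n, |e n| ≤ 2 * (n + 1) := by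
    intro n
    rw [he]; simp only [abs_mul, abs_two]
    linarith [abs_En_le p n]
  have s0 : Summable fun n : ℕ => g n * e n := by
    refine Summable.of_norm_bounded (hs.mul_left 2) fun n => ?_
    rw [Real.norm_eq_abs, abs_mul]
    nlinarith [hes n, abs_nonneg (g n)]
  have s2 : Summable fun n : ℕ => g (n + 2) * e n := by
    refine Summable.of_norm_bounded ((shift_sum hs).mul_left 2) fun n => ?_
    rw [Real.norm_eq_abs, abs_mul]
    nlinarith [hes n, abs_nonneg (g (n + 2))]
  have s2' : Summable fun n : ℕ => g (n + 2) * e (n + 2) := (summable_nat_add_iff 2).2 s0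
  have e1 : 2 * ∑' n : ℕ, (g n - g (n + 2)) * En p n =
      g 0 * e 0 + g 1 * e 1 + ∑' n : ℕ, g (n + 2) * (e (n + 2) - e n) := by
    rw [← tsum_mul_left]
    have : ∀ n : ℕ, 2 * ((g n - g (n + 2)) * En p n) = g n * e n - g (n + 2) * e n := by
      intro n; simp only [he]; ring
    rw [tsum_congr this, s0.tsum_sub s2, ← s0.sum_add_tsum_nat_add 2, Finset.sum_range_succ,
      Finset.sum_range_one]
    have h3 : ∀ n : ℕ, g (n + 2) * (e (n + 2) - e n) = g (n + 2) * e (n + 2) - g (n + 2) * e n := by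
      intro n; ring
    rw [tsum_congr h3, s2'.tsum_sub s2]
    ring
  have c1 : Summable fun n : ℕ => g (n + 1) * Real.cos ((n + 1) * p) := by
    refine Summable.of_norm_bounded (sum_one hs) fun n => ?_
    rw [Real.norm_eq_abs, abs_mul]
    have := Real.abs_cos_le_one ((n + 1) * p)
    have h2 := abs_nonneg (g (n + 1))
    nlinarith [abs_nonneg (Real.cos ((n + 1) * p)), Nat.cast_nonneg (α := ℝ) n]
  have d1 : Summable fun n : ℕ => g (n + 1) * (-Real.sin ((n + 1) * p) * (n + 1)) := by
    refine Summable.of_norm_bounded (sum_one hs) fun n => ?_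
    rw [Real.norm_eq_abs, abs_mul, abs_mul, abs_neg]
    have := Real.abs_sin_le_one ((n + 1) * p)
    have h2 := abs_nonneg (g (n + 1))
    have h3 : |(n : ℝ) + 1| = n + 1 := abs_of_nonneg (by positivity)
    rw [h3]
    have h4 : |Real.sin ((n + 1) * p)| * ((n : ℝ) + 1) ≤ (n : ℝ) + 1 := by
      nlinarith [Nat.cast_nonneg (α := ℝ) n]
    nlinarith
  have c2 := (summable_nat_add_iff 1).2 c1
  have d2 := (summable_nat_add_iff 1).2 d1
  have e2 : (1 + Real.cos p) * Sg g p + Real.sin p * Sg' g p =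
      g 0 * e 0 + g 1 * e 1 + ∑' n : ℕ, g (n + 2) * (e (n + 2) - e n) := by
    unfold Sg Sg'
    rw [← c1.sum_add_tsum_nat_add 1, ← d1.sum_add_tsum_nat_add 1, Finset.sum_range_one,
      Finset.sum_range_one]
    have h3 : ∀ n : ℕ, g (n + 2) * (e (n + 2) - e n) =
        2 * (1 + Real.cos p) * (g (n + 1 + 1) * Real.cos (((n + 1 : ℕ) + 1) * p)) +
        2 * Real.sin p * (g (n + 1 + 1) *
          (-Real.sin (((n + 1 : ℕ) + 1) * p) * ((n + 1 : ℕ) + 1))) := by
      intro n
      have a1 : e (n + 2) - e n = ((n : ℝ) + 3) * Real.cos ((n + 3) * p) -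
          (n + 1) * Real.cos ((n + 1) * p) + 2 * Real.cos ((n + 2) * p) := by
        simp only [he]
        rw [En_eq, En_eq, Dn_succ_succ]
        push_cast
        ring_nf
      rw [a1]
      have b1 : Real.cos (((n : ℝ) + 3) * p) = Real.cos ((n + 2) * p) * Real.cos p -
          Real.sin ((n + 2) * p) * Real.sin p := by
        rw [show ((n : ℝ) + 3) * p = (n + 2) * p + p by ring, Real.cos_add]
      have b2 : Real.cos (((n : ℝ) + 1) * p) = Real.cos ((n + 2) * p) * Real.cos p +
          Real.sin ((n + 2) * p) * Real.sin p := by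
        rw [show ((n : ℝ) + 1) * p = (n + 2) * p - p by ring, Real.cos_sub]
      rw [b1, b2]
      push_cast
      rw [show ((n : ℝ) + 1 + 1) = n + 2 by ring]
      ring
    rw [tsum_congr h3, (c2.mul_left _).tsum_add (d2.mul_left _), tsum_mul_left, tsum_mul_left]
    have a0 : e 0 = 1 + Real.cos p := by
      simp only [he]
      rw [En_eq]
      simp [Dn]
      ring
    have a1 : e 1 = 2 * Real.cos (2 * p) + 2 * Real.cos p := by
      simp only [he]
      rw [En_eq]
      simp [Dn, Finset.Nat.antidiagonal_succ]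
      norm_num
      ring
    rw [a0, a1, Real.cos_two_mul]
    push_cast
    have hsc := Real.sin_sq p
    simp only [zero_add, one_mul, mul_one]
    linear_combination (-2 * g 1) * hsc
  rw [e2, ← e1]
  linarith

theorem Sg_hasDeriv {g : ℕ → ℝ} (hs : Summable fun n : ℕ => ((n : ℝ) + 1) * |g n|) (p : ℝ) :
    HasDerivAt (Sg g) (Sg' g p) p := by
  unfold Sg Sg'
  refine HasDerivAt.const_add _ (HasDerivAt.const_mul _ ?_)
  refine hasDerivAt_tsum (u := fun n : ℕ => ((n : ℝ) + 1) * |g (n + 1)|) (sum_one hs)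
    (g := fun (n : ℕ) (y : ℝ) => g (n + 1) * Real.cos ((n + 1) * y))
    (g' := fun (n : ℕ) (y : ℝ) => g (n + 1) * (-Real.sin ((n + 1) * y) * (n + 1)))
    (y₀ := 0) ?_ ?_ ?_ p
  · intro n y
    refine HasDerivAt.const_mul _ ?_
    have : HasDerivAt (fun y : ℝ => ((n : ℝ) + 1) * y) (n + 1) y := by
      simpa using (hasDerivAt_id y).const_mul ((n : ℝ) + 1)
    exact this.cos
  · intro n y
    rw [Real.norm_eq_abs, abs_mul, abs_mul, abs_neg]
    have := Real.abs_sin_le_one ((n + 1) * y)
    have h2 := abs_nonneg (g (n + 1))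
    have h3 : |(n : ℝ) + 1| = n + 1 := abs_of_nonneg (by positivity)
    rw [h3]
    have h4 : |Real.sin ((n + 1) * y)| * ((n : ℝ) + 1) ≤ (n : ℝ) + 1 := by
      nlinarith [Nat.cast_nonneg (α := ℝ) n]
    nlinarith
  · refine Summable.of_norm_bounded (sum_one hs) fun n => ?_
    rw [Real.norm_eq_abs, abs_mul]
    have := Real.abs_cos_le_one ((n + 1) * 0)
    have h2 := abs_nonneg (g (n + 1))
    nlinarith [abs_nonneg (Real.cos ((n + 1) * 0)), Nat.cast_nonneg (α := ℝ) n]

theorem mono0 {g : ℕ → ℝ} (hg : Hk g) (hs : Summable fun n : ℕ => ((n : ℝ) + 1) * |g n|) :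
    MonotoneOn (fun p => (1 - Real.cos p) * Sg g p) (Set.Icc 0 Real.pi) := by
  have hd : ∀ p, HasDerivAt (fun p => (1 - Real.cos p) * Sg g p)
      (Real.sin p * Sg g p + (1 - Real.cos p) * Sg' g p) p := by
    intro p
    have h1 : HasDerivAt (fun p => 1 - Real.cos p) (Real.sin p) p := by
      simpa using (Real.hasDerivAt_cos p).const_sub 1
    exact h1.mul (Sg_hasDeriv hs p)
  refine monotoneOn_of_deriv_nonneg (convex_Icc _ _)
    (fun p _ => (hd p).continuousAt.continuousWithinAt)
    (fun p _ => (hd p).differentiableAt.differentiableWithinAt) ?_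
  intro p hp
  rw [interior_Icc] at hp
  rw [(hd p).deriv]
  have hsin : 0 < Real.sin p := Real.sin_pos_of_mem_Ioo hp
  have hc : 0 < 1 + Real.cos p := by
    have h1 := Real.sin_sq p
    have h2 : Real.cos p ≤ 1 := Real.cos_le_one p
    nlinarith [Real.neg_one_le_cos p, sq_pos_of_pos hsin]
  have k := key_ineq hg hs p
  have h2 : (1 + Real.cos p) * (Real.sin p * Sg g p + (1 - Real.cos p) * Sg' g p) =
      Real.sin p * ((1 + Real.cos p) * Sg g p + Real.sin p * Sg' g p) := by
    have h1 := Real.sin_sq p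
    linear_combination (-Sg' g p) * h1
  have h3 : 0 ≤ (1 + Real.cos p) * (Real.sin p * Sg g p + (1 - Real.cos p) * Sg' g p) := by
    rw [h2]
    exact mul_nonneg hsin.le k
  exact nonneg_of_mul_nonneg_right h3 hc

/-- the factor `r ^ n` -/
theorem Hk_geom {g : ℕ → ℝ} (hg : Hk g) (r : ℝ) : Hk (fun n => r ^ n * g n) := by
  intro ι _ x c
  have h := hg ι x (fun i => c i * r ^ x i)
  refine h.trans_eq ?_
  refine Finset.sum_congr rfl fun i _ => Finset.sum_congr rfl fun j _ => ?_
  show c i * r ^ x i * (c j * r ^ x j) * g (x i + x j) =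
    c i * c j * (r ^ (x i + x j) * g (x i + x j))
  rw [pow_add]; ring

theorem mono1 {g : ℕ → ℝ} (hg : Hk g) (hs : Summable fun n : ℕ => |g n|) :
    MonotoneOn (fun p => (1 - Real.cos p) * Sg g p) (Set.Icc 0 Real.pi) := by
  have hlim : ∀ p, Tendsto (fun k : ℕ => (1 - Real.cos p) *
      Sg (fun n => (1 - 1 / ((k : ℝ) + 1)) ^ n * g n) p) atTop (𝓝 ((1 - Real.cos p) * Sg g p)) := by
    intro p
    refine Tendsto.const_mul _ ?_
    unfold Sg
    have hr : Tendsto (fun k : ℕ => (1 - 1 / ((k : ℝ) + 1))) atTop (𝓝 1) := by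
      have := tendsto_one_div_add_atTop_nhds_zero_nat (𝕜 := ℝ)
      simpa using this.const_sub 1
    refine Tendsto.add ?_ (Tendsto.const_mul _ ?_)
    · simp
    · refine tendsto_tsum_of_dominated_convergence (bound := fun n => |g (n + 1)|)
        ((summable_nat_add_iff 1).2 hs) ?_ ?_
      · intro n
        refine Tendsto.mul_const _ ?_
        have := (hr.pow (n + 1)).mul_const (g (n + 1))
        simpa using this
      · refine Eventually.of_forall fun k n => ?_
        rw [Real.norm_eq_abs, abs_mul, abs_mul, abs_pow]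
        have h0 : |1 - 1 / ((k : ℝ) + 1)| ≤ 1 := by
          have h1 : 0 ≤ 1 / ((k : ℝ) + 1) := by positivity
          have h2 : 1 / ((k : ℝ) + 1) ≤ 1 := by
            rw [div_le_one (by positivity)]
            linarith [Nat.cast_nonneg (α := ℝ) k]
          rw [abs_le]
          constructor <;> linarith
        have h1 : |1 - 1 / ((k : ℝ) + 1)| ^ (n + 1) ≤ 1 := pow_le_one₀ (abs_nonneg _) h0
        have h2 := Real.abs_cos_le_one ((n + 1) * p)
        have h3 := abs_nonneg (g (n + 1))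
        calc _ ≤ 1 * |g (n + 1)| * 1 := by gcongr
          _ = _ := by ring
  intro p hp q hq hpq
  refine le_of_tendsto_of_tendsto' (hlim p) (hlim q) fun k => ?_
  refine mono0 (Hk_geom hg _) ?_ hp hq hpq
  have h0 : 0 ≤ 1 - 1 / ((k : ℝ) + 1) := by
    have h2 : 1 / ((k : ℝ) + 1) ≤ 1 := by
      rw [div_le_one (by positivity)]
      linarith [Nat.cast_nonneg (α := ℝ) k]
    linarith
  have h1 : 1 - 1 / ((k : ℝ) + 1) < 1 := by
    have : 0 < 1 / ((k : ℝ) + 1) := by positivity
    linarith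
  set r := 1 - 1 / ((k : ℝ) + 1)
  obtain ⟨M, hM⟩ : ∃ M, ∀ n, |g n| ≤ M :=
    ⟨∑' n, |g n|, fun n => hs.le_tsum n fun j _ => abs_nonneg _⟩
  have hgeo : Summable fun n : ℕ => ((n : ℝ) + 1) * r ^ n := by
    have hr' : ‖r‖ < 1 := by rw [Real.norm_eq_abs, abs_of_nonneg h0]; exact h1
    have a1 := summable_pow_mul_geometric_of_norm_lt_one 1 hr'
    have a2 := summable_geometric_of_norm_lt_one hr'
    refine (a1.add a2).congr fun n => ?_
    simp; ring
  refine Summable.of_nonneg_of_le (fun n => by positivity) (fun n => ?_) (hgeo.mul_right M)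
  rw [abs_mul, abs_pow, abs_of_nonneg h0]
  have := hM n
  have h3 : 0 ≤ ((n : ℝ) + 1) * r ^ n := by positivity
  calc _ = ((n : ℝ) + 1) * r ^ n * |g n| := by ring
    _ ≤ _ := mul_le_mul_of_nonneg_left this h3

end Pool.Agent.HM
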