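import Pool.Agent.Lib_helper12.HM.K2

/-!
Kernel lemma of the project HM (MP_5fc650_pr), part 3: the two monotonicities.
-/

namespace Pool.Agent.HM

open Finset Filter Topology

theorem avg0 {φ : ℤ → ℝ} (h : Summable φ) :
    Tendsto (fun T : ℕ => (T : ℝ)⁻¹ * ∑ w ∈ range T, ∑ w' ∈ range T, φ ((w : ℤ) - w')) atTop
      (𝓝 (∑' u, φ u)) := by
  set s : ℕ → ℝ := fun T => ∑ w' ∈ range (T + 1), φ ((T : ℤ) - w') +
    ∑ w ∈ range T, φ ((w : ℤ) - T) with hs
  have e1 : ∀ T : ℕ, ∑ w ∈ range T, ∑ w' ∈ range T, φ ((w : ℤ) - w') = ∑ t ∈ range T, s t := by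
    intro T
    induction T with
    | zero => simp
    | succ T ih =>
      rw [Finset.sum_range_succ (fun t => s t), ← ih, Finset.sum_range_succ]
      have : ∀ w ∈ range T, ∑ w' ∈ range (T + 1), φ ((w : ℤ) - w') =
          ∑ w' ∈ range T, φ ((w : ℤ) - w') + φ ((w : ℤ) - T) := by
        intro w _
        rw [Finset.sum_range_succ]
      rw [Finset.sum_congr rfl this, Finset.sum_add_distrib]
      simp only [hs]
      ring
  have e2 : ∀ T : ℕ, s T = ∑ u ∈ range (T + 1), φ (u : ℤ) +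
      ∑ v ∈ range T, φ (-((v : ℤ) + 1)) := by
    intro T
    simp only [hs]
    rw [← Finset.sum_range_reflect (fun u : ℕ => φ (u : ℤ)),
      ← Finset.sum_range_reflect (fun v : ℕ => φ (-((v : ℤ) + 1)))]
    congr 1
    · refine Finset.sum_congr rfl fun w hw => ?_
      have := mem_range.1 hw
      congr 1
      omega
    · refine Finset.sum_congr rfl fun w hw => ?_
      have := mem_range.1 hw
      congr 1
      omega
  have hn : Summable fun n : ℕ => φ (n : ℤ) := h.comp_injective Nat.cast_injective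
  have hm : Summable fun n : ℕ => φ (-((n : ℤ) + 1)) := by
    refine h.comp_injective (i := fun n : ℕ => -((n : ℤ) + 1)) ?_
    intro a b hab
    simp only at hab
    omega
  have h3 : Tendsto s atTop (𝓝 (∑' u, φ u)) := by
    rw [tsum_of_nat_of_neg_add_one hn hm]
    have t1 := (tendsto_add_atTop_iff_nat 1).2 hn.hasSum.tendsto_sum_nat
    have t2 := hm.hasSum.tendsto_sum_nat
    refine (t1.add t2).congr fun T => ?_
    rw [e2]
  refine h3.cesaro.congr fun T => ?_
  rw [e1]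

theorem hk_of {φ : ℕ → ℤ → ℝ} (hφ : ∀ s, Summable (φ s)) (σ : ℤ)
    (hpos : ∀ (ι : Type) [Fintype ι] (x : ι → ℕ) (c : ι → ℝ) (T : ℕ),
      0 ≤ ∑ i, ∑ j, c i * c j * ∑ w ∈ range T, ∑ w' ∈ range T,
        φ (x i + x j) ((w : ℤ) - w' + σ * x j)) :
    Hk (fun s => ∑' u, φ s u) := by
  intro ι _ x c
  have hlim : Tendsto (fun T : ℕ => ∑ i, ∑ j, c i * c j * ((T : ℝ)⁻¹ * ∑ w ∈ range T,
      ∑ w' ∈ range T, φ (x i + x j) ((w : ℤ) - w' + σ * x j))) atTop
      (𝓝 (∑ i, ∑ j, c i * c j * ∑' u, φ (x i + x j) u)) := by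
    refine tendsto_finsetSum _ fun i _ => tendsto_finsetSum _ fun j _ => Tendsto.const_mul _ ?_
    have h1 : Summable fun u : ℤ => φ (x i + x j) (u + σ * x j) :=
      (Equiv.addRight (σ * (x j : ℤ))).summable_iff.2 (hφ (x i + x j))
    have h2 := avg0 h1
    have h3 := (Equiv.addRight (σ * (x j : ℤ))).tsum_eq (φ (x i + x j))
    simp only [Equiv.coe_addRight] at h3
    rw [h3] at h2
    exact h2
  refine ge_of_tendsto' hlim fun T => ?_
  have h := hpos ι x c T
  have e : ∑ i, ∑ j, c i * c j * ((T : ℝ)⁻¹ * ∑ w ∈ range T,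
      ∑ w' ∈ range T, φ (x i + x j) ((w : ℤ) - w' + σ * x j)) = (T : ℝ)⁻¹ *
      ∑ i, ∑ j, c i * c j * ∑ w ∈ range T, ∑ w' ∈ range T,
        φ (x i + x j) ((w : ℤ) - w' + σ * x j) := by
    rw [Finset.mul_sum]
    refine Finset.sum_congr rfl fun i _ => ?_
    rw [Finset.mul_sum]
    refine Finset.sum_congr rfl fun j _ => ?_
    ring
  rw [e]
  exact mul_nonneg (by positivity) h

/-- the hypotheses -/
structure Ker (D : ℤ × ℤ → ℝ) : Prop where
  nn : ∀ x, 0 ≤ D x
  sm : Summable D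
  s1 : ∀ x : ℤ × ℤ, D (-x.1, x.2) = D x
  s2 : ∀ x : ℤ × ℤ, D (x.2, x.1) = D x
  pd : ∀ (A : Finset (ℤ × ℤ)) (a : ℤ × ℤ → ℝ), 0 ≤ ∑ x ∈ A, ∑ y ∈ A, a x * a y * D (x - y)
  ax : ∀ (A : Finset (ℤ × ℤ)) (a : ℤ × ℤ → ℝ), (∀ x ∈ A, 0 ≤ x.1) →
    0 ≤ ∑ x ∈ A, ∑ y ∈ A, a x * a y * D (x.1 + y.1, x.2 - y.2)
  di : ∀ (A : Finset (ℤ × ℤ)) (a : ℤ × ℤ → ℝ), (∀ x ∈ A, 0 ≤ x.1 + x.2) →
    0 ≤ ∑ x ∈ A, ∑ y ∈ A, a x * a y * D (x.1 + y.2, x.2 + y.1)

/-- the general positivity with cosines -/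
theorem cos_pos (K : ℤ × ℤ → ℤ × ℤ → ℝ) (P : ℤ × ℤ → Prop)
    (h : ∀ (A : Finset (ℤ × ℤ)) (a : ℤ × ℤ → ℝ), (∀ x ∈ A, P x) →
      0 ≤ ∑ x ∈ A, ∑ y ∈ A, a x * a y * K x y)
    (ι : Type) [Fintype ι] (c : ι → ℝ) (T : ℕ) (X : ι → ℕ → ℤ × ℤ) (θ : ι → ℕ → ℝ)
    (hX : ∀ i w, P (X i w)) :
    0 ≤ ∑ i, ∑ j, c i * c j * ∑ w ∈ range T, ∑ w' ∈ range T,
      K (X i w) (X j w') * Real.cos (θ i w - θ j w') := by
  have h1 := multi K P h (ι := ι × Fin T) (fun z => X z.1 z.2)
    (fun z => c z.1 * Real.cos (θ z.1 z.2)) (fun z => hX _ _)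
  have h2 := multi K P h (ι := ι × Fin T) (fun z => X z.1 z.2)
    (fun z => c z.1 * Real.sin (θ z.1 z.2)) (fun z => hX _ _)
  have e : ∑ i, ∑ j, c i * c j * ∑ w ∈ range T, ∑ w' ∈ range T,
      K (X i w) (X j w') * Real.cos (θ i w - θ j w') =
      ∑ z : ι × Fin T, ∑ z' : ι × Fin T,
        c z.1 * Real.cos (θ z.1 z.2) * (c z'.1 * Real.cos (θ z'.1 z'.2)) *
          K (X z.1 z.2) (X z'.1 z'.2) +
      ∑ z : ι × Fin T, ∑ z' : ι × Fin T,
        c z.1 * Real.sin (θ z.1 z.2) * (c z'.1 * Real.sin (θ z'.1 z'.2)) *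
          K (X z.1 z.2) (X z'.1 z'.2) := by
    rw [← Finset.sum_add_distrib, Fintype.sum_prod_type]
    refine Finset.sum_congr rfl fun i _ => ?_
    calc _ = ∑ j, ∑ w : Fin T, ∑ w' : Fin T, c i * c j *
          (K (X i w) (X j w') * Real.cos (θ i w - θ j w')) := by
          refine Finset.sum_congr rfl fun j _ => ?_
          rw [Finset.mul_sum, Finset.sum_range]
          refine Finset.sum_congr rfl fun w _ => ?_
          rw [Finset.mul_sum, Finset.sum_range]
      _ = ∑ w : Fin T, ∑ j, ∑ w' : Fin T, c i * c j *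
          (K (X i w) (X j w') * Real.cos (θ i w - θ j w')) := Finset.sum_comm
      _ = _ := by
          refine Finset.sum_congr rfl fun w _ => ?_
          rw [← Finset.sum_add_distrib, Fintype.sum_prod_type]
          refine Finset.sum_congr rfl fun j _ => Finset.sum_congr rfl fun w' _ => ?_
          simp only
          rw [Real.cos_sub]
          ring
  rw [e]
  linarith

variable {D : ℤ × ℤ → ℝ}

theorem Ker.neg (h : Ker D) (x : ℤ × ℤ) : D (-x) = D x := by
  have h1 := h.s1 x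
  have h2 := h.s2 (-x.1, x.2)
  have h3 := h.s1 (x.2, -x.1)
  have h4 := h.s2 (-x.2, -x.1)
  simp only at h1 h2 h3 h4
  show D (-x.1, -x.2) = D x
  rw [h4, h3, h2, h1]

noncomputable def pax (D : ℤ × ℤ → ℝ) (q : ℝ) (s : ℤ) (t : ℤ) : ℝ := D (s, t) * Real.cos (q * t)

noncomputable def pdi (D : ℤ × ℤ → ℝ) (q : ℝ) (s : ℤ) (u : ℤ) : ℝ :=
  D (u, s - u) * Real.cos (q * (2 * u - s))

theorem Ker.sum_row (h : Ker D) (s : ℤ) : Summable fun t : ℤ => D (s, t) :=
  h.sm.comp_injective (fun _ _ hab => (Prod.ext_iff.1 hab).2)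

theorem Ker.sum_diag (h : Ker D) (s : ℤ) : Summable fun u : ℤ => D (u, s - u) :=
  h.sm.comp_injective (i := fun u : ℤ => (u, s - u)) (fun _ _ hab => (Prod.ext_iff.1 hab).1)

theorem mul_cos_sum {α : Type*} {f : α → ℝ} (hf : Summable f) (h0 : ∀ x, 0 ≤ f x) (θ : α → ℝ) :
    Summable fun x => f x * Real.cos (θ x) := by
  refine Summable.of_norm_bounded hf fun x => ?_
  rw [Real.norm_eq_abs, abs_mul, abs_of_nonneg (h0 x)]
  have := Real.abs_cos_le_one (θ x)
  nlinarith [h0 x]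

theorem Ker.pax_sum (h : Ker D) (q : ℝ) (s : ℤ) : Summable (pax D q s) :=
  mul_cos_sum (h.sum_row s) (fun _ => h.nn _) _

theorem Ker.pdi_sum (h : Ker D) (q : ℝ) (s : ℤ) : Summable (pdi D q s) :=
  mul_cos_sum (h.sum_diag s) (fun _ => h.nn _) _

theorem Ker.hk_ax (h : Ker D) (q : ℝ) : Hk (fun s : ℕ => ∑' t, pax D q s t) := by
  refine hk_of (φ := fun s : ℕ => pax D q s) (fun s => h.pax_sum q s) 0 ?_
  intro ι _ x c T
  have := cos_pos (fun z z' => D (z.1 + z'.1, z.2 - z'.2)) (fun z => 0 ≤ z.1) h.ax ι c T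
    (fun i w => ((x i : ℤ), (w : ℤ))) (fun i w => q * w) (fun i w => by simp)
  refine this.trans_eq ?_
  refine Finset.sum_congr rfl fun i _ => Finset.sum_congr rfl fun j _ => ?_
  congr 1
  refine Finset.sum_congr rfl fun w _ => Finset.sum_congr rfl fun w' _ => ?_
  simp only [pax]
  push_cast
  simp only [zero_mul, add_zero]
  rw [mul_sub]

theorem Ker.hk_di (h : Ker D) (q : ℝ) : Hk (fun s : ℕ => ∑' u, pdi D q s u) := by
  refine hk_of (φ := fun s : ℕ => pdi D q s) (fun s => h.pdi_sum q s) 1 ?_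
  intro ι _ x c T
  have := cos_pos (fun z z' => D (z.1 + z'.2, z.2 + z'.1)) (fun z => 0 ≤ z.1 + z.2) h.di ι c T
    (fun i w => ((w : ℤ), (x i : ℤ) - w)) (fun i w => q * (2 * w - x i)) (fun i w => by simp)
  refine this.trans_eq ?_
  refine Finset.sum_congr rfl fun i _ => Finset.sum_congr rfl fun j _ => ?_
  congr 1
  refine Finset.sum_congr rfl fun w _ => Finset.sum_congr rfl fun w' _ => ?_
  simp only [pdi]
  congr 1
  · congr 1
    ext
    · simp; ring
    · simp; ring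
  · congr 1
    push_cast
    ring

/-! ### the two-dimensional cosine series -/

/-- the cosine series of `D` -/
noncomputable def S2 (D : ℤ × ℤ → ℝ) (k l : ℝ) : ℝ := ∑' x : ℤ × ℤ, D x * Real.cos (k * x.1 + l * x.2)

theorem Ker.S2_cos (h : Ker D) (k l : ℝ) :
    S2 D k l = ∑' x : ℤ × ℤ, D x * (Real.cos (k * x.1) * Real.cos (l * x.2)) := by
  have i1 : Summable fun x : ℤ × ℤ => D x * Real.cos (k * x.1 + l * x.2) :=
    mul_cos_sum h.sm h.nn _
  have i2 : Summable fun x : ℤ × ℤ => D x * Real.cos (-(k * x.1) + l * x.2) :=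
    mul_cos_sum h.sm h.nn _
  let e : ℤ × ℤ ≃ ℤ × ℤ := (Equiv.neg ℤ).prodCongr (Equiv.refl ℤ)
  have h1 : S2 D k l = ∑' x : ℤ × ℤ, D x * Real.cos (-(k * x.1) + l * x.2) := by
    unfold S2
    rw [← e.tsum_eq]
    refine tsum_congr fun x => ?_
    have := h.s1 x
    simp only [e, Equiv.prodCongr_apply, Equiv.coe_refl, Prod.map, Equiv.neg_apply, id]
    rw [this]
    push_cast
    ring_nf
  have h2 : S2 D k l + S2 D k l =
      2 * ∑' x : ℤ × ℤ, D x * (Real.cos (k * x.1) * Real.cos (l * x.2)) := by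
    nth_rewrite 2 [h1]
    unfold S2
    rw [← i1.tsum_add i2, ← tsum_mul_left]
    refine tsum_congr fun x => ?_
    rw [Real.cos_add, Real.cos_add, Real.cos_neg, Real.sin_neg]
    ring
  linarith

theorem Ker.S2_diag (h : Ker D) (p q : ℝ) :
    S2 D (p + q) (p - q) =
      ∑' x : ℤ × ℤ, D x * (Real.cos (p * (x.1 + x.2)) * Real.cos (q * (x.1 - x.2))) := by
  have i1 : Summable fun x : ℤ × ℤ => D x * Real.cos (p * (x.1 + x.2) + q * (x.1 - x.2)) :=
    mul_cos_sum h.sm h.nn _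
  have i2 : Summable fun x : ℤ × ℤ => D x * Real.cos (p * (x.1 + x.2) - q * (x.1 - x.2)) :=
    mul_cos_sum h.sm h.nn _
  have h0 : S2 D (p + q) (p - q) =
      ∑' x : ℤ × ℤ, D x * Real.cos (p * (x.1 + x.2) + q * (x.1 - x.2)) := by
    unfold S2
    refine tsum_congr fun x => ?_
    ring_nf
  have h1 : S2 D (p + q) (p - q) =
      ∑' x : ℤ × ℤ, D x * Real.cos (p * (x.1 + x.2) - q * (x.1 - x.2)) := by
    rw [h0, ← (Equiv.prodComm ℤ ℤ).tsum_eq]
    refine tsum_congr fun x => ?_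
    have := h.s2 x
    simp only [Equiv.prodComm_apply, Prod.swap]
    rw [this]
    ring_nf
  have h2 : S2 D (p + q) (p - q) + S2 D (p + q) (p - q) = 2 *
      ∑' x : ℤ × ℤ, D x * (Real.cos (p * (x.1 + x.2)) * Real.cos (q * (x.1 - x.2))) := by
    nth_rewrite 2 [h1]
    rw [h0, ← i1.tsum_add i2, ← tsum_mul_left]
    refine tsum_congr fun x => ?_
    rw [Real.cos_add, Real.cos_sub]
    ring
  linarith

theorem two_sided {H : ℤ → ℝ} (hs : Summable H) (he : ∀ n, H (-n) = H n) :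
    ∑' n, H n = H 0 + 2 * ∑' n : ℕ, H (n + 1) := by
  have hn : Summable fun n : ℕ => H (n : ℤ) := hs.comp_injective Nat.cast_injective
  have hm : Summable fun n : ℕ => H (-((n : ℤ) + 1)) := by
    refine hs.comp_injective (i := fun n : ℕ => -((n : ℤ) + 1)) ?_
    intro a b hab
    simp only at hab
    omega
  rw [tsum_of_nat_of_neg_add_one hn hm, ← hn.sum_add_tsum_nat_add 1]
  have : ∀ n : ℕ, H (-((n : ℤ) + 1)) = H (n + 1) := fun n => he _
  simp only [this]
  simp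
  ring

theorem Ker.S2_ax (h : Ker D) (k l : ℝ) :
    S2 D k l = Sg (fun s : ℕ => ∑' t, pax D l s t) k := by
  rw [h.S2_cos]
  have i1 : Summable fun x : ℤ × ℤ => D x * (Real.cos (k * x.1) * Real.cos (l * x.2)) := by
    have := mul_cos_sum h.sm h.nn (fun x => k * x.1)
    refine Summable.of_norm_bounded h.sm fun x => ?_
    rw [Real.norm_eq_abs, abs_mul, abs_mul, abs_of_nonneg (h.nn x)]
    have a1 := Real.abs_cos_le_one (k * x.1)
    have a2 := Real.abs_cos_le_one (l * x.2)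
    have a3 : |Real.cos (k * x.1)| * |Real.cos (l * x.2)| ≤ 1 :=
      mul_le_one₀ a1 (abs_nonneg _) a2
    nlinarith [h.nn x]
  have e1 : ∀ s : ℤ, ∑' t : ℤ, D (s, t) * (Real.cos (k * s) * Real.cos (l * t)) =
      (∑' t, pax D l s t) * Real.cos (k * s) := by
    intro s
    rw [← tsum_mul_right]
    refine tsum_congr fun t => ?_
    simp only [pax]
    ring
  have i2 : Summable fun s : ℤ => (∑' t, pax D l s t) * Real.cos (k * s) := by
    refine i1.prod.congr fun s => ?_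
    exact e1 s
  rw [i1.tsum_prod]
  rw [tsum_congr e1, two_sided i2]
  · unfold Sg
    simp
    exact tsum_congr fun n => by rw [mul_comm k]
  · intro n
    have : ∀ t, pax D l (-n) t = pax D l n t := by
      intro t
      simp only [pax]
      rw [h.s1 (n, t)]
    rw [tsum_congr this]
    congr 1
    push_cast
    rw [mul_neg, Real.cos_neg]

theorem Ker.S2_di (h : Ker D) (p q : ℝ) :
    S2 D (p + q) (p - q) = Sg (fun s : ℕ => ∑' u, pdi D q s u) p := by
  rw [h.S2_diag]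
  let e : ℤ × ℤ ≃ ℤ × ℤ :=
    { toFun := fun z => (z.2, z.1 - z.2)
      invFun := fun x => (x.1 + x.2, x.1)
      left_inv := fun z => by ext <;> simp
      right_inv := fun x => by ext <;> simp }
  rw [← e.tsum_eq]
  have i0 : Summable fun x : ℤ × ℤ => D x * (Real.cos (p * (x.1 + x.2)) *
      Real.cos (q * (x.1 - x.2))) := by
    refine Summable.of_norm_bounded h.sm fun x => ?_
    rw [Real.norm_eq_abs, abs_mul, abs_mul, abs_of_nonneg (h.nn x)]
    have a1 := Real.abs_cos_le_one (p * (x.1 + x.2))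
    have a2 := Real.abs_cos_le_one (q * (x.1 - x.2))
    have a3 : |Real.cos (p * (x.1 + x.2))| * |Real.cos (q * (x.1 - x.2))| ≤ 1 :=
      mul_le_one₀ a1 (abs_nonneg _) a2
    nlinarith [h.nn x]
  have i1 := e.summable_iff.2 i0
  simp only [Function.comp_def] at i1
  have e1 : ∀ s : ℤ, ∑' u : ℤ, D (e (s, u)) * (Real.cos (p * ((e (s, u)).1 + (e (s, u)).2)) *
      Real.cos (q * ((e (s, u)).1 - (e (s, u)).2))) =
      (∑' u, pdi D q s u) * Real.cos (p * s) := by
    intro s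
    rw [← tsum_mul_right]
    refine tsum_congr fun u => ?_
    simp only [pdi, e, Equiv.coe_fn_mk]
    push_cast
    rw [show (u : ℝ) + (s - u) = s by ring, show (u : ℝ) - (s - u) = 2 * u - s by ring]
    ring
  have i2 : Summable fun s : ℤ => (∑' u, pdi D q s u) * Real.cos (p * s) := by
    refine i1.prod.congr fun s => ?_
    exact e1 s
  rw [i1.tsum_prod]
  rw [tsum_congr e1, two_sided i2]
  · unfold Sg
    simp
    exact tsum_congr fun n => by rw [mul_comm p]
  · intro n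
    have : ∑' u, pdi D q (-n) u = ∑' u, pdi D q n u := by
      rw [← (Equiv.neg ℤ).tsum_eq]
      refine tsum_congr fun u => ?_
      simp only [pdi, Equiv.neg_apply]
      have := h.neg (u, n - u)
      rw [show (-u, -n - -u) = -(u, n - u) by ext <;> simp; ring, this]
      congr 1
      push_cast
      rw [show q * (2 * -(u : ℝ) - -n) = -(q * (2 * u - n)) by ring, Real.cos_neg]
    rw [this]
    congr 1
    push_cast
    rw [mul_neg, Real.cos_neg]

theorem Ker.hk_ax_sum (h : Ker D) (q : ℝ) : Summable fun s : ℕ => |∑' t, pax D q s t| := by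
  have h1 : Summable fun s : ℤ => ∑' t : ℤ, D (s, t) := h.sm.prod
  have h2 : Summable fun s : ℕ => ∑' t : ℤ, D ((s : ℤ), t) := h1.comp_injective Nat.cast_injective
  refine Summable.of_nonneg_of_le (fun s => abs_nonneg _) (fun s => ?_) h2
  rw [← Real.norm_eq_abs]
  refine (norm_tsum_le_tsum_norm (h.pax_sum q s).norm).trans ?_
  refine Summable.tsum_le_tsum (fun t => ?_) (h.pax_sum q s).norm (h.sum_row s)
  simp only [pax]
  rw [Real.norm_eq_abs, abs_mul, abs_of_nonneg (h.nn _)]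
  have := Real.abs_cos_le_one (q * t)
  nlinarith [h.nn ((s : ℤ), t)]

theorem Ker.hk_di_sum (h : Ker D) (q : ℝ) : Summable fun s : ℕ => |∑' u, pdi D q s u| := by
  let e : ℤ × ℤ ≃ ℤ × ℤ :=
    { toFun := fun z => (z.2, z.1 - z.2)
      invFun := fun x => (x.1 + x.2, x.1)
      left_inv := fun z => by ext <;> simp
      right_inv := fun x => by ext <;> simp }
  have h0 := e.summable_iff.2 h.sm
  have h1 : Summable fun s : ℤ => ∑' u : ℤ, D (u, s - u) := h0.prod
  have h2 : Summable fun s : ℕ => ∑' u : ℤ, D (u, (s : ℤ) - u) :=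
    h1.comp_injective Nat.cast_injective
  refine Summable.of_nonneg_of_le (fun s => abs_nonneg _) (fun s => ?_) h2
  rw [← Real.norm_eq_abs]
  refine (norm_tsum_le_tsum_norm (h.pdi_sum q s).norm).trans ?_
  refine Summable.tsum_le_tsum (fun u => ?_) (h.pdi_sum q s).norm (h.sum_diag s)
  simp only [pdi]
  rw [Real.norm_eq_abs, abs_mul, abs_of_nonneg (h.nn _)]
  have := Real.abs_cos_le_one (q * (2 * u - (s : ℤ)))
  nlinarith [h.nn (u, (s : ℤ) - u)]

theorem Ker.mono_ax (h : Ker D) (l : ℝ) :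
    MonotoneOn (fun k => (1 - Real.cos k) * S2 D k l) (Set.Icc 0 Real.pi) := by
  have := mono1 (h.hk_ax l) (h.hk_ax_sum l)
  simpa only [h.S2_ax] using this

theorem Ker.mono_di (h : Ker D) (q : ℝ) :
    MonotoneOn (fun p => (1 - Real.cos p) * S2 D (p + q) (p - q)) (Set.Icc 0 Real.pi) := by
  have := mono1 (h.hk_di q) (h.hk_di_sum q)
  simpa only [h.S2_di] using this

theorem Ker.S2_swap (h : Ker D) (k l : ℝ) : S2 D k l = S2 D l k := by
  unfold S2
  rw [← (Equiv.prodComm ℤ ℤ).tsum_eq]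
  refine tsum_congr fun x => ?_
  have := h.s2 x
  simp only [Equiv.prodComm_apply, Prod.swap]
  rw [this]
  ring_nf

theorem Ker.S2_cont (h : Ker D) : Continuous fun z : ℝ × ℝ => S2 D z.1 z.2 := by
  unfold S2
  refine continuous_tsum (u := D) (fun x => by fun_prop) h.sm fun x z => ?_
  rw [Real.norm_eq_abs, abs_mul, abs_of_nonneg (h.nn x)]
  have := Real.abs_cos_le_one (z.1 * x.1 + z.2 * x.2)
  nlinarith [h.nn x]

end Pool.Agent.HM
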