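import Pool.Agent.Lib_helper12.HM.K3

/-!
Kernel lemma of the project HM (MP_5fc650_pr), part 4: Fourier coefficients and the estimate.
-/

namespace Pool.Agent.HM

open Filter Topology MeasureTheory Set

theorem int_cos (c : ℤ) : ∫ t in Icc (0 : ℝ) Real.pi, Real.cos (c * t) =
    Real.pi * (if c = 0 then 1 else 0) := by
  rw [integral_Icc_eq_integral_Ioc, ← intervalIntegral.integral_of_le Real.pi_pos.le]
  by_cases hc : c = 0
  · simp [hc]
  · have hc' : (c : ℝ) ≠ 0 := by exact_mod_cast hc
    rw [intervalIntegral.integral_comp_mul_left (fun x => Real.cos x) hc', integral_cos]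
    simp [hc, Real.sin_int_mul_pi]

theorem int_cos_cos (a b : ℤ) : ∫ t in Icc (0 : ℝ) Real.pi, Real.cos (a * t) * Real.cos (t * b) =
    Real.pi / 2 * ((if b = a then 1 else 0) + (if b = -a then 1 else 0)) := by
  have h : ∀ t : ℝ, Real.cos (a * t) * Real.cos (t * b) =
      (1 / 2) * Real.cos (((a - b : ℤ) : ℝ) * t) + (1 / 2) * Real.cos (((a + b : ℤ) : ℝ) * t) := by
    intro t
    push_cast
    rw [show ((a : ℝ) - b) * t = a * t - t * b by ring,
      show ((a : ℝ) + b) * t = a * t + t * b by ring, Real.cos_sub, Real.cos_add]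
    ring
  simp_rw [h]
  rw [integral_add, integral_const_mul, integral_const_mul, int_cos, int_cos]
  · have e1 : (a - b = 0) = (b = a) := by
      apply propext; omega
    have e2 : (a + b = 0) = (b = -a) := by
      apply propext; omega
    simp only [e1, e2]
    ring
  · exact (Continuous.integrableOn_Icc (by fun_prop))
  · exact (Continuous.integrableOn_Icc (by fun_prop))

variable {D : ℤ × ℤ → ℝ}

/-- the square -/
def Qs : Set (ℝ × ℝ) := Icc (0 : ℝ) Real.pi ×ˢ Icc (0 : ℝ) Real.pi

theorem Qs_compact : IsCompact Qs := isCompact_Icc.prod isCompact_Icc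

theorem Qs_meas : MeasurableSet Qs := measurableSet_Icc.prod measurableSet_Icc

theorem cont_int {F : ℝ × ℝ → ℝ} (hF : Continuous F) {s : Set (ℝ × ℝ)} (hs : IsCompact s) :
    IntegrableOn F s := hF.continuousOn.integrableOn_compact hs

theorem Ker.fourier (h : Ker D) (m n : ℤ) :
    ∫ z in Qs, Real.cos (m * z.1) * Real.cos (n * z.2) * S2 D z.1 z.2 =
      Real.pi ^ 2 * D (m, n) := by
  set F : ℤ × ℤ → ℝ × ℝ → ℝ := fun x z =>
    D x * ((Real.cos (m * z.1) * Real.cos (z.1 * x.1)) *
      (Real.cos (n * z.2) * Real.cos (z.2 * x.2))) with hF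
  have hc : ∀ x, Continuous (F x) := fun x => by simp only [hF]; fun_prop
  have hb : ∀ x z, ‖F x z‖ ≤ D x := by
    intro x z
    simp only [hF]
    rw [norm_mul, Real.norm_of_nonneg (h.nn x)]
    have a1 := Real.abs_cos_le_one (m * z.1)
    have a2 := Real.abs_cos_le_one (z.1 * x.1)
    have a3 := Real.abs_cos_le_one (n * z.2)
    have a4 := Real.abs_cos_le_one (z.2 * x.2)
    have a5 : ‖(Real.cos (m * z.1) * Real.cos (z.1 * x.1)) *
        (Real.cos (n * z.2) * Real.cos (z.2 * x.2))‖ ≤ 1 := by
      simp only [norm_mul, Real.norm_eq_abs]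
      exact mul_le_one₀ (mul_le_one₀ a1 (abs_nonneg _) a2) (by positivity)
        (mul_le_one₀ a3 (abs_nonneg _) a4)
    nlinarith [h.nn x]
  have hint : ∀ x, Integrable (F x) (volume.restrict Qs) := fun x => cont_int (hc x) Qs_compact
  have hsum : Summable fun x => ∫ z in Qs, ‖F x z‖ := by
    refine Summable.of_nonneg_of_le (fun x => integral_nonneg fun z => norm_nonneg _) (fun x => ?_)
      (h.sm.mul_right (volume.real Qs))
    have : ∫ z in Qs, ‖F x z‖ ≤ ∫ z in Qs, D x := by
      refine setIntegral_mono (hint x).norm ?_ fun z => hb x z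
      exact cont_int continuous_const Qs_compact
    refine this.trans_eq ?_
    rw [setIntegral_const, smul_eq_mul]
    ring
  have key := hasSum_integral_of_summable_integral_norm hint hsum
  have e1 : ∫ z in Qs, Real.cos (m * z.1) * Real.cos (n * z.2) * S2 D z.1 z.2 =
      ∫ z in Qs, ∑' x, F x z := by
    refine setIntegral_congr_fun Qs_meas fun z _ => ?_
    simp only [hF]
    rw [h.S2_cos, ← tsum_mul_left]
    refine tsum_congr fun x => ?_
    ring
  have e2 : ∀ x : ℤ × ℤ, ∫ z in Qs, F x z = D x * ((Real.pi / 2 *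
      ((if x.1 = m then 1 else 0) + (if x.1 = -m then 1 else 0))) * (Real.pi / 2 *
      ((if x.2 = n then 1 else 0) + (if x.2 = -n then 1 else 0)))) := by
    intro x
    simp only [hF]
    rw [integral_const_mul]
    congr 1
    unfold Qs
    rw [Measure.volume_eq_prod, setIntegral_prod_mul
      (fun t => Real.cos (m * t) * Real.cos (t * x.1))
      (fun t => Real.cos (n * t) * Real.cos (t * x.2)), int_cos_cos, int_cos_cos]
  rw [e1, ← key.tsum_eq, tsum_congr e2]
  have e3 : ∀ x : ℤ × ℤ, D x * ((Real.pi / 2 *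
      ((if x.1 = m then (1 : ℝ) else 0) + (if x.1 = -m then 1 else 0))) * (Real.pi / 2 *
      ((if x.2 = n then 1 else 0) + (if x.2 = -n then 1 else 0)))) =
      (if x = (m, n) then Real.pi ^ 2 / 4 * D (m, n) else 0) +
      (if x = (m, -n) then Real.pi ^ 2 / 4 * D (m, -n) else 0) +
      ((if x = (-m, n) then Real.pi ^ 2 / 4 * D (-m, n) else 0) +
      (if x = (-m, -n) then Real.pi ^ 2 / 4 * D (-m, -n) else 0)) := by
    rintro ⟨a, b⟩
    have g : ∀ u v : ℤ, (if (a, b) = (u, v) then Real.pi ^ 2 / 4 * D (u, v) else 0) =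
        Real.pi ^ 2 / 4 * (D (a, b) * ((if a = u then (1 : ℝ) else 0) * (if b = v then 1 else 0))) := by
      intro u v
      by_cases h1 : a = u
      · by_cases h2 : b = v
        · subst h1; subst h2; simp
        · simp [h2]
      · simp [h1]
    rw [g, g, g, g]
    ring
  rw [tsum_congr e3]
  have s : ∀ (y : ℤ × ℤ) (c : ℝ), Summable fun x : ℤ × ℤ => if x = y then c else 0 := by
    intro y c
    exact (hasSum_ite_eq y c).summable
  rw [((s _ _).add (s _ _)).tsum_add ((s _ _).add (s _ _)), (s _ _).tsum_add (s _ _),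
    (s _ _).tsum_add (s _ _), tsum_ite_eq, tsum_ite_eq, tsum_ite_eq, tsum_ite_eq]
  have f1 : D (-m, n) = D (m, n) := h.s1 (m, n)
  have f2 : D (-m, -n) = D (m, n) := h.neg (m, n)
  have f3 : D (m, -n) = D (m, n) := by
    have := h.s1 (m, -n)
    simp only at this
    rw [← this, f2]
  rw [f1, f2, f3]
  ring

end Pool.Agent.HM
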