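import Pool.Agent.Lib_helper12.HM.K4

/-!
Kernel lemma of the project HM (MP_5fc650_pr), part 5: the infrared bound and the kernel lemma.
-/

namespace Pool.Agent.HM

open Filter Topology MeasureTheory Set

variable {D : ℤ × ℤ → ℝ}

theorem Ker.S2_nonneg (h : Ker D) {k : ℝ} (l : ℝ) (hk : 0 < k) (hk' : k ≤ Real.pi) :
    0 ≤ S2 D k l := by
  have h1 := h.mono_ax l (left_mem_Icc.2 Real.pi_pos.le) ⟨hk.le, hk'⟩ hk.le
  simp only [Real.cos_zero, sub_self, zero_mul] at h1
  have h2 : 0 < 1 - Real.cos k := by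
    have := Real.cos_lt_cos_of_nonneg_of_le_pi (le_refl 0) hk' hk
    rw [Real.cos_zero] at this
    linarith
  exact nonneg_of_mul_nonneg_right h1 h2

theorem Ker.f_nonneg (h : Ker D) {z : ℝ × ℝ} (hz : z ∈ Qs) : 0 ≤ (1 - Real.cos z.1) * S2 D z.1 z.2 := by
  have h1 := h.mono_ax z.2 (left_mem_Icc.2 Real.pi_pos.le) hz.1 hz.1.1
  simpa using h1

theorem Ker.cont_f (h : Ker D) (n : ℤ) :
    Continuous fun z : ℝ × ℝ => (1 - Real.cos (n * z.1)) * S2 D z.1 z.2 :=
  (by fun_prop : Continuous fun z : ℝ × ℝ => 1 - Real.cos (n * z.1)).mul h.S2_cont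

theorem Ker.cont_f1 (h : Ker D) :
    Continuous fun z : ℝ × ℝ => (1 - Real.cos z.1) * S2 D z.1 z.2 :=
  (by fun_prop : Continuous fun z : ℝ × ℝ => 1 - Real.cos z.1).mul h.S2_cont

theorem Ker.cont_f2 (h : Ker D) :
    Continuous fun z : ℝ × ℝ => (1 - Real.cos z.2) * S2 D z.1 z.2 :=
  (by fun_prop : Continuous fun z : ℝ × ℝ => 1 - Real.cos z.2).mul h.S2_cont

theorem Ker.four_n (h : Ker D) (n : ℤ) :
    ∫ z in Qs, (1 - Real.cos (n * z.1)) * S2 D z.1 z.2 = Real.pi ^ 2 * (D (0, 0) - D (n, 0)) := by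
  have h0 := h.fourier 0 0
  have h1 := h.fourier n 0
  simp only [Int.cast_zero, zero_mul, Real.cos_zero, mul_one, one_mul] at h0 h1
  have : ∀ z : ℝ × ℝ, (1 - Real.cos (n * z.1)) * S2 D z.1 z.2 =
      S2 D z.1 z.2 - Real.cos (n * z.1) * S2 D z.1 z.2 := fun z => by ring
  simp_rw [this]
  rw [integral_sub, h0, h1]
  · ring
  · exact cont_int h.S2_cont Qs_compact
  · exact cont_int ((by fun_prop : Continuous fun z : ℝ × ℝ => Real.cos (n * z.1)).mul h.S2_cont)
      Qs_compact

/-- the constant of the sum rule -/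
noncomputable def VV (D : ℤ × ℤ → ℝ) : ℝ := Real.pi ^ 2 * (D (0, 0) - D (1, 0))

theorem Ker.v1 (h : Ker D) : ∫ z in Qs, (1 - Real.cos z.1) * S2 D z.1 z.2 = VV D := by
  have := h.four_n 1
  simp only [Int.cast_one, one_mul] at this
  exact this

theorem Ker.v2 (h : Ker D) : ∫ z in Qs, (1 - Real.cos z.2) * S2 D z.1 z.2 = VV D := by
  have h0 := h.fourier 0 0
  have h1 := h.fourier 0 1
  simp only [Int.cast_zero, Int.cast_one, zero_mul, Real.cos_zero, mul_one, one_mul] at h0 h1
  have : ∀ z : ℝ × ℝ, (1 - Real.cos z.2) * S2 D z.1 z.2 =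
      S2 D z.1 z.2 - Real.cos z.2 * S2 D z.1 z.2 := fun z => by ring
  simp_rw [this]
  rw [integral_sub, h0, h1, VV]
  · have := h.s2 (1, 0)
    simp only at this
    rw [this]
    ring
  · exact cont_int h.S2_cont Qs_compact
  · exact cont_int ((by fun_prop : Continuous fun z : ℝ × ℝ => Real.cos z.2).mul h.S2_cont)
      Qs_compact

theorem Ker.VV_nonneg (h : Ker D) : 0 ≤ VV D := by
  rw [← h.v1]
  exact setIntegral_nonneg Qs_meas fun z hz => h.f_nonneg hz

/-- the small rectangle -/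
def Bs : Set (ℝ × ℝ) := Icc (3 * Real.pi / 4) Real.pi ×ˢ Icc (5 * Real.pi / 12) (7 * Real.pi / 12)

/-- the infrared bound -/
theorem Ker.point (h : Ker D) {k l : ℝ} (hk : 0 ≤ k) (hk' : k ≤ Real.pi / 6) (hl : 0 ≤ l)
    (hl' : l ≤ Real.pi / 6) (hkl : 0 < k + l) : S2 D k l ≤ 384 * VV D / (k + l) ^ 2 := by
  have hpi := Real.pi_pos
  set p := (k + l) / 2 with hp
  set q := (k - l) / 2 with hq
  have hkpq : k = p + q := by rw [hp, hq]; ring
  have hlpq : l = p - q := by rw [hp, hq]; ring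
  have hp0 : 0 < p := by rw [hp]; linarith
  have hp6 : p ≤ Real.pi / 6 := by rw [hp]; linarith
  have hq1 : q ≤ Real.pi / 12 := by rw [hq]; linarith
  have hq2 : -(Real.pi / 12) ≤ q := by rw [hq]; linarith
  have hcos4 : Real.cos (Real.pi / 4) ≤ 3 / 4 := by
    rw [Real.cos_pi_div_four]
    have : Real.sqrt 2 ≤ 3 / 2 := by
      rw [Real.sqrt_le_left (by norm_num)]; norm_num
    linarith
  have hpt : ∀ z ∈ Bs, (1 - Real.cos p) * S2 D k l ≤ 8 * ((1 - Real.cos z.1) * S2 D z.1 z.2) := by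
    rintro ⟨κ, τ⟩ ⟨⟨h1, h2⟩, h3, h4⟩
    simp only at h1 h2 h3 h4 ⊢
    have m1 := h.mono_di q (a := p) (b := τ + q) ⟨hp0.le, by linarith⟩
      ⟨by linarith, by linarith⟩ (by linarith)
    simp only at m1
    rw [← hkpq, ← hlpq, show τ + q - q = τ by ring, show τ + q + q = τ + 2 * q by ring] at m1
    have m2 := h.mono_ax τ (a := τ + 2 * q) (b := κ) ⟨by linarith, by linarith⟩
      ⟨by linarith, by linarith⟩ (by linarith)
    simp only at m2
    have s0 := h.S2_nonneg τ (k := τ + 2 * q) (by linarith) (by linarith)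
    have c1 : Real.cos (τ + 2 * q) ≤ 3 / 4 := by
      refine le_trans ?_ hcos4
      exact Real.cos_le_cos_of_nonneg_of_le_pi (by linarith) (by linarith) (by linarith)
    have c2 := Real.neg_one_le_cos (τ + q)
    nlinarith
  have hBQ : Bs ⊆ Qs := by
    refine Set.prod_mono (Icc_subset_Icc (by linarith) le_rfl)
      (Icc_subset_Icc (by linarith) (by linarith))
  have hBc : IsCompact Bs := isCompact_Icc.prod isCompact_Icc
  have hBm : MeasurableSet Bs := measurableSet_Icc.prod measurableSet_Icc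
  have hvol : volume.real Bs = Real.pi ^ 2 / 24 := by
    unfold Bs
    rw [Measure.volume_eq_prod, measureReal_prod_prod, Real.volume_real_Icc_of_le (by linarith),
      Real.volume_real_Icc_of_le (by linarith)]
    ring
  have i1 : ∫ z in Bs, (1 - Real.cos p) * S2 D k l ≤
      ∫ z in Bs, 8 * ((1 - Real.cos z.1) * S2 D z.1 z.2) :=
    setIntegral_mono_on (cont_int continuous_const hBc)
      (cont_int (continuous_const.mul h.cont_f1) hBc) hBm hpt
  have i2 : ∫ z in Bs, (1 - Real.cos z.1) * S2 D z.1 z.2 ≤ VV D := by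
    rw [← h.v1]
    refine setIntegral_mono_set (cont_int h.cont_f1 Qs_compact) ?_ hBQ.eventuallyLE
    exact (ae_restrict_iff' Qs_meas).2 (Eventually.of_forall fun z hz => h.f_nonneg hz)
  rw [setIntegral_const, hvol, integral_const_mul, smul_eq_mul] at i1
  have hc : 2 / Real.pi ^ 2 * p ^ 2 ≤ 1 - Real.cos p := by
    have := Real.cos_le_one_sub_mul_cos_sq (x := p) (by
      rw [abs_of_pos hp0]; linarith)
    linarith
  have hS : 0 ≤ S2 D k l := by
    rcases hk.eq_or_lt with h0 | h0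
    · rw [h.S2_swap]
      exact h.S2_nonneg k (by linarith) (by linarith)
    · exact h.S2_nonneg l h0 (by linarith)
  rw [le_div_iff₀ (by positivity)]
  have e1 : 2 / Real.pi ^ 2 * p ^ 2 * S2 D k l ≤ (1 - Real.cos p) * S2 D k l :=
    mul_le_mul_of_nonneg_right hc hS
  have e2 : Real.pi ^ 2 / 24 * (2 / Real.pi ^ 2 * p ^ 2 * S2 D k l) ≤ 8 * VV D := by
    refine le_trans (mul_le_mul_of_nonneg_left e1 (by positivity)) (i1.trans ?_)
    linarith
  have e3 : Real.pi ^ 2 / 24 * (2 / Real.pi ^ 2 * p ^ 2 * S2 D k l) = p ^ 2 * S2 D k l / 12 := by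
    field_simp
    ring
  rw [e3] at e2
  have e4 : p ^ 2 = (k + l) ^ 2 / 4 := by rw [hp]; ring
  rw [e4] at e2
  nlinarith

/-- the corner -/
def Rs : Set (ℝ × ℝ) := Icc (0 : ℝ) (Real.pi / 6) ×ˢ Icc (0 : ℝ) (Real.pi / 6)

theorem rect {F : ℝ × ℝ → ℝ} (hF : Continuous F) {a b c d : ℝ} (hab : a ≤ b) (hcd : c ≤ d) :
    ∫ z in Icc a b ×ˢ Icc c d, F z = ∫ k in a..b, ∫ l in c..d, F (k, l) := by
  rw [Measure.volume_eq_prod, setIntegral_prod]
  · rw [intervalIntegral.integral_of_le hab, integral_Icc_eq_integral_Ioc]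
    refine setIntegral_congr_fun measurableSet_Ioc fun k _ => ?_
    rw [intervalIntegral.integral_of_le hcd, integral_Icc_eq_integral_Ioc]
  · rw [← Measure.volume_eq_prod]
    exact cont_int hF (isCompact_Icc.prod isCompact_Icc)

theorem inv_sq_int {k b : ℝ} (hk : 0 < k) (hb : 0 ≤ b) :
    ∫ l in (0 : ℝ)..b, 1 / (k + l) ^ 2 ≤ 1 / k := by
  have hd : ∀ l ∈ uIcc 0 b, HasDerivAt (fun l : ℝ => -(k + l)⁻¹) (1 / (k + l) ^ 2) l := by
    intro l hl
    rw [uIcc_of_le hb] at hl
    have hkl : k + l ≠ 0 := by linarith [hl.1]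
    have h1 : HasDerivAt (fun l : ℝ => k + l) 1 l := (hasDerivAt_id l).const_add k
    have h2 := (h1.inv hkl).neg
    refine h2.congr_deriv ?_
    ring
  rw [intervalIntegral.integral_eq_sub_of_hasDerivAt hd]
  · have : 0 < (k + b)⁻¹ := by positivity
    rw [add_zero, one_div]
    linarith
  · refine ContinuousOn.intervalIntegrable ?_
    rw [uIcc_of_le hb]
    refine continuousOn_const.div (by fun_prop) ?_
    intro l hl
    have := hl.1
    positivity

theorem Ker.cont_l (h : Ker D) (k : ℝ) : Continuous (S2 D k) := by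
  refine Continuous.congr (f := (fun z : ℝ × ℝ => S2 D z.1 z.2) ∘ (fun l : ℝ => (k, l)))
    (h.S2_cont.comp (Continuous.prodMk_right k)) fun l => rfl

theorem inv_sq_cont (c : ℝ) {k b : ℝ} (hk : 0 < k) (hb : 0 ≤ b) :
    IntervalIntegrable (fun l : ℝ => c * (1 / (k + l) ^ 2)) volume 0 b := by
  refine ContinuousOn.intervalIntegrable ?_
  rw [uIcc_of_le hb]
  refine continuousOn_const.mul (continuousOn_const.div (by fun_prop) ?_)
  intro l hl
  have := hl.1
  positivity

theorem Ker.inner_le (h : Ker D) {k : ℝ} (hk : 0 < k) (hk' : k ≤ Real.pi / 6) :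
    ∫ l in (0 : ℝ)..Real.pi / 6, S2 D k l ≤ 384 * VV D * (1 / k) := by
  have hV := h.VV_nonneg
  have hpi := Real.pi_pos
  have hb6 : (0 : ℝ) ≤ Real.pi / 6 := by positivity
  have e2 : ∫ l in (0 : ℝ)..Real.pi / 6, S2 D k l ≤
      ∫ l in (0 : ℝ)..Real.pi / 6, 384 * VV D * (1 / (k + l) ^ 2) := by
    refine intervalIntegral.integral_mono_on hb6 ((h.cont_l k).intervalIntegrable _ _)
      (inv_sq_cont _ hk hb6) ?_
    intro l hl
    have h3 := h.point hk.le hk' hl.1 hl.2 (by linarith [hl.1])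
    calc S2 D k l ≤ 384 * VV D / (k + l) ^ 2 := h3
      _ = 384 * VV D * (1 / (k + l) ^ 2) := by ring
  rw [intervalIntegral.integral_const_mul] at e2
  exact e2.trans (mul_le_mul_of_nonneg_left (inv_sq_int hk hb6) (by positivity))

/-- the inner integral -/
noncomputable def Gs (D : ℤ × ℤ → ℝ) (n : ℕ) (k : ℝ) : ℝ :=
  ∫ l in (0 : ℝ)..Real.pi / 6, (1 - Real.cos ((n : ℤ) * k)) * S2 D k l

theorem Ker.Gs_cont (h : Ker D) (n : ℕ) : Continuous (Gs D n) := by
  have h1 : Continuous (Function.uncurry fun k l : ℝ =>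
      (1 - Real.cos ((n : ℤ) * k)) * S2 D k l) := h.cont_f n
  exact intervalIntegral.continuous_parametric_intervalIntegral_of_continuous' h1 0 (Real.pi / 6)

theorem Ker.Gs_le (h : Ker D) (n : ℕ) {k : ℝ} (hk : 0 < k) (hk' : k ≤ Real.pi / 6) :
    Gs D n k ≤ (1 - Real.cos (n * k)) * (384 * VV D * (1 / k)) := by
  have hc0 : 0 ≤ 1 - Real.cos (n * k) := by linarith [Real.cos_le_one (n * k)]
  unfold Gs
  rw [intervalIntegral.integral_const_mul, Int.cast_natCast]
  exact mul_le_mul_of_nonneg_left (h.inner_le hk hk') hc0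

theorem Ker.corner (h : Ker D) {n : ℕ} (hn : 2 ≤ n) :
    ∫ z in Rs, (1 - Real.cos ((n : ℤ) * z.1)) * S2 D z.1 z.2 ≤
      384 * VV D * (1 / 4 + 2 * Real.log n) := by
  have hpi := Real.pi_pos
  have hV := h.VV_nonneg
  have hn0 : (0 : ℝ) < n := by
    have : 0 < n := by omega
    exact_mod_cast this
  have hn2 : (2 : ℝ) ≤ n := by exact_mod_cast hn
  have hpi3 : 3 < Real.pi := Real.pi_gt_three
  have hpi4 : Real.pi ≤ 4 := Real.pi_le_four
  have hb6 : (0 : ℝ) ≤ Real.pi / 6 := by positivity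
  unfold Rs
  rw [rect (h.cont_f n) hb6 hb6]
  have hGc : Continuous (Gs D n) := h.Gs_cont n
  have hGb : ∀ k, 0 < k → k ≤ Real.pi / 6 →
      Gs D n k ≤ (1 - Real.cos (n * k)) * (384 * VV D * (1 / k)) := fun k hk hk' => h.Gs_le n hk hk'
  change ∫ k in (0 : ℝ)..Real.pi / 6, Gs D n k ≤ _
  have hinv : (0 : ℝ) < 1 / n := by positivity
  have hinv6 : 1 / (n : ℝ) ≤ Real.pi / 6 := by
    rw [div_le_iff₀ hn0]
    nlinarith
  have hsplit : ∫ k in (0 : ℝ)..Real.pi / 6, Gs D n k =
      (∫ k in (0 : ℝ)..1 / n, Gs D n k) + ∫ k in (1 / (n : ℝ))..Real.pi / 6, Gs D n k :=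
    (intervalIntegral.integral_add_adjacent_intervals (hGc.intervalIntegrable _ _)
      (hGc.intervalIntegrable _ _)).symm
  have p1 : ∫ k in (0 : ℝ)..1 / n, Gs D n k ≤ 384 * VV D * (1 / 4) := by
    have : ∫ k in (0 : ℝ)..1 / n, Gs D n k ≤ ∫ k in (0 : ℝ)..1 / n, 384 * VV D * ((n : ℝ) ^ 2 / 2) * k := by
      refine intervalIntegral.integral_mono_on_of_le_Ioo hinv.le (hGc.intervalIntegrable _ _) ?_ ?_
      · exact (by fun_prop : Continuous fun k : ℝ =>
          384 * VV D * ((n : ℝ) ^ 2 / 2) * k).intervalIntegrable _ _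
      · intro k hk
        refine (hGb k hk.1 (hk.2.le.trans hinv6)).trans ?_
        have hc : 1 - Real.cos (n * k) ≤ (n * k) ^ 2 / 2 := by
          linarith [Real.one_sub_sq_div_two_le_cos (x := (n : ℝ) * k)]
        have h3 : 0 ≤ 384 * VV D * (1 / k) := by
          have := hk.1
          positivity
        refine (mul_le_mul_of_nonneg_right hc h3).trans_eq ?_
        have := hk.1.ne'
        field_simp
    refine this.trans_eq ?_
    rw [intervalIntegral.integral_const_mul, integral_id]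
    field_simp
    ring
  have p2 : ∫ k in (1 / (n : ℝ))..Real.pi / 6, Gs D n k ≤ 384 * VV D * (2 * Real.log n) := by
    have : ∫ k in (1 / (n : ℝ))..Real.pi / 6, Gs D n k ≤
        ∫ k in (1 / (n : ℝ))..Real.pi / 6, 384 * VV D * 2 * (1 / k) := by
      refine intervalIntegral.integral_mono_on hinv6 (hGc.intervalIntegrable _ _) ?_ ?_
      · refine ContinuousOn.intervalIntegrable ?_
        rw [uIcc_of_le hinv6]
        refine continuousOn_const.mul (continuousOn_const.div (by fun_prop) ?_)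
        intro l hl
        have : 0 < l := lt_of_lt_of_le hinv hl.1
        positivity
      · intro k hk
        have hk0 : 0 < k := lt_of_lt_of_le hinv hk.1
        refine (hGb k hk0 hk.2).trans ?_
        have hc : 1 - Real.cos (n * k) ≤ 2 := by linarith [Real.neg_one_le_cos (n * k)]
        have h3 : 0 ≤ 384 * VV D * (1 / k) := by positivity
        refine (mul_le_mul_of_nonneg_right hc h3).trans_eq ?_
        ring
    refine this.trans ?_
    rw [intervalIntegral.integral_const_mul, integral_one_div_of_pos hinv (by positivity)]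
    have hlog : Real.log (Real.pi / 6 / (1 / n)) ≤ Real.log n := by
      refine Real.log_le_log (by positivity) ?_
      rw [div_div_eq_mul_div, div_one]
      nlinarith
    have : 0 ≤ 384 * VV D * 2 := by positivity
    nlinarith
  rw [hsplit]
  linarith

theorem Ker.axis_n (h : Ker D) {n : ℕ} (hn : 2 ≤ n) :
    D (0, 0) - D (n, 0) ≤ (128 + 768 * Real.log n) * (D (0, 0) - D (1, 0)) := by
  have hpi := Real.pi_pos
  have hpi3 : 3 < Real.pi := Real.pi_gt_three
  have hb6 : (0 : ℝ) ≤ Real.pi / 6 := by positivity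
  have hRm : MeasurableSet Rs := measurableSet_Icc.prod measurableSet_Icc
  have hRQ : Rs ⊆ Qs := Set.prod_mono (Icc_subset_Icc le_rfl (by linarith))
      (Icc_subset_Icc le_rfl (by linarith))
  have hf := h.four_n n
  have hsplit : ∫ z in Qs, (1 - Real.cos ((n : ℤ) * z.1)) * S2 D z.1 z.2 =
      (∫ z in Rs, (1 - Real.cos ((n : ℤ) * z.1)) * S2 D z.1 z.2) +
      ∫ z in Qs \ Rs, (1 - Real.cos ((n : ℤ) * z.1)) * S2 D z.1 z.2 := by
    have h1 := setIntegral_union (μ := volume) (f := fun z : ℝ × ℝ =>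
      (1 - Real.cos ((n : ℤ) * z.1)) * S2 D z.1 z.2) (disjoint_sdiff_right (s := Rs) (t := Qs))
      (Qs_meas.diff hRm) ((cont_int (h.cont_f n) Qs_compact).mono_set hRQ)
      ((cont_int (h.cont_f n) Qs_compact).mono_set sdiff_subset)
    rw [union_sdiff_cancel hRQ] at h1
    exact h1
  have hcos6 : Real.cos (Real.pi / 6) ≤ 7 / 8 := by
    rw [Real.cos_pi_div_six]
    have : Real.sqrt 3 ≤ 7 / 4 := by
      rw [Real.sqrt_le_left (by norm_num)]; norm_num
    linarith
  have hout : ∫ z in Qs \ Rs, (1 - Real.cos ((n : ℤ) * z.1)) * S2 D z.1 z.2 ≤ 32 * VV D := by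
    have hcont : Continuous fun z : ℝ × ℝ => 16 * ((1 - Real.cos z.1) * S2 D z.1 z.2) +
        16 * ((1 - Real.cos z.2) * S2 D z.1 z.2) :=
      (continuous_const.mul h.cont_f1).add (continuous_const.mul h.cont_f2)
    have hnn : ∀ z ∈ Qs, 0 ≤ 16 * ((1 - Real.cos z.1) * S2 D z.1 z.2) +
        16 * ((1 - Real.cos z.2) * S2 D z.1 z.2) := by
      intro z hz
      have a1 := h.f_nonneg hz
      have a2 := h.f_nonneg (z := (z.2, z.1)) ⟨hz.2, hz.1⟩
      simp only at a2
      rw [h.S2_swap z.2 z.1] at a2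
      linarith
    have i1 : ∫ z in Qs \ Rs, (1 - Real.cos ((n : ℤ) * z.1)) * S2 D z.1 z.2 ≤
        ∫ z in Qs \ Rs, (16 * ((1 - Real.cos z.1) * S2 D z.1 z.2) +
          16 * ((1 - Real.cos z.2) * S2 D z.1 z.2)) := by
      refine setIntegral_mono_on ((cont_int (h.cont_f n) Qs_compact).mono_set sdiff_subset)
        ((cont_int hcont Qs_compact).mono_set sdiff_subset) (Qs_meas.diff hRm) ?_
      rintro ⟨k, l⟩ ⟨⟨hk, hl⟩, hR⟩
      simp only at hk hl ⊢
      have hc2 : 1 - Real.cos ((n : ℤ) * k) ≤ 2 := by linarith [Real.neg_one_le_cos ((n : ℤ) * k)]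
      have hk1 : 0 ≤ 1 - Real.cos k := by linarith [Real.cos_le_one k]
      have hl1 : 0 ≤ 1 - Real.cos l := by linarith [Real.cos_le_one l]
      by_cases hk6 : k ≤ Real.pi / 6
      · have hl6 : Real.pi / 6 < l := by
          by_contra hcon
          exact hR ⟨⟨hk.1, hk6⟩, hl.1, not_lt.1 hcon⟩
        have s0 : 0 ≤ S2 D k l := by
          rw [h.S2_swap]
          exact h.S2_nonneg k (by linarith) hl.2
        have c1 : Real.cos l ≤ 7 / 8 :=
          (Real.cos_le_cos_of_nonneg_of_le_pi hb6 hl.2 hl6.le).trans hcos6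
        have b1 : (1 - Real.cos ((n : ℤ) * k)) * S2 D k l ≤ 2 * S2 D k l :=
          mul_le_mul_of_nonneg_right hc2 s0
        have b2 : 1 / 8 * S2 D k l ≤ (1 - Real.cos l) * S2 D k l :=
          mul_le_mul_of_nonneg_right (by linarith) s0
        have b3 : 0 ≤ (1 - Real.cos k) * S2 D k l := mul_nonneg hk1 s0
        linarith
      · push Not at hk6
        have s0 : 0 ≤ S2 D k l := h.S2_nonneg l (by linarith) hk.2
        have c1 : Real.cos k ≤ 7 / 8 :=
          (Real.cos_le_cos_of_nonneg_of_le_pi hb6 hk.2 hk6.le).trans hcos6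
        have b1 : (1 - Real.cos ((n : ℤ) * k)) * S2 D k l ≤ 2 * S2 D k l :=
          mul_le_mul_of_nonneg_right hc2 s0
        have b2 : 1 / 8 * S2 D k l ≤ (1 - Real.cos k) * S2 D k l :=
          mul_le_mul_of_nonneg_right (by linarith) s0
        have b3 : 0 ≤ (1 - Real.cos l) * S2 D k l := mul_nonneg hl1 s0
        linarith
    refine i1.trans ?_
    have i2 : ∫ z in Qs \ Rs, (16 * ((1 - Real.cos z.1) * S2 D z.1 z.2) +
          16 * ((1 - Real.cos z.2) * S2 D z.1 z.2)) ≤
        ∫ z in Qs, (16 * ((1 - Real.cos z.1) * S2 D z.1 z.2) +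
          16 * ((1 - Real.cos z.2) * S2 D z.1 z.2)) := by
      refine setIntegral_mono_set (cont_int hcont Qs_compact) ?_
        (LE.le.eventuallyLE sdiff_subset)
      exact (ae_restrict_iff' Qs_meas).2 (Eventually.of_forall hnn)
    refine i2.trans_eq ?_
    rw [integral_add, integral_const_mul, integral_const_mul, h.v1, h.v2]
    · ring
    · exact cont_int (continuous_const.mul h.cont_f1) Qs_compact
    · exact cont_int (continuous_const.mul h.cont_f2) Qs_compact
  have hc := h.corner hn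
  rw [hsplit] at hf
  have htot : Real.pi ^ 2 * (D (0, 0) - D ((n : ℤ), 0)) ≤
      Real.pi ^ 2 * ((128 + 768 * Real.log n) * (D (0, 0) - D (1, 0))) := by
    rw [← hf]
    refine (add_le_add hc hout).trans_eq ?_
    unfold VV
    ring
  exact le_of_mul_le_mul_left htot (by positivity)

end Pool.Agent.HM
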