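import Pool.Agent.Lib_helper69.HM.Defs

set_option autoImplicit false

open MeasureTheory Finset
open scoped ENNReal

namespace Pool.Agent.HM

/-- symmetric probability measures on the line with log-concave tails (along midpoints) -/
structure SymLC (ν : Measure ℝ) : Prop where
  prob : IsProbabilityMeasure ν
  symm : ∀ t : ℝ, ν (Set.Ici t) = ν (Set.Iic (-t))
  lc : ∀ s t : ℝ, ν (Set.Ici s) * ν (Set.Ici t) ≤ ν (Set.Ici ((s + t) / 2)) ^ 2

theorem SymLC.half {ν : Measure ℝ} (h : SymLC ν) : 1 ≤ 2 * ν (Set.Ici 0) := by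
  have := h.prob
  have h1 : (Set.univ : Set ℝ) = Set.Ici 0 ∪ Set.Iic 0 := by
    rw [Set.union_comm, Set.Iic_union_Ici]
  have h2 : ν Set.univ ≤ ν (Set.Ici 0) + ν (Set.Iic 0) := by rw [h1]; exact measure_union_le _ _
  have h3 := h.symm 0
  rw [neg_zero] at h3
  rw [measure_univ, ← h3, ← two_mul] at h2
  exact h2

theorem SymLC.ratio {ν : Measure ℝ} (h : SymLC ν) {d : ℝ} (hd : 0 < d) {r : ℝ≥0∞}
    (hr : ν (Set.Ici d) ≤ r * ν (Set.Ici 0)) (k : ℕ) :
    ν (Set.Ici ((k + 1 : ℕ) * d)) ≤ r * ν (Set.Ici (k * d)) := by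
  have := h.prob
  induction k with
  | zero => simpa using hr
  | succ k ih =>
    have hanti : ν (Set.Ici ((k + 1 + 1 : ℕ) * d)) ≤ ν (Set.Ici ((k + 1 : ℕ) * d)) := by
      refine measure_mono (Set.Ici_subset_Ici.2 ?_)
      push_cast
      linarith
    by_cases h0 : ν (Set.Ici (k * d)) = 0
    · rw [h0, mul_zero] at ih
      rw [nonpos_iff_eq_zero.1 ih] at hanti
      exact hanti.trans bot_le
    · have hlc := h.lc ((k + 1 + 1 : ℕ) * d) (k * d)
      have e : (((k + 1 + 1 : ℕ) : ℝ) * d + k * d) / 2 = ((k + 1 : ℕ) : ℝ) * d := by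
        push_cast; ring
      rw [e] at hlc
      have h1 : ν (Set.Ici (((k + 1 + 1 : ℕ) : ℝ) * d)) * ν (Set.Ici (k * d)) ≤
          (r * ν (Set.Ici (((k + 1 : ℕ) : ℝ) * d))) * ν (Set.Ici (k * d)) := by
        calc ν (Set.Ici (((k + 1 + 1 : ℕ) : ℝ) * d)) * ν (Set.Ici (k * d))
            ≤ ν (Set.Ici (((k + 1 : ℕ) : ℝ) * d)) ^ 2 := hlc
          _ = ν (Set.Ici (((k + 1 : ℕ) : ℝ) * d)) * ν (Set.Ici (((k + 1 : ℕ) : ℝ) * d)) := sq _
          _ ≤ ν (Set.Ici (((k + 1 : ℕ) : ℝ) * d)) * (r * ν (Set.Ici (k * d))) := by gcongr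
          _ = _ := by ring
      exact (ENNReal.mul_le_mul_iff_left h0 (measure_ne_top ν _)).1 h1

theorem SymLC.geom {ν : Measure ℝ} (h : SymLC ν) {d : ℝ} (hd : 0 < d) {r : ℝ≥0∞}
    (hr : ν (Set.Ici d) ≤ r * ν (Set.Ici 0)) (k : ℕ) : ν (Set.Ici (k * d)) ≤ r ^ k := by
  have := h.prob
  induction k with
  | zero => simpa using prob_le_one
  | succ k ih =>
    refine (h.ratio hd hr k).trans ?_
    rw [pow_succ, mul_comm (r ^ k)]
    gcongr

/-- exponential tail at the scale of the standard deviation -/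
theorem SymLC.tail {ν : Measure ℝ} (h : SymLC ν) {σ : ℝ} (hσ : 0 < σ)
    (h2 : ∫⁻ x, ENNReal.ofReal (x ^ 2) ∂ν ≤ ENNReal.ofReal (σ ^ 2)) (k : ℕ) :
    ν (Set.Ici (2 * k * σ)) ≤ (1 / 4) ^ k := by
  have := h.prob
  have hdis : Disjoint (Set.Ici (2 * σ)) (Set.Iic (-(2 * σ))) := by
    rw [Set.disjoint_left]
    intro x h1 h2
    have h1' : 2 * σ ≤ x := h1
    have h2' : x ≤ -(2 * σ) := h2
    linarith
  have h3 : ENNReal.ofReal ((2 * σ) ^ 2) * ν (Set.Ici (2 * σ) ∪ Set.Iic (-(2 * σ))) ≤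
      ENNReal.ofReal (σ ^ 2) := by
    refine le_trans ?_ h2
    rw [← lintegral_indicator_const (measurableSet_Ici.union measurableSet_Iic)]
    refine lintegral_mono fun x => ?_
    by_cases hx : x ∈ Set.Ici (2 * σ) ∪ Set.Iic (-(2 * σ))
    · rw [Set.indicator_of_mem hx]
      refine ENNReal.ofReal_le_ofReal ?_
      rcases hx with hx | hx
      · have hx' : 2 * σ ≤ x := hx
        nlinarith
      · have hx' : x ≤ -(2 * σ) := hx
        nlinarith
    · rw [Set.indicator_of_notMem hx]; exact bot_le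
  rw [measure_union hdis measurableSet_Iic, ← h.symm, ← two_mul] at h3
  have h4 : (8 : ℝ≥0∞) * ν (Set.Ici (2 * σ)) ≤ 1 := by
    have e : ENNReal.ofReal ((2 * σ) ^ 2) = 4 * ENNReal.ofReal (σ ^ 2) := by
      rw [mul_pow, ENNReal.ofReal_mul (by norm_num)]
      norm_num
    rw [e] at h3
    have hs : ENNReal.ofReal (σ ^ 2) ≠ 0 := by
      simp only [ne_eq, ENNReal.ofReal_eq_zero, not_le]; positivity
    have h5 : (8 * ν (Set.Ici (2 * σ))) * ENNReal.ofReal (σ ^ 2) ≤ 1 * ENNReal.ofReal (σ ^ 2) := by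
      rw [one_mul]
      refine le_trans (le_of_eq ?_) h3
      ring
    exact (ENNReal.mul_le_mul_iff_left hs ENNReal.ofReal_ne_top).1 h5
  have h6 : ν (Set.Ici (2 * σ)) ≤ (1 / 4) * ν (Set.Ici 0) := by
    have h7 : (8 : ℝ≥0∞) * ν (Set.Ici (2 * σ)) ≤ 8 * ((1 / 4) * ν (Set.Ici 0)) := by
      refine h4.trans (h.half.trans (le_of_eq ?_))
      rw [← mul_assoc]
      congr 1
      rw [show (8 : ℝ≥0∞) = 2 * 4 by norm_num, mul_assoc, one_div,
        ENNReal.mul_inv_cancel (by norm_num) (by norm_num), mul_one]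
    exact (ENNReal.mul_le_mul_iff_right (by norm_num) (by norm_num)).1 h7
  have := h.geom (d := 2 * σ) (by linarith) h6 k
  have e : (k : ℝ) * (2 * σ) = 2 * k * σ := by ring
  rwa [e] at this

/-- a bound of one tail probability bounds all of them -/
theorem SymLC.tail_of {ν : Measure ℝ} (h : SymLC ν) {a : ℝ} (ha : 0 < a)
    (h5 : ν (Set.Ici a) ≤ 1 / 5) (k : ℕ) :
    ν (Set.Ici (k * a)) ≤ (2 / 5) ^ k := by
  refine h.geom ha ?_ k
  refine h5.trans ?_
  calc (1 / 5 : ℝ≥0∞) = (1 / 5) * 1 := (mul_one _).symm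
    _ ≤ (1 / 5) * (2 * ν (Set.Ici 0)) := by gcongr; exact h.half
    _ = 2 / 5 * ν (Set.Ici 0) := by
        rw [← mul_assoc]
        congr 1
        rw [ENNReal.div_eq_inv_mul, ENNReal.div_eq_inv_mul, mul_one]

/-- a bound of one tail probability bounds the second moment -/
theorem SymLC.second {ν : Measure ℝ} (h : SymLC ν) {a : ℝ} (ha : 0 < a)
    (h5 : ν (Set.Ici a) ≤ 1 / 5) :
    ∫⁻ x, ENNReal.ofReal (x ^ 2) ∂ν ≤ ENNReal.ofReal (100 * a ^ 2) := by
  have := h.prob
  set S : ℕ → Set ℝ := fun k => Set.Ici (k * a) ∪ Set.Iic (-(k * a)) with hS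
  have hSm : ∀ k, MeasurableSet (S k) := fun k => measurableSet_Ici.union measurableSet_Iic
  have hpt : ∀ x : ℝ, ENNReal.ofReal (x ^ 2) ≤
      ∑' k : ℕ, (S k).indicator (fun _ => ENNReal.ofReal (a ^ 2 * (2 * k + 1))) x := by
    intro x
    set m := ⌊|x| / a⌋₊ with hm
    refine le_trans ?_ (ENNReal.sum_le_tsum (range (m + 1)))
    have h1 : ∀ k ∈ range (m + 1), (S k).indicator (fun _ => ENNReal.ofReal (a ^ 2 * (2 * k + 1))) x =
        ENNReal.ofReal (a ^ 2 * (2 * k + 1)) := by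
      intro k hk
      refine Set.indicator_of_mem ?_ _
      have hk' : k ≤ m := by rw [mem_range] at hk; omega
      have h2 : (k : ℝ) ≤ |x| / a :=
        (Nat.cast_le.2 hk').trans (Nat.floor_le (by positivity))
      have h3 : (k : ℝ) * a ≤ |x| := (le_div_iff₀ ha).1 h2
      rcases le_abs.1 h3 with h4 | h4
      · exact Or.inl h4
      · exact Or.inr (show x ≤ -(k * a) by linarith)
    rw [sum_congr rfl h1, ← ENNReal.ofReal_sum_of_nonneg (fun k _ => by positivity)]
    refine ENNReal.ofReal_le_ofReal ?_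
    have h2 : ∑ k ∈ range (m + 1), a ^ 2 * (2 * (k : ℝ) + 1) = a ^ 2 * ((m : ℝ) + 1) ^ 2 := by
      rw [← mul_sum]
      congr 1
      clear h1
      clear_value m
      clear hm
      induction m with
      | zero => simp
      | succ m ih => rw [sum_range_succ, ih]; push_cast; ring
    rw [h2]
    have h3 : |x| / a < m + 1 := Nat.lt_floor_add_one _
    have h4 : |x| < (m + 1) * a := (div_lt_iff₀ ha).1 h3
    have h5 : |x| ^ 2 ≤ ((m + 1) * a) ^ 2 := by
      have := abs_nonneg x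
      nlinarith
    rw [sq_abs] at h5
    linarith [h5, mul_pow ((m : ℝ) + 1) a 2]
  have hνS : ∀ k, ν (S k) ≤ 2 * (2 / 5) ^ k := by
    intro k
    refine (measure_union_le _ _).trans ?_
    rw [← h.symm, ← two_mul]
    gcongr
    exact h.tail_of ha h5 k
  calc ∫⁻ x, ENNReal.ofReal (x ^ 2) ∂ν
      ≤ ∫⁻ x, ∑' k : ℕ, (S k).indicator (fun _ => ENNReal.ofReal (a ^ 2 * (2 * k + 1))) x ∂ν :=
        lintegral_mono hpt
    _ = ∑' k : ℕ, ENNReal.ofReal (a ^ 2 * (2 * k + 1)) * ν (S k) := by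
        rw [lintegral_tsum fun k => (measurable_const.indicator (hSm k)).aemeasurable]
        refine tsum_congr fun k => ?_
        rw [lintegral_indicator_const (hSm k)]
    _ ≤ ∑' k : ℕ, ENNReal.ofReal (6 * a ^ 2) * ENNReal.ofReal (3 / 5) ^ k := by
        refine ENNReal.tsum_le_tsum fun k => ?_
        have h6 : (2 : ℝ≥0∞) * (2 / 5) ^ k = ENNReal.ofReal (2 * (2 / 5) ^ k) := by
          rw [ENNReal.ofReal_mul (by norm_num), ENNReal.ofReal_pow (by norm_num),
            ENNReal.ofReal_div_of_pos (by norm_num)]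
          norm_num
        refine (mul_le_mul_right (hνS k) _).trans ?_
        rw [h6, ← ENNReal.ofReal_mul (by positivity), ← ENNReal.ofReal_pow (by norm_num),
          ← ENNReal.ofReal_mul (by positivity)]
        refine ENNReal.ofReal_le_ofReal ?_
        have h7 : (2 * (k : ℝ) + 1) ≤ 3 * (3 / 2) ^ k := by
          have h8 : ∀ k : ℕ, 2 * (k : ℝ) + 1 ≤ 3 * (3 / 2) ^ k := by
            intro k
            induction k with
            | zero => norm_num
            | succ k ih =>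
              rw [pow_succ]
              push_cast
              rcases k with _ | _ | k
              · norm_num
              · norm_num
              · push_cast at ih ⊢
                have := Nat.cast_nonneg (α := ℝ) k
                linarith
          exact h8 k
        have h9 : (3 / 5 : ℝ) ^ k = (3 / 2) ^ k * (2 / 5) ^ k := by
          rw [← mul_pow]; norm_num
        rw [h9]
        have h10 : (0 : ℝ) ≤ (2 / 5) ^ k := by positivity
        have h11 : 0 ≤ a ^ 2 * (2 / 5) ^ k := by positivity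
        nlinarith [mul_le_mul_of_nonneg_left h7 h11]
    _ = ENNReal.ofReal (6 * a ^ 2) * (1 - ENNReal.ofReal (3 / 5))⁻¹ := by
        rw [ENNReal.tsum_mul_left, ENNReal.tsum_geometric]
    _ ≤ ENNReal.ofReal (100 * a ^ 2) := by
        rw [← ENNReal.ofReal_one, ← ENNReal.ofReal_sub _ (by norm_num),
          ← ENNReal.ofReal_inv_of_pos (by norm_num), ← ENNReal.ofReal_mul (by positivity)]
        refine ENNReal.ofReal_le_ofReal ?_
        have : 0 ≤ a ^ 2 := by positivity
        nlinarith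

end Pool.Agent.HM
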