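import Pool.Agent.Lib_helper12.HM.G1
import Pool.Agent.Lib_helper12.HM.LC
import Pool.Agent.Lib_helper14.HM.Z4

set_option autoImplicit false

open MeasureTheory Finset
open scoped ENNReal

namespace Pool.Agent.HM

/-- linear functions of the field have symmetric log-concave laws -/
theorem gib_symLC {G : Type} [DecidableEq G] {w : (G → ℝ) → ℝ≥0∞} (hw : Nice w) (W : Finset G)
    (h0 : lm W w 0 ≠ 0) (h1 : lm W w 0 ≠ ∞) (x y : G) (b : ℝ) :
    SymLC ((gib w W 0).map (fun f : G → ℝ => f x - b * f y)) := by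
  have hp := gib_prob hw.meas W 0 h0 h1
  have hu : Measurable fun f : G → ℝ => f x - b * f y := by fun_prop
  refine ⟨Measure.isProbabilityMeasure_map hu.aemeasurable, fun t => ?_, fun s t => ?_⟩
  · rw [Measure.map_apply hu measurableSet_Ici, Measure.map_apply hu measurableSet_Iic]
    have h := gib_map_neg hw W 0
    rw [neg_zero] at h
    conv_lhs => rw [← h]
    rw [Measure.map_apply measurable_neg (hu measurableSet_Ici)]
    congr 1
    ext f
    simp only [Set.mem_preimage, Set.mem_Ici, Set.mem_Iic, Pi.neg_apply]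
    constructor <;> intro h <;> linarith
  · have key : ∀ t, ((gib w W 0).map (fun f : G → ℝ => f x - b * f y)) (Set.Ici t) =
        (lm W w 0)⁻¹ * lm W (({f : G → ℝ | t ≤ f x - b * f y}).indicator w) 0 := by
      intro t
      rw [Measure.map_apply hu measurableSet_Ici, gib_apply hw.meas W 0 (hu measurableSet_Ici)]
      rfl
    rw [key, key, key]
    have hm : ∀ t : ℝ, Measurable (({f : G → ℝ | t ≤ f x - b * f y}).indicator w) := fun t =>
      hw.meas.indicator (measurableSet_le measurable_const hu)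
    have hpl := pl_lm (hm s) (hm t) (hm ((s + t) / 2)) (lam := 1 / 2) (by norm_num) (by norm_num)
      (fun f g => by
        by_cases hf : s ≤ f x - b * f y
        · by_cases hg : t ≤ g x - b * g y
          · have hfg : (s + t) / 2 ≤ ((1 / 2 : ℝ) • f + (1 - 1 / 2 : ℝ) • g) x -
                b * ((1 / 2 : ℝ) • f + (1 - 1 / 2 : ℝ) • g) y := by
              simp only [Pi.add_apply, Pi.smul_apply, smul_eq_mul]
              linarith
            rw [Set.indicator_of_mem (show f ∈ {f : G → ℝ | s ≤ f x - b * f y} from hf),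
              Set.indicator_of_mem (show g ∈ {f : G → ℝ | t ≤ f x - b * f y} from hg),
              Set.indicator_of_mem (show _ ∈ {f : G → ℝ | (s + t) / 2 ≤ f x - b * f y} from hfg)]
            exact hw.lc _ (by norm_num) (by norm_num) f g
          · rw [Set.indicator_of_notMem (show g ∉ {f : G → ℝ | t ≤ f x - b * f y} from hg),
              ENNReal.zero_rpow_of_pos (by norm_num), mul_zero]
            exact bot_le
        · rw [Set.indicator_of_notMem (show f ∉ {f : G → ℝ | s ≤ f x - b * f y} from hf),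
            ENNReal.zero_rpow_of_pos (by norm_num), zero_mul]
          exact bot_le) W 0 0
    have e0 : (1 / 2 : ℝ) • (0 : G → ℝ) + (1 - 1 / 2 : ℝ) • (0 : G → ℝ) = 0 := by simp
    rw [e0] at hpl
    set A := lm W (({f : G → ℝ | s ≤ f x - b * f y}).indicator w) 0
    set B := lm W (({f : G → ℝ | t ≤ f x - b * f y}).indicator w) 0
    set D := lm W (({f : G → ℝ | (s + t) / 2 ≤ f x - b * f y}).indicator w) 0
    have hAB : A * B ≤ D ^ 2 := by
      have h2 : (A ^ (1 / 2 : ℝ) * B ^ (1 - 1 / 2 : ℝ)) ^ 2 ≤ D ^ 2 := by gcongr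
      have e1 : (1 - 1 / 2 : ℝ) = 1 / 2 := by norm_num
      rw [e1, mul_pow, ← ENNReal.rpow_natCast, ← ENNReal.rpow_natCast, ← ENNReal.rpow_mul,
        ← ENNReal.rpow_mul] at h2
      norm_num at h2
      exact h2
    calc (lm W w 0)⁻¹ * A * ((lm W w 0)⁻¹ * B) = (lm W w 0)⁻¹ ^ 2 * (A * B) := by ring
      _ ≤ (lm W w 0)⁻¹ ^ 2 * D ^ 2 := by gcongr
      _ = ((lm W w 0)⁻¹ * D) ^ 2 := by ring

end Pool.Agent.HM
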