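import Pool.Agent.Lib_helper69.HM.Defs
import Pool.Agent.Lib_helper14.HMT.Dual

/-!
The component of a point in a set without windings lifts to a finite set in `ℤ²` of bounded size.
-/

set_option autoImplicit false

open Finset Relation

namespace Pool.Agent.HM

/-- the distance of a connected pair inside a finite set of `ℤ²` is less than its cardinality -/
theorem dist_lt_card {S : ℤ × ℤ → ℤ × ℤ → Prop} (hS : ∀ a b, S a b → HMT.Adj a b)
    (Ω : Finset (ℤ × ℤ)) {x : ℤ × ℤ} (hx : x ∈ Ω) (hΩ : ∀ a, ReflTransGen S x a → a ∈ Ω)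
    (F : ℤ × ℤ → ℤ) (hF : ∀ a b, HMT.Adj a b → |F a - F b| ≤ 1) {y : ℤ × ℤ}
    (hy : ReflTransGen S x y) : |F y - F x| ≤ Ω.card := by
  have key : ∀ y, ReflTransGen S x y → ∀ c, min (F x) (F y) ≤ c → c ≤ max (F x) (F y) →
      ∃ p ∈ Ω, F p = c := by
    intro y hy
    induction hy with
    | refl =>
      intro c h1 h2
      exact ⟨x, hx, by simp at h1 h2; omega⟩
    | @tail b d hb hbd ih =>
      intro c h1 h2
      have h3 := abs_le.1 (hF _ _ (hS _ _ hbd))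
      by_cases hc : c = F d
      · exact ⟨d, hΩ d (hb.tail hbd), hc.symm⟩
      · refine ih c ?_ ?_ <;> omega
  have hsub : Finset.Icc (min (F x) (F y)) (max (F x) (F y)) ⊆ Ω.image F := by
    intro c hc
    rw [Finset.mem_Icc] at hc
    obtain ⟨p, hp, hpc⟩ := key y hy c hc.1 hc.2
    exact mem_image.2 ⟨p, hp, hpc⟩
  have h1 := (card_le_card hsub).trans card_image_le
  rw [Int.card_Icc] at h1
  rw [abs_le]
  constructor <;> omega

variable {M : ℕ} [NeZero M]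

/-- lift of the component of `z` in `Λ` -/
theorem lift_comp (Λ : Finset (ZMod M × ZMod M)) (hΛ : HMT.NoWind (Λ : Set (ZMod M × ZMod M)))
    {z : ZMod M × ZMod M} (hz : z ∈ Λ) :
    ∃ Ω : Finset (ℤ × ℤ), ∃ x ∈ Ω, HMT.pr M x = z ∧ Ω ⊆ box (2 * M ^ 2) ∧
      (∀ a ∈ Ω, HMT.pr M a ∈ Λ) ∧
      (∀ b ∈ Ω, ∀ a, HMT.Adj b a → HMT.pr M a ∈ Λ → a ∈ Ω) ∧
      ∀ a ∈ Ω, ∀ b ∈ Ω, HMT.pr M a = HMT.pr M b → a = b := by
  classical
  set S : Set (ℤ × ℤ) := {q | HMT.Conn (Λ : Set (ZMod M × ZMod M)) (HMT.lf z) q} with hSdef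
  have hmem : ∀ q ∈ S, HMT.pr M q ∈ Λ := fun q hq => by
    have := HMT.Conn.mem (S := (Λ : Set (ZMod M × ZMod M))) hq
      (by rw [HMT.pr_lf]; exact mem_coe.2 hz)
    exact mem_coe.1 this
  have hinj : Set.InjOn (HMT.pr M) S := by
    intro a ha b hb hab
    exact hΛ.uniq (mem_coe.2 (hmem a ha)) (HMT.Conn.trans (HMT.Conn.symm ha) hb) hab
  have hfin : S.Finite := Set.Finite.of_injOn (fun q hq => Set.mem_univ _) hinj Set.finite_univ
  set Ω := hfin.toFinset with hΩ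
  have hΩS : ∀ q, q ∈ Ω ↔ q ∈ S := fun q => by rw [hΩ, Set.Finite.mem_toFinset]
  have hx : HMT.lf z ∈ S := ReflTransGen.refl
  have hcard : Ω.card ≤ M ^ 2 := by
    have h1 : Ω.card = (Ω.image (HMT.pr M)).card := by
      rw [card_image_of_injOn]
      intro a ha b hb hab
      exact hinj ((hΩS a).1 (mem_coe.1 ha)) ((hΩS b).1 (mem_coe.1 hb)) hab
    rw [h1]
    refine (card_le_univ _).trans ?_
    rw [Fintype.card_prod, ZMod.card]
    exact le_of_eq (by ring)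
  have hd : ∀ F : ℤ × ℤ → ℤ, (∀ a b, HMT.Adj a b → |F a - F b| ≤ 1) → ∀ y ∈ Ω,
      |F y - F (HMT.lf z)| ≤ Ω.card := by
    intro F hF y hy
    refine dist_lt_card (S := HMT.Stp (Λ : Set (ZMod M × ZMod M))) (fun a b h => h.1) Ω
      ((hΩS _).2 hx) (fun a ha => (hΩS a).2 ha) F hF ((hΩS y).1 hy)
  have hd1 := hd Prod.fst (fun a b h => by
    rcases h with h | h | h | h <;> rw [h] <;> simp)
  have hd2 := hd Prod.snd (fun a b h => by
    rcases h with h | h | h | h <;> rw [h] <;> simp)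
  have hM1 : 1 ≤ M := Nat.one_le_iff_ne_zero.2 (NeZero.ne M)
  have hM : M ≤ M ^ 2 := Nat.le_self_pow two_ne_zero M
  have hv1 : ((z.1.val : ℕ) : ℤ) < M := by exact_mod_cast ZMod.val_lt z.1
  have hv2 : ((z.2.val : ℕ) : ℤ) < M := by exact_mod_cast ZMod.val_lt z.2
  refine ⟨Ω, HMT.lf z, (hΩS _).2 hx, HMT.pr_lf z, fun y hy => ?_, fun a ha => hmem a ((hΩS a).1 ha),
    fun b hb a hba ha => ?_, fun a ha b hb hab => hinj ((hΩS a).1 ha) ((hΩS b).1 hb) hab⟩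
  · have h1 := abs_le.1 (hd1 y hy)
    have h2 := abs_le.1 (hd2 y hy)
    simp only [HMT.lf] at h1 h2
    have hc : ((Ω.card : ℕ) : ℤ) ≤ ((M ^ 2 : ℕ) : ℤ) := by exact_mod_cast hcard
    have hM' : ((M : ℕ) : ℤ) ≤ ((M ^ 2 : ℕ) : ℤ) := by exact_mod_cast hM
    have h3 : (0 : ℤ) ≤ ((z.1.val : ℕ) : ℤ) := Int.natCast_nonneg _
    have h4 : (0 : ℤ) ≤ ((z.2.val : ℕ) : ℤ) := Int.natCast_nonneg _
    have e : (((2 * M ^ 2 : ℕ) : ℕ) : ℤ) = 2 * ((M ^ 2 : ℕ) : ℤ) := by push_cast; ring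
    rw [box, mem_product, mem_Icc, mem_Icc, e]
    refine ⟨⟨?_, ?_⟩, ⟨?_, ?_⟩⟩ <;> linarith [h1.1, h1.2, h2.1, h2.2]
  · have hb' := (hΩS b).1 hb
    refine (hΩS a).2 (ReflTransGen.tail hb' ⟨hba, ?_, mem_coe.2 ha⟩)
    exact mem_coe.2 (hmem b hb')

end Pool.Agent.HM
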