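import Pool.Agent.Lib_helper14.HM.Rho

/-!
The partition function of a finite domain in `ℤ²` with zero boundary values is finite and positive.
-/

set_option autoImplicit false

open MeasureTheory Finset
open scoped ENNReal

namespace Pool.Agent.HM

/-- edges `x → x + (1, 0)` only: the integral is a product -/
theorem lm_right {ρ : ℝ → ℝ} (hρ : EdgeWeight ρ) (Ω : Finset (ℤ × ℤ)) (ξ : ℤ × ℤ → ℝ) :
    lm Ω (fun f => ∏ x ∈ Ω, ENNReal.ofReal (ρ (f (x + (1, 0)) - f x))) ξ =
      (∫⁻ t, ENNReal.ofReal (ρ t)) ^ Ω.card := by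
  have hm := hρ.measurable
  have hE : ∀ x : ℤ × ℤ, Measurable fun f : ℤ × ℤ → ℝ =>
      ENNReal.ofReal (ρ (f (x + (1, 0)) - f x)) := fun x =>
    (hm.comp (by fun_prop : Measurable fun f : ℤ × ℤ → ℝ => f (x + (1, 0)) - f x)).ennreal_ofReal
  have hP : ∀ s : Finset (ℤ × ℤ), Measurable fun f : ℤ × ℤ → ℝ =>
      ∏ x ∈ s, ENNReal.ofReal (ρ (f (x + (1, 0)) - f x)) := fun s =>
    Finset.measurable_prod s fun x _ => hE x
  revert ξ
  refine Finset.induction_on_min_value (f := Prod.fst) Ω ?_ ?_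
  · intro ξ
    simp [lm]
  · intro a s ha hmin ih ξ
    unfold lm at *
    rw [lmarginal_insert' _ (hP _) ha]
    have e : ∀ f : ℤ × ℤ → ℝ, ∫⁻ c, ∏ x ∈ insert a s,
        ENNReal.ofReal (ρ (Function.update f a c (x + (1, 0)) - Function.update f a c x)) =
        (∫⁻ t, ENNReal.ofReal (ρ t)) * ∏ x ∈ s, ENNReal.ofReal (ρ (f (x + (1, 0)) - f x)) := by
      intro f
      have h1 : ∀ c : ℝ, ∏ x ∈ insert a s,
          ENNReal.ofReal (ρ (Function.update f a c (x + (1, 0)) - Function.update f a c x)) =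
          ENNReal.ofReal (ρ (f (a + (1, 0)) - c)) *
            ∏ x ∈ s, ENNReal.ofReal (ρ (f (x + (1, 0)) - f x)) := by
        intro c
        rw [prod_insert ha]
        congr 1
        · have : a + (1, 0) ≠ a := by
            intro h
            have := congrArg Prod.fst h
            simp at this
          simp [this]
        · refine prod_congr rfl fun x hx => ?_
          have h2 : x ≠ a := fun h => ha (h ▸ hx)
          have h3 : x + (1, 0) ≠ a := by
            intro h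
            have h4 := hmin x hx
            rw [← h] at h4
            simp at h4
          simp [h2, h3]
      simp only [h1]
      have hmc : Measurable fun c : ℝ => ENNReal.ofReal (ρ (f (a + (1, 0)) - c)) :=
        (hm.comp (by fun_prop : Measurable fun c : ℝ => f (a + (1, 0)) - c)).ennreal_ofReal
      rw [lintegral_mul_const _ hmc]
      congr 1
      exact lintegral_sub_left_eq_self (μ := volume) (fun t => ENNReal.ofReal (ρ t)) _
    simp only [e]
    have h5 := ih ξ
    rw [card_insert_of_notMem ha, pow_succ, ← h5, mul_comm]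
    unfold lmarginal
    rw [lintegral_const_mul]
    exact (hP s).comp measurable_updateFinset

theorem ofReal_le_one {ρ : ℝ → ℝ} (hρ : EdgeWeight ρ) (t : ℝ) : ENNReal.ofReal (ρ t) ≤ 1 := by
  rw [ENNReal.ofReal_le_one]; exact hρ.le_one t

/-- without mass the weight is a product over edges -/
theorem wt_zero {G : Type} [AddCommGroup G] [DecidableEq G] (ρ : ℝ → ℝ) (stp : Bool → G)
    (W : Finset G) (f : G → ℝ) :
    wt ρ 0 stp W f = ∏ p ∈ edges stp W, ENNReal.ofReal (ρ (f (p.1 + stp p.2) - f p.1)) := by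
  unfold wt
  have : ∏ x ∈ W, ENNReal.ofReal (Real.exp (-((0 : ℝ) ^ 2 * f x ^ 2 / 2))) = 1 := by
    refine prod_eq_one fun x _ => ?_
    simp
  rw [this, mul_one]

theorem Z_fin {ρ : ℝ → ℝ} (hρ : EdgeWeight ρ) (Ω : Finset (ℤ × ℤ)) (ξ : ℤ × ℤ → ℝ) :
    lm Ω (wt ρ 0 zstp Ω) ξ < ∞ := by
  have h1 : ∀ f : ℤ × ℤ → ℝ, wt ρ 0 zstp Ω f ≤
      ∏ x ∈ Ω, ENNReal.ofReal (ρ (f (x + (1, 0)) - f x)) := by
    intro f
    rw [wt_zero]
    have hsub : Ω ×ˢ ({false} : Finset Bool) ⊆ edges zstp Ω := by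
      intro p hp
      rw [mem_product] at hp
      exact mem_union_left _ (mem_product.2 ⟨hp.1, mem_univ _⟩)
    refine (prod_le_prod_of_subset_of_le_one' hsub fun p _ _ => ofReal_le_one hρ _).trans ?_
    rw [prod_product]
    refine le_of_eq (prod_congr rfl fun x _ => ?_)
    simp [zstp]
  have h2 : lm Ω (wt ρ 0 zstp Ω) ξ ≤ (∫⁻ t, ENNReal.ofReal (ρ t)) ^ Ω.card := by
    rw [← lm_right hρ Ω ξ]
    exact lintegral_mono fun y => h1 _
  refine lt_of_le_of_lt h2 (ENNReal.pow_lt_top ?_)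
  have := hρ.moment_lt_top 0
  simpa using this

theorem Z_pos {ρ : ℝ → ℝ} (hρ : EdgeWeight ρ) (Ω : Finset (ℤ × ℤ)) :
    0 < lm Ω (wt ρ 0 zstp Ω) 0 := by
  obtain ⟨a, ha, hρa⟩ := hρ.pos
  set c : ℝ≥0∞ := ENNReal.ofReal (ρ a) ^ (edges zstp Ω).card with hc
  have hc0 : c ≠ 0 := pow_ne_zero _ (by simpa using hρa)
  set D : Set (Ω → ℝ) := Set.pi Set.univ fun _ => Set.Icc (-(a / 2)) (a / 2) with hD
  have hDm : MeasurableSet D := MeasurableSet.univ_pi fun _ => measurableSet_Icc
  have hvol : (Measure.pi fun _ : Ω => (volume : Measure ℝ)) D ≠ 0 := by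
    rw [hD, Measure.pi_pi]
    refine prod_ne_zero_iff.2 fun i _ => ?_
    rw [Real.volume_Icc]
    simp only [ne_eq, ENNReal.ofReal_eq_zero, not_le]
    linarith
  have key : ∀ y ∈ D, c ≤ wt ρ 0 zstp Ω (Function.updateFinset 0 Ω y) := by
    intro y hy
    rw [wt_zero, hc, ← prod_const]
    have hval : ∀ v, |Function.updateFinset (0 : ℤ × ℤ → ℝ) Ω y v| ≤ a / 2 := by
      intro v
      by_cases hv : v ∈ Ω
      · have := hy ⟨v, hv⟩ (Set.mem_univ _)
        simp only [Function.updateFinset, hv, dif_pos]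
        exact abs_le.2 ⟨this.1, this.2⟩
      · simp only [Function.updateFinset, hv, dif_neg, not_false_iff, Pi.zero_apply, abs_zero]
        linarith
    refine prod_le_prod' fun p _ => ENNReal.ofReal_le_ofReal (hρ.anti ?_)
    rw [abs_of_pos ha]
    have h1 := abs_sub (Function.updateFinset (0 : ℤ × ℤ → ℝ) Ω y (p.1 + zstp p.2))
      (Function.updateFinset (0 : ℤ × ℤ → ℝ) Ω y p.1)
    have h2 := hval (p.1 + zstp p.2)
    have h3 := hval p.1
    linarith
  calc (0 : ℝ≥0∞) < c * (Measure.pi fun _ : Ω => (volume : Measure ℝ)) D :=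
        ENNReal.mul_pos hc0 hvol
    _ = ∫⁻ _ in D, c ∂(Measure.pi fun _ : Ω => (volume : Measure ℝ)) := by
        rw [lintegral_const, Measure.restrict_apply MeasurableSet.univ, Set.univ_inter]
    _ ≤ ∫⁻ y in D, wt ρ 0 zstp Ω (Function.updateFinset 0 Ω y)
          ∂(Measure.pi fun _ : Ω => (volume : Measure ℝ)) :=
        setLIntegral_mono' hDm key
    _ ≤ lm Ω (wt ρ 0 zstp Ω) 0 := setLIntegral_le_lintegral _ _

end Pool.Agent.HM
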