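import Pool.Agent.Lib_helper12.HM.A5
import Pool.Agent.Lib_helper12.HM.M5a
import Pool.Agent.Lib_helper12.HM.M5b
import Pool.Agent.Lib_helper12.HM.D2
import Pool.Agent.Lib_helper69.HM.Dir
import Pool.Agent.Lib_helper14.HMT.Expo
import Pool.Agent.Lib_helper14.HMT.FF

/-!
From the bound with zero boundary values in finite domains of `ℤ²` to sets without windings in the
torus with boundary values at least `-b`.
-/

set_option autoImplicit false

open MeasureTheory Finset
open scoped ENNReal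

namespace Pool.Agent.HM

variable {M : ℕ} [NeZero M]

/-- the weight of the field on the torus `ZMod M × ZMod M` -/
noncomputable def wT (ρ : ℝ → ℝ) (M : ℕ) [NeZero M] (f : ZMod M × ZMod M → ℝ) : ℝ≥0∞ :=
  ∏ v, ENNReal.ofReal (ρ (f (v + HMT.e1 M) - f v)) * ENNReal.ofReal (ρ (f (v + HMT.e2 M) - f v))

/-- the steps on the torus -/
def sT (M : ℕ) (i : Bool) : ZMod M × ZMod M := if i then (0, 1) else (1, 0)

theorem wT_eq (ρ : ℝ → ℝ) (f : ZMod M × ZMod M → ℝ) :
    wT ρ M f = ∏ p : (ZMod M × ZMod M) × Bool, ENNReal.ofReal (ρ (f (p.1 + sT M p.2) - f p.1)) := by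
  rw [Fintype.prod_prod_type]
  refine prod_congr rfl fun v _ => ?_
  rw [Fintype.prod_bool, mul_comm]
  simp [sT]

theorem hyp_of_dir {ρ : ℝ → ℝ} (hρ : EdgeWeight ρ) {T : ℝ} {ε : ℝ≥0∞}
    (H : ∀ Ω ⊆ box (2 * M ^ 2), ∀ x ∈ Ω,
      lm Ω (Set.indicator {f | T < f x} (wt ρ 0 zstp Ω)) 0 ≤ ε * lm Ω (wt ρ 0 zstp Ω) 0) (b : ℝ) :
    HMT.Hyp (wT ρ M) b (b + T) ε := by
  classical
  intro Λ hΛ z hz ξ hξ
  obtain ⟨Ω, x, hx, hxz, hbox, hΩΛ, hcl, hinj⟩ := lift_comp Λ hΛ hz
  set K : Finset (ZMod M × ZMod M) := Ω.image (HMT.pr M) with hK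
  have hzK : z ∈ K := mem_image.2 ⟨x, hx, hxz⟩
  have hKΛ : K ⊆ Λ := by
    intro v hv
    obtain ⟨a, ha, rfl⟩ := mem_image.1 hv
    exact hΩΛ a ha
  have hprs : ∀ a : ℤ × ℤ, ∀ i, HMT.pr M (a + zstp i) = HMT.pr M a + sT M i := by
    intro a i
    cases i
    · simpa [zstp, sT] using HMT.pr_e1 (M := M) a
    · simpa [zstp, sT] using HMT.pr_e2 (M := M) a
  have hadj : ∀ a : ℤ × ℤ, ∀ i, HMT.Adj a (a + zstp i) := by
    intro a i
    cases i
    · exact Or.inl rfl
    · exact Or.inr (Or.inr (Or.inl rfl))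
  -- neighbours of `K` are in `K` or outside of `Λ`
  have hnb : ∀ p : (ZMod M × ZMod M) × Bool, p ∈ edges (sT M) K →
      (p.1 ∈ K ∨ p.1 ∉ Λ) ∧ (p.1 + sT M p.2 ∈ K ∨ p.1 + sT M p.2 ∉ Λ) := by
    rintro ⟨v, i⟩ hp
    rw [mem_edges] at hp
    simp only at hp ⊢
    rcases hp with h | h
    · refine ⟨Or.inl h, ?_⟩
      by_contra hcon
      push Not at hcon
      obtain ⟨a, ha, rfl⟩ := mem_image.1 h
      rw [← hprs] at hcon
      exact hcon.1 (mem_image_of_mem _ (hcl a ha _ (hadj a i) hcon.2))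
    · refine ⟨?_, Or.inl h⟩
      by_contra hcon
      push Not at hcon
      obtain ⟨a, ha, hav⟩ := mem_image.1 h
      have h1 : HMT.pr M (a - zstp i) = v := by
        have := hprs (a - zstp i) i
        rw [sub_add_cancel, hav] at this
        exact (add_right_cancel this).symm
      rw [← h1] at hcon
      have h2 : HMT.Adj a (a - zstp i) := by
        have := (hadj (a - zstp i) i).symm
        rwa [sub_add_cancel] at this
      exact hcon.1 (mem_image_of_mem _ (hcl a ha _ h2 hcon.2))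
  -- the endpoints of the edges which touch `Ω`
  set A : Finset (ℤ × ℤ) := Ω ∪ ((edges zstp Ω).image Prod.fst ∪
    (edges zstp Ω).image fun p => p.1 + zstp p.2) with hA
  have hAadj : ∀ a ∈ A, a ∈ Ω ∨ ∃ b ∈ Ω, HMT.Adj b a := by
    intro a ha
    rw [hA, mem_union, mem_union, mem_image, mem_image] at ha
    rcases ha with ha | ⟨p, hp, rfl⟩ | ⟨p, hp, rfl⟩
    · exact Or.inl ha
    · rcases mem_edges.1 hp with h | h
      · exact Or.inl h
      · exact Or.inr ⟨_, h, (hadj _ _).symm⟩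
    · rcases mem_edges.1 hp with h | h
      · exact Or.inr ⟨_, h, hadj _ _⟩
      · exact Or.inl h
  have hinjA : ∀ a ∈ A, ∀ b ∈ Ω, HMT.pr M a = HMT.pr M b → a = b := by
    intro a ha b hb hab
    rcases hAadj a ha with h | ⟨c, hc, hca⟩
    · exact hinj a h b hb hab
    · have : a ∈ Ω := hcl c hc a hca (by rw [hab]; exact hΩΛ b hb)
      exact hinj a this b hb hab
  have hAmem : ∀ p ∈ edges zstp Ω, p.1 ∈ A ∧ p.1 + zstp p.2 ∈ A := by
    intro p hp
    constructor
    · exact mem_union_right _ (mem_union_left _ (mem_image_of_mem _ hp))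
    · exact mem_union_right _ (mem_union_right _ (mem_image.2 ⟨p, hp, rfl⟩))
  -- the bijection of the edges
  have hedge : ∀ g : (ZMod M × ZMod M) × Bool → ℝ≥0∞,
      ∏ p ∈ edges zstp Ω, g (HMT.pr M p.1, p.2) = ∏ q ∈ edges (sT M) K, g q := by
    intro g
    have himg : (edges zstp Ω).image (fun p => (HMT.pr M p.1, p.2)) = edges (sT M) K := by
      ext ⟨v, i⟩
      rw [mem_image, mem_edges]
      constructor
      · rintro ⟨⟨a, j⟩, hp, he⟩
        simp only [Prod.mk.injEq] at he
        obtain ⟨rfl, rfl⟩ := he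
        rcases mem_edges.1 hp with h | h
        · exact Or.inl (mem_image_of_mem _ h)
        · right
          simp only at h ⊢
          rw [← hprs]
          exact mem_image_of_mem _ h
      · rintro (h | h)
        · obtain ⟨a, ha, hav⟩ := mem_image.1 h
          refine ⟨(a, i), mem_edges.2 (Or.inl ha), ?_⟩
          simp only at hav ⊢
          rw [hav]
        · obtain ⟨a, ha, hav⟩ := mem_image.1 h
          simp only at hav
          have h1 : HMT.pr M (a - zstp i) = v := by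
            have := hprs (a - zstp i) i
            rw [sub_add_cancel, hav] at this
            exact (add_right_cancel this).symm
          refine ⟨(a - zstp i, i), mem_edges.2 (Or.inr ?_), ?_⟩
          · simpa using ha
          · simp only
            rw [h1]
    rw [← himg, prod_image]
    rintro ⟨a, i⟩ hp ⟨a', i'⟩ hp' he
    simp only [Prod.mk.injEq] at he
    obtain ⟨he1, rfl⟩ := he
    have h1 := hAmem _ (mem_coe.1 hp)
    have h2 := hAmem _ (mem_coe.1 hp')
    simp only at h1 h2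
    rcases mem_edges.1 (mem_coe.1 hp') with h | h
    · simp only at h
      rw [hinjA a h1.1 a' h he1]
    · simp only at h
      have h3 : HMT.pr M (a + zstp i) = HMT.pr M (a' + zstp i) := by rw [hprs, hprs, he1]
      have := hinjA _ h1.2 _ h h3
      rw [add_right_cancel this]
  -- notation
  set wK : (ZMod M × ZMod M → ℝ) → ℝ≥0∞ := wt ρ 0 (sT M) K with hwK
  have nK : Nice wK := nice_wt hρ 0 (sT M) K
  have nΩ : Nice (wt ρ 0 zstp Ω) := nice_wt hρ 0 zstp Ω
  have hwKe : ∀ f, wK f = ∏ p ∈ edges (sT M) K,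
      ENNReal.ofReal (ρ (f (p.1 + sT M p.2) - f p.1)) := fun f => by rw [hwK, wt_zero]
  have mind : ∀ {G : Type} (v : G) (s : ℝ),
      Measurable fun f : G → ℝ => Set.indicator {f : G → ℝ | f v < s} (1 : (G → ℝ) → ℝ≥0∞) f :=
    fun v s => measurable_one.indicator (measurableSet_lt (measurable_pi_apply v) measurable_const)
  have mA : ∀ s : ℝ, Measurable fun f => HMT.ind {f : ZMod M × ZMod M → ℝ | f z < s} f * wK f :=
    fun s => (mind z s).mul nK.meas
  -- Step 1: the bound with zero boundary values for `K`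
  have step1 : lm K (fun f => HMT.ind {f : ZMod M × ZMod M → ℝ | f z < -T} f * wK f) 0 ≤
      ε * lm K wK 0 := by
    have t1 := lm_transport (HMT.pr M) Ω A (subset_union_left) hinjA
      (F := fun f => Set.indicator {f : ℤ × ℤ → ℝ | f x < -T} 1 f * wt ρ 0 zstp Ω f)
      ((mind x (-T)).mul nΩ.meas) (fun f g hfg => by
        have e1 : wt ρ 0 zstp Ω f = wt ρ 0 zstp Ω g := by
          rw [wt_zero, wt_zero]
          refine prod_congr rfl fun p hp => ?_
          rw [hfg _ (hAmem p hp).1, hfg _ (hAmem p hp).2]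
        have e2 : f x = g x := hfg x (mem_union_left _ hx)
        simp only [e1, Set.indicator, Set.mem_ofPred_eq, e2, Pi.one_apply]) 0
    have t2 := lm_transport (HMT.pr M) Ω A (subset_union_left) hinjA
      (F := wt ρ 0 zstp Ω) nΩ.meas (fun f g hfg => by
          rw [wt_zero, wt_zero]
          refine prod_congr rfl fun p hp => ?_
          rw [hfg _ (hAmem p hp).1, hfg _ (hAmem p hp).2]) 0
    have hwcomp : ∀ f : ZMod M × ZMod M → ℝ, wt ρ 0 zstp Ω (f ∘ HMT.pr M) = wK f := by
      intro f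
      rw [wt_zero, hwKe, ← hedge fun p => ENNReal.ofReal (ρ (f (p.1 + sT M p.2) - f p.1))]
      refine prod_congr rfl fun p _ => ?_
      simp only [Function.comp_apply, hprs]
    have hicomp : ∀ f : ZMod M × ZMod M → ℝ,
        Set.indicator {f : ℤ × ℤ → ℝ | f x < -T} (1 : (ℤ × ℤ → ℝ) → ℝ≥0∞) (f ∘ HMT.pr M) =
          HMT.ind {f : ZMod M × ZMod M → ℝ | f z < -T} f := by
      intro f
      simp only [Set.indicator, Set.mem_ofPred_eq, Function.comp_apply, hxz, Pi.one_apply, HMT.ind]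
    simp only [hwcomp, hicomp] at t1 t2
    have z0 : (0 : ZMod M × ZMod M → ℝ) ∘ HMT.pr M = 0 := rfl
    rw [z0] at t1 t2
    rw [← hK] at t1 t2
    have t3 := lm_neg (F := Set.indicator {f : ℤ × ℤ → ℝ | T < f x} (wt ρ 0 zstp Ω))
      (nΩ.meas.indicator (measurableSet_lt measurable_const (measurable_pi_apply x))) Ω 0
    have e3 : (fun f : ℤ × ℤ → ℝ => Set.indicator {f : ℤ × ℤ → ℝ | T < f x} (wt ρ 0 zstp Ω) (-f)) =
        fun f => Set.indicator {f : ℤ × ℤ → ℝ | f x < -T} 1 f * wt ρ 0 zstp Ω f := by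
      funext f
      by_cases h : f x < -T
      · have h' : T < (-f) x := by simpa using lt_neg_of_lt_neg h
        rw [Set.indicator_of_mem (show -f ∈ {f : ℤ × ℤ → ℝ | T < f x} from h'),
          Set.indicator_of_mem (show f ∈ {f : ℤ × ℤ → ℝ | f x < -T} from h), nΩ.even]
        simp
      · have h' : ¬ T < (-f) x := by
          simp only [Pi.neg_apply]
          intro h'
          exact h (by linarith)
        rw [Set.indicator_of_notMem (show -f ∉ {f : ℤ × ℤ → ℝ | T < f x} from h'),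
          Set.indicator_of_notMem (show f ∉ {f : ℤ × ℤ → ℝ | f x < -T} from h), zero_mul]
    rw [e3, neg_zero] at t3
    rw [t1, t3, t2]
    exact H Ω hbox x hx
  -- Step 2: constant boundary values `-b`
  set η : ZMod M × ZMod M → ℝ := fun _ => -b with hη
  have htr : ∀ f, wK (f + η) = wK f := by
    intro f
    rw [hwKe, hwKe]
    refine prod_congr rfl fun p _ => ?_
    congr 2
    simp [hη]
  have step2 : lm K (fun f => HMT.ind {f : ZMod M × ZMod M → ℝ | f z < -(b + T)} f * wK f) η ≤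
      ε * lm K wK η := by
    have a1 := lm_add (mA (-(b + T))) K η 0
    have a2 := lm_add nK.meas K η 0
    rw [zero_add] at a1 a2
    rw [← a1, ← a2]
    simp only [htr]
    have e : ∀ f : ZMod M × ZMod M → ℝ, HMT.ind {f : ZMod M × ZMod M → ℝ | f z < -(b + T)} (f + η) =
        HMT.ind {f : ZMod M × ZMod M → ℝ | f z < -T} f := by
      intro f
      have : (f z + -b < -(b + T)) ↔ f z < -T := by constructor <;> intro h <;> linarith
      simp only [HMT.ind, Set.indicator, Set.mem_ofPred_eq, Pi.add_apply, hη, this, Pi.one_apply]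
    simp only [e]
    exact step1
  -- positivity and finiteness
  have hZ : lm K wK η = lm Ω (wt ρ 0 zstp Ω) 0 := by
    have a2 := lm_add nK.meas K η 0
    rw [zero_add] at a2
    rw [← a2]
    simp only [htr]
    have t2 := lm_transport (HMT.pr M) Ω A (subset_union_left) hinjA
      (F := wt ρ 0 zstp Ω) nΩ.meas (fun f g hfg => by
          rw [wt_zero, wt_zero]
          refine prod_congr rfl fun p hp => ?_
          rw [hfg _ (hAmem p hp).1, hfg _ (hAmem p hp).2]) 0
    have hwcomp : ∀ f : ZMod M × ZMod M → ℝ, wt ρ 0 zstp Ω (f ∘ HMT.pr M) = wK f := by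
      intro f
      rw [wt_zero, hwKe, ← hedge fun p => ENNReal.ofReal (ρ (f (p.1 + sT M p.2) - f p.1))]
      refine prod_congr rfl fun p _ => ?_
      simp only [Function.comp_apply, hprs]
    simp only [hwcomp] at t2
    exact t2
  have hZ0 : lm K wK η ≠ 0 := by rw [hZ]; exact (Z_pos hρ Ω).ne'
  have hZt : lm K wK η ≠ ∞ := by rw [hZ]; exact (Z_fin hρ Ω 0).ne
  -- Step 3: boundary values at least `-b`
  have step3 : ∀ ζ : ZMod M × ZMod M → ℝ, (∀ v, v ∉ Λ → -b ≤ ζ v) →
      lm K (fun f => HMT.ind {f : ZMod M × ZMod M → ℝ | f z < -(b + T)} f * wK f) ζ ≤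
        ε * lm K wK ζ := by
    intro ζ hζ
    set B : Finset (ZMod M × ZMod M) := K ∪ ((edges (sT M) K).image Prod.fst ∪
      (edges (sT M) K).image fun p => p.1 + sT M p.2) with hB
    have hBmem : ∀ p ∈ edges (sT M) K, p.1 ∈ B ∧ p.1 + sT M p.2 ∈ B := by
      intro p hp
      constructor
      · exact mem_union_right _ (mem_union_left _ (mem_image_of_mem _ hp))
      · exact mem_union_right _ (mem_union_right _ (mem_image.2 ⟨p, hp, rfl⟩))
    have hBout : ∀ v ∈ B, v ∉ K → v ∉ Λ := by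
      intro v hv hvK
      simp only [hB, mem_union, mem_image] at hv
      rcases hv with hv | ⟨p, hp, rfl⟩ | ⟨p, hp, rfl⟩
      · exact absurd hv hvK
      · exact (hnb p hp).1.resolve_left hvK
      · exact (hnb p hp).2.resolve_left hvK
    have hdep1 : ∀ f g : ZMod M × ZMod M → ℝ, (∀ v ∈ B, f v = g v) → wK f = wK g := by
      intro f g hfg
      rw [hwKe, hwKe]
      refine prod_congr rfl fun p hp => ?_
      rw [hfg _ (hBmem p hp).1, hfg _ (hBmem p hp).2]
    have hdep2 : ∀ f g : ZMod M × ZMod M → ℝ, (∀ v ∈ B, f v = g v) →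
        HMT.ind {f : ZMod M × ZMod M → ℝ | f z < -(b + T)} f * wK f =
        HMT.ind {f : ZMod M × ZMod M → ℝ | f z < -(b + T)} g * wK g := by
      intro f g hfg
      have e2 : f z = g z := hfg z (mem_union_left _ hzK)
      rw [hdep1 f g hfg]
      simp only [HMT.ind, Set.indicator, Set.mem_ofPred_eq, e2, Pi.one_apply]
    have hsup : ∀ v ∈ B, v ∉ K → ζ v = (ζ ⊔ η) v := by
      intro v hv hvK
      simp only [Pi.sup_apply, hη]
      exact (sup_of_le_left (hζ v (hBout v hv hvK))).symm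
    rw [lm_congr_on hdep1 K hsup, lm_congr_on hdep2 K hsup]
    have hff := HMT.ff K (mA (-(b + T))) nK.meas nK.meas (mA (-(b + T))) (fun f g => by
      have h1 := nK.sm f g
      by_cases hf : f z < -(b + T)
      · have hfg : (f ⊓ g) z < -(b + T) := lt_of_le_of_lt (inf_le_left) hf
        rw [HMT.ind, HMT.ind, Set.indicator_of_mem (show f ∈ {f : ZMod M × ZMod M → ℝ |
          f z < -(b + T)} from hf), Set.indicator_of_mem (show f ⊓ g ∈ {f : ZMod M × ZMod M → ℝ |
          f z < -(b + T)} from hfg)]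
        simp only [Pi.one_apply, one_mul]
        rw [mul_comm (wK (f ⊔ g))]
        exact h1
      · rw [HMT.ind, Set.indicator_of_notMem (show f ∉ {f : ZMod M × ZMod M → ℝ |
          f z < -(b + T)} from hf)]
        simp) (ζ ⊔ η) η
    rw [sup_assoc, sup_idem, inf_of_le_right (le_sup_right : η ≤ ζ ⊔ η)] at hff
    have h4 : lm K (fun f => HMT.ind {f : ZMod M × ZMod M → ℝ | f z < -(b + T)} f * wK f) (ζ ⊔ η) *
        lm K wK η ≤ (ε * lm K wK (ζ ⊔ η)) * lm K wK η := by
      refine hff.trans ?_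
      calc lm K wK (ζ ⊔ η) *
            lm K (fun f => HMT.ind {f : ZMod M × ZMod M → ℝ | f z < -(b + T)} f * wK f) η
          ≤ lm K wK (ζ ⊔ η) * (ε * lm K wK η) := by gcongr
        _ = _ := by ring
    exact (ENNReal.mul_le_mul_iff_left hZ0 hZt).1 h4
  -- Step 4: the other components
  set wR : (ZMod M × ZMod M → ℝ) → ℝ≥0∞ := fun f => ∏ p ∈ univ \ edges (sT M) K,
    ENNReal.ofReal (ρ (f (p.1 + sT M p.2) - f p.1)) with hwR
  have hsplit : ∀ f, wT ρ M f = wR f * wK f := by
    intro f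
    rw [wT_eq, hwKe, hwR]
    simp only
    rw [prod_sdiff (subset_univ _)]
  have hRdep : ∀ f g : ZMod M × ZMod M → ℝ, (∀ v, v ∉ K → f v = g v) → wR f = wR g := by
    intro f g hfg
    rw [hwR]
    refine prod_congr rfl fun p hp => ?_
    rw [mem_sdiff, mem_edges] at hp
    have := hp.2
    push Not at this
    rw [hfg _ this.1, hfg _ this.2]
  have hmT : Measurable (wT ρ M) := by
    have : wT ρ M = fun f => wR f * wK f := funext hsplit
    rw [this]
    refine Measurable.mul ?_ nK.meas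
    refine Finset.measurable_prod _ fun p _ => (hρ.measurable.comp ?_).ennreal_ofReal
    exact (measurable_pi_apply (p.1 + sT M p.2)).sub (measurable_pi_apply p.1)
  have step4 : ∀ ζ : ZMod M × ZMod M → ℝ, (∀ v, v ∉ Λ → -b ≤ ζ v) →
      lm K (fun f => HMT.ind {f : ZMod M × ZMod M → ℝ | f z < -(b + T)} f * wT ρ M f) ζ ≤
        ε * lm K (wT ρ M) ζ := by
    intro ζ hζ
    have e1 : (fun f => HMT.ind {f : ZMod M × ZMod M → ℝ | f z < -(b + T)} f * wT ρ M f) =
        fun f => wR f * (HMT.ind {f : ZMod M × ZMod M → ℝ | f z < -(b + T)} f * wK f) := by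
      funext f
      rw [hsplit]
      ring
    have e2 : wT ρ M = fun f => wR f * wK f := funext hsplit
    rw [e1, e2, lm_pull (mA _) K hRdep, lm_pull nK.meas K hRdep]
    calc wR ζ * lm K (fun f => HMT.ind {f : ZMod M × ZMod M → ℝ | f z < -(b + T)} f * wK f) ζ
        ≤ wR ζ * (ε * lm K wK ζ) := by gcongr; exact step3 ζ hζ
      _ = _ := by ring
  have hΛeq : (Λ \ K) ∪ K = Λ := sdiff_union_of_subset hKΛ
  have hmA : Measurable fun f => HMT.ind {f : ZMod M × ZMod M → ℝ | f z < -(b + T)} f * wT ρ M f :=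
    (mind z _).mul hmT
  change lm Λ _ ξ ≤ ε * lm Λ _ ξ
  have u1 := lmarginal_union (fun _ : ZMod M × ZMod M => (volume : Measure ℝ)) _ hmA
    (disjoint_sdiff_self_left : Disjoint (Λ \ K) K)
  have u2 := lmarginal_union (fun _ : ZMod M × ZMod M => (volume : Measure ℝ)) _ hmT
    (disjoint_sdiff_self_left : Disjoint (Λ \ K) K)
  rw [hΛeq] at u1 u2
  unfold lm
  rw [u1, u2]
  unfold lmarginal
  rw [← lintegral_const_mul]
  · refine lintegral_mono fun y => ?_
    refine step4 (Function.updateFinset ξ (Λ \ K) y) fun v hv => ?_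
    have : v ∉ Λ \ K := fun h => hv (mem_sdiff.1 h).1
    simp only [Function.updateFinset, this, dif_neg, not_false_iff]
    exact hξ v hv
  · have h5 : Measurable fun y : ((i : ↥(Λ \ K)) → ℝ) =>
        lmarginal (fun _ : ZMod M × ZMod M => (volume : Measure ℝ)) K (wT ρ M)
          (Function.updateFinset ξ (Λ \ K) y) :=
      (hmT.lmarginal _).comp measurable_updateFinset
    exact h5

/-- the bound of `HMT.Hyp` for the torus with side `M` -/
theorem hyp_torus {ρ : ℝ → ℝ} (hρ : EdgeWeight ρ) :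
    ∃ C : ℝ, 0 < C ∧ ∀ (M : ℕ) [NeZero M], 2 ≤ M → ∀ b : ℝ,
      HMT.Hyp (wT ρ M) b (b + C * Real.log M ^ (3 / 2 : ℝ)) (1 / 1000) := by
  obtain ⟨C, hC, H⟩ := dirichlet hρ
  refine ⟨C * 3 ^ (3 / 2 : ℝ), by positivity, fun M _ hM b => ?_⟩
  have h1 := hyp_of_dir (M := M) hρ (T := C * Real.log ((2 * M ^ 2 : ℕ) : ℝ) ^ (3 / 2 : ℝ))
    (ε := 1 / 1000) (H (2 * M ^ 2) (by nlinarith)) b
  intro Λ hΛ z hz ξ hξ
  refine le_trans (lintegral_mono fun y => ?_) (h1 Λ hΛ z hz ξ hξ)
  simp only
  gcongr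
  refine Set.indicator_le_indicator_of_subset ?_ (fun _ => bot_le) _
  intro f hf
  have hf' : f z < -(b + C * 3 ^ (3 / 2 : ℝ) * Real.log M ^ (3 / 2 : ℝ)) := hf
  have hlog : 0 ≤ Real.log M := Real.log_natCast_nonneg M
  have h2 : Real.log ((2 * M ^ 2 : ℕ) : ℝ) ≤ 3 * Real.log M := by
    push_cast
    have hM0 : (0 : ℝ) < M := by positivity
    rw [Real.log_mul (by norm_num) (by positivity), Real.log_pow]
    have : Real.log 2 ≤ Real.log M := Real.log_le_log (by norm_num) (by exact_mod_cast hM)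
    push_cast
    linarith
  have h3 : Real.log ((2 * M ^ 2 : ℕ) : ℝ) ^ (3 / 2 : ℝ) ≤
      3 ^ (3 / 2 : ℝ) * Real.log M ^ (3 / 2 : ℝ) := by
    rw [← Real.mul_rpow (by norm_num) hlog]
    exact Real.rpow_le_rpow (Real.log_natCast_nonneg _) h2 (by norm_num)
  have h4 := mul_le_mul_of_nonneg_left h3 hC.le
  show f z < -(b + C * Real.log ((2 * M ^ 2 : ℕ) : ℝ) ^ (3 / 2 : ℝ))
  linarith

end Pool.Agent.HM
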