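import Pool.Agent.Lib_helper12.HM.D2
import Pool.Agent.Lib_helper14.HM.Z4

set_option autoImplicit false

open MeasureTheory Finset
open scoped ENNReal

namespace Pool.Agent.HM

theorem ofReal_rho_le_one {ρ : ℝ → ℝ} (hρ : EdgeWeight ρ) (t : ℝ) : ENNReal.ofReal (ρ t) ≤ 1 := by
  rw [ENNReal.ofReal_le_one]; exact hρ.le_one t

theorem lm_const_mul {G : Type} [DecidableEq G] {D : (G → ℝ) → ℝ≥0∞} (hD : Measurable D)
    (K : Finset G) (c : ℝ≥0∞) (ξ : G → ℝ) : lm K (fun f => c * D f) ξ = c * lm K D ξ := by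
  unfold lm lmarginal
  rw [lintegral_const_mul]
  exact hD.comp measurable_updateFinset

/-- integration of a product along a forest: `p x` is the parent of `x`, `r` decreases towards
the root -/
theorem lm_tree {G : Type} [DecidableEq G] {ρ : ℝ → ℝ} (hρ : EdgeWeight ρ) (W : Finset G)
    (p : G → G) (r : G → ℕ) (hr : ∀ x ∈ W, r (p x) < r x) (ξ : G → ℝ) :
    lm W (fun f => ∏ x ∈ W, ENNReal.ofReal (ρ (f x - f (p x)))) ξ =
      (∫⁻ t, ENNReal.ofReal (ρ t)) ^ W.card := by
  have hm := hρ.measurable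
  have hP : ∀ s : Finset G, Measurable fun f : G → ℝ =>
      ∏ x ∈ s, ENNReal.ofReal (ρ (f x - f (p x))) := fun s =>
    Finset.measurable_prod s fun x _ =>
      (hm.comp (by fun_prop : Measurable fun f : G → ℝ => f x - f (p x))).ennreal_ofReal
  revert hr ξ
  refine Finset.induction_on_max_value (f := r) W ?_ ?_
  · intro _ ξ
    simp [lm]
  · intro a s ha hmax ih hr ξ
    have hrs : ∀ x ∈ s, r (p x) < r x := fun x hx => hr x (mem_insert_of_mem hx)
    have hra := hr a (mem_insert_self a s)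
    have h5 := ih hrs ξ
    unfold lm at *
    rw [lmarginal_insert' _ (hP _) ha]
    have e : ∀ f : G → ℝ, ∫⁻ c, ∏ x ∈ insert a s,
        ENNReal.ofReal (ρ (Function.update f a c x - Function.update f a c (p x))) =
        (∫⁻ t, ENNReal.ofReal (ρ t)) * ∏ x ∈ s, ENNReal.ofReal (ρ (f x - f (p x))) := by
      intro f
      have h1 : ∀ c : ℝ, ∏ x ∈ insert a s,
          ENNReal.ofReal (ρ (Function.update f a c x - Function.update f a c (p x))) =
          ENNReal.ofReal (ρ (c - f (p a))) *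
            ∏ x ∈ s, ENNReal.ofReal (ρ (f x - f (p x))) := by
        intro c
        rw [prod_insert ha]
        congr 1
        · have : p a ≠ a := by
            intro h
            rw [h] at hra
            exact lt_irrefl _ hra
          simp [this]
        · refine prod_congr rfl fun x hx => ?_
          have h2 : x ≠ a := fun h => ha (h ▸ hx)
          have h3 : p x ≠ a := by
            intro h
            have h4 := hrs x hx
            rw [h] at h4
            exact absurd (hmax x hx) (not_le.2 h4)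
          simp [h2, h3]
      simp only [h1]
      have hmc : Measurable fun c : ℝ => ENNReal.ofReal (ρ (c - f (p a))) :=
        (hm.comp (by fun_prop : Measurable fun c : ℝ => c - f (p a))).ennreal_ofReal
      rw [lintegral_mul_const _ hmc]
      congr 1
      exact lintegral_sub_right_eq_self (μ := volume) (fun t => ENNReal.ofReal (ρ t)) _
    simp only [e]
    rw [card_insert_of_notMem ha, pow_succ, ← h5, mul_comm]
    exact lm_const_mul (hP s) s _ ξ

theorem wt_le_edges {G : Type} [AddCommGroup G] [DecidableEq G] (ρ : ℝ → ℝ) (m : ℝ)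
    (stp : Bool → G) (W : Finset G) (f : G → ℝ) :
    wt ρ m stp W f ≤ ∏ p ∈ edges stp W, ENNReal.ofReal (ρ (f (p.1 + stp p.2) - f p.1)) := by
  unfold wt
  refine mul_le_of_le_one_right' ?_
  refine prod_le_one' fun x _ => ?_
  rw [ENNReal.ofReal_le_one, Real.exp_le_one_iff]
  have : 0 ≤ m ^ 2 * f x ^ 2 / 2 := by positivity
  linarith

/-- finiteness without mass, zero boundary values or not, in the square lattice -/
theorem lm_wt_lt_top_lattice {ρ : ℝ → ℝ} (hρ : EdgeWeight ρ) (m : ℝ) (Ω : Finset (ℤ × ℤ))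
    (ξ : ℤ × ℤ → ℝ) : lm Ω (wt ρ m zstp Ω) ξ < ∞ := by
  classical
  -- parent `x - (1, 0)`, rank: first coordinate shifted to be positive
  obtain ⟨N, hN⟩ : ∃ N : ℕ, ∀ x ∈ Ω, -(N : ℤ) < x.1 := by
    refine ⟨(∑ x ∈ Ω, |x.1|).toNat + 1, fun x hx => ?_⟩
    have h1 := single_le_sum (f := fun x : ℤ × ℤ => |x.1|) (fun _ _ => abs_nonneg _) hx
    have h2 := neg_abs_le x.1
    have h3 := Int.self_le_toNat (∑ x ∈ Ω, |x.1|)
    push_cast
    linarith
  have h1 : ∀ f : ℤ × ℤ → ℝ, wt ρ m zstp Ω f ≤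
      ∏ x ∈ Ω, ENNReal.ofReal (ρ (f x - f (x - (1, 0)))) := by
    intro f
    refine (wt_le_edges ρ m zstp Ω f).trans ?_
    have hsub : Ω.image (fun x => (x - (1, 0), false)) ⊆ edges zstp Ω := by
      intro p hp
      obtain ⟨x, hx, rfl⟩ := mem_image.1 hp
      rw [mem_edges]
      right
      simpa [zstp] using hx
    refine (prod_le_prod_of_subset_of_le_one' hsub fun p _ _ => ofReal_rho_le_one hρ _).trans ?_
    rw [prod_image]
    · refine le_of_eq (prod_congr rfl fun x _ => ?_)
      simp [zstp]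
    · intro x _ y _ h
      simpa using h
  have h2 : lm Ω (wt ρ m zstp Ω) ξ ≤ (∫⁻ t, ENNReal.ofReal (ρ t)) ^ Ω.card := by
    rw [← lm_tree hρ Ω (fun x => x - (1, 0)) (fun x => (x.1 + N).toNat) (fun x hx => ?_) ξ]
    · exact lintegral_mono fun y => h1 _
    · have := hN x hx
      simp only [Prod.fst_sub]
      omega
  refine lt_of_le_of_lt h2 (ENNReal.pow_lt_top ?_)
  have := hρ.moment_lt_top 0
  simpa using this

/-- a product of functions of one coordinate each -/
theorem lm_prod {G : Type} [DecidableEq G] (W : Finset G) {g : G → ℝ → ℝ≥0∞}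
    (hg : ∀ x, Measurable (g x)) (ξ : G → ℝ) :
    lm W (fun f => ∏ x ∈ W, g x (f x)) ξ = ∏ x ∈ W, ∫⁻ t, g x t := by
  have hP : ∀ s : Finset G, Measurable fun f : G → ℝ => ∏ x ∈ s, g x (f x) := fun s =>
    Finset.measurable_prod s fun x _ => (hg x).comp (measurable_pi_apply x)
  induction W using Finset.induction_on generalizing ξ with
  | empty => simp [lm]
  | insert a s ha ih =>
    have h5 := ih ξ
    unfold lm at *
    rw [lmarginal_insert' _ (hP _) ha, prod_insert ha, ← h5]
    have e : ∀ f : G → ℝ, ∫⁻ c, ∏ x ∈ insert a s, g x (Function.update f a c x) =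
        (∫⁻ t, g a t) * ∏ x ∈ s, g x (f x) := by
      intro f
      have h1 : ∀ c : ℝ, ∏ x ∈ insert a s, g x (Function.update f a c x) =
          g a c * ∏ x ∈ s, g x (f x) := by
        intro c
        rw [prod_insert ha]
        congr 1
        · simp
        · refine prod_congr rfl fun x hx => ?_
          have h2 : x ≠ a := fun h => ha (h ▸ hx)
          simp [h2]
      simp only [h1]
      rw [lintegral_mul_const _ (hg a)]
    simp only [e]
    exact lm_const_mul (hP s) s _ ξ

theorem gauss {m : ℝ} (hm : 0 < m) :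
    ∫⁻ t : ℝ, ENNReal.ofReal (Real.exp (-(m ^ 2 * t ^ 2 / 2))) =
      ENNReal.ofReal (Real.sqrt (2 * Real.pi) / m) := by
  have hb : 0 < m ^ 2 / 2 := by positivity
  have e : ∀ t : ℝ, Real.exp (-(m ^ 2 * t ^ 2 / 2)) = Real.exp (-(m ^ 2 / 2) * t ^ 2) := by
    intro t; congr 1; ring
  simp only [e]
  rw [← ofReal_integral_eq_lintegral_ofReal (integrable_exp_neg_mul_sq hb)
    (Filter.Eventually.of_forall fun t => (Real.exp_pos _).le), integral_gaussian]
  congr 1
  have h2 : Real.pi / (m ^ 2 / 2) = 2 * Real.pi / m ^ 2 := by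
    field_simp
  rw [h2, Real.sqrt_div (by positivity), Real.sqrt_sq hm.le]

variable {G : Type} [AddCommGroup G] [DecidableEq G]

/-- upper bound with mass: the variables in `B` outside of `B'` cost a constant each -/
theorem lm_wt_le {ρ : ℝ → ℝ} (hρ : EdgeWeight ρ) {m : ℝ} (hm : 0 < m) (stp : Bool → G)
    {B B' : Finset G} (hB : B' ⊆ B) (ξ : G → ℝ) :
    lm B (wt ρ m stp B) ξ ≤ ENNReal.ofReal (Real.sqrt (2 * Real.pi) / m) ^ (B \ B').card *
      lm B' (wt ρ m stp B') 0 := by
  have hwB := (nice_wt hρ m stp B).meas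
  have hwB' := (nice_wt hρ m stp B').meas
  set E : ℝ → ℝ≥0∞ := fun t => ENNReal.ofReal (Real.exp (-(m ^ 2 * t ^ 2 / 2))) with hE
  have hEm : Measurable E := by
    rw [hE]
    refine Measurable.ennreal_ofReal ?_
    fun_prop
  rw [lm_sub hwB hB]
  have step : ∀ ζ : G → ℝ, lm B' (wt ρ m stp B) ζ ≤
      lm B' (wt ρ m stp B') 0 * ∏ x ∈ B \ B', E (ζ x) := by
    intro ζ
    have e : wt ρ m stp B = fun f => rest ρ m stp B B' f * wt ρ m stp B' f := by
      funext f
      rw [wt_split ρ m stp hB, mul_comm]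
    rw [e, lm_pull hwB' B' (fun f f' h => rest_congr ρ m stp B B' h), mul_comm]
    refine mul_le_mul' (lm_le_zero (nice_wt hρ m stp B') B' ζ) ?_
    unfold rest
    refine mul_le_of_le_one_left' ?_
    exact prod_le_one' fun p _ => ofReal_rho_le_one hρ _
  calc lm (B \ B') (lm B' (wt ρ m stp B)) ξ
      ≤ lm (B \ B') (fun ζ => lm B' (wt ρ m stp B') 0 * ∏ x ∈ B \ B', E (ζ x)) ξ :=
        lintegral_mono fun y => step _
    _ = lm B' (wt ρ m stp B') 0 * lm (B \ B') (fun ζ => ∏ x ∈ B \ B', E (ζ x)) ξ :=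
        lm_const_mul (Finset.measurable_prod _ fun x _ => hEm.comp (measurable_pi_apply x)) _ _ _
    _ = _ := by
        rw [lm_prod (B \ B') (g := fun _ => E) (fun _ => hEm) ξ, prod_const, hE, gauss hm, mul_comm]

theorem lm_wt_lt_top {ρ : ℝ → ℝ} (hρ : EdgeWeight ρ) {m : ℝ} (hm : 0 < m) (stp : Bool → G)
    (W : Finset G) (ξ : G → ℝ) : lm W (wt ρ m stp W) ξ < ∞ := by
  have h := lm_wt_le hρ hm stp (empty_subset W) ξ
  have h0 : lm (∅ : Finset G) (wt ρ m stp ∅) 0 = 1 := by
    simp [lm, wt, edges]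
  rw [h0, mul_one] at h
  exact lt_of_le_of_lt h (ENNReal.pow_lt_top ENNReal.ofReal_lt_top)

end Pool.Agent.HM
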