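import Pool.Agent.Lib_helper12.HM.Z1

set_option autoImplicit false

open MeasureTheory Finset
open scoped ENNReal

namespace Pool.Agent.HM

variable {G : Type} [AddCommGroup G] [DecidableEq G]

/-- Lower bound for the partition function in `B` by the fields which stay in windows of width
`2 δ` around a profile `φ` in `B` outside of `B'`. -/
theorem window {ρ : ℝ → ℝ} (hρ : EdgeWeight ρ) {a δ : ℝ} (hδ : 0 < δ) (m : ℝ) (stp : Bool → G)
    {B B' : Finset G} (hB : B' ⊆ B) (φ ξ : G → ℝ) (hξ : ∀ x ∉ B, ξ x = φ x)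
    (hφ : ∀ p ∈ edges stp B, p ∉ edges stp B' → |φ (p.1 + stp p.2) - φ p.1| + 2 * δ ≤ a)
    (c : ℝ≥0∞) (hc : ∀ ξ' : G → ℝ, (∀ x ∉ B', |ξ' x - φ x| ≤ δ) →
      c ≤ lm B' (wt ρ m stp B') ξ') :
    (∏ x ∈ B \ B', ENNReal.ofReal
      (2 * δ * ρ a ^ 4 * Real.exp (-(m ^ 2 * (|φ x| + δ) ^ 2 / 2)))) * c ≤
      lm B (wt ρ m stp B) ξ := by
  have hwB := (nice_wt hρ m stp B).meas
  have hwB' := (nice_wt hρ m stp B').meas
  set D : Set ((i : ↥(B \ B')) → ℝ) := Set.pi Set.univ fun i => Set.Icc (φ i - δ) (φ i + δ) with hD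
  have hDm : MeasurableSet D := MeasurableSet.univ_pi fun _ => measurableSet_Icc
  have hvol : (Measure.pi fun _ : ↥(B \ B') => (volume : Measure ℝ)) D =
      ENNReal.ofReal (2 * δ) ^ (B \ B').card := by
    rw [hD, Measure.pi_pi]
    have : ∀ i : ↥(B \ B'), (volume : Measure ℝ) (Set.Icc (φ i - δ) (φ i + δ)) =
        ENNReal.ofReal (2 * δ) := by
      intro i
      rw [Real.volume_Icc]
      congr 1
      ring
    simp only [this, prod_const, card_univ, Fintype.card_coe]
  set K : ℝ≥0∞ := ENNReal.ofReal (ρ a) ^ (4 * (B \ B').card) *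
    ∏ x ∈ B \ B', ENNReal.ofReal (Real.exp (-(m ^ 2 * (|φ x| + δ) ^ 2 / 2))) with hK
  have key : ∀ y ∈ D, K * c ≤ lm B' (wt ρ m stp B) (Function.updateFinset ξ (B \ B') y) := by
    intro y hy
    set ζ := Function.updateFinset ξ (B \ B') y with hζ
    have hval : ∀ x, x ∉ B' → |ζ x - φ x| ≤ δ := by
      intro x hx
      by_cases hxB : x ∈ B
      · have hxm : x ∈ B \ B' := mem_sdiff.2 ⟨hxB, hx⟩
        have h1 := hy ⟨x, hxm⟩ (Set.mem_univ _)
        have h2 : ζ x = y ⟨x, hxm⟩ := by
          rw [hζ]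
          simp only [Function.updateFinset, hxm, dif_pos]
        rw [h2, abs_le]
        constructor
        · have := h1.1
          simp only at this
          linarith
        · have := h1.2
          simp only at this
          linarith
      · have h2 : ζ x = φ x := by
          have : x ∉ B \ B' := fun h => hxB (mem_sdiff.1 h).1
          rw [hζ]
          simp only [Function.updateFinset, this, dif_neg, not_false_iff]
          exact hξ x hxB
        rw [h2, sub_self, abs_zero]
        exact hδ.le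
    have e : wt ρ m stp B = fun f => rest ρ m stp B B' f * wt ρ m stp B' f := by
      funext f
      rw [wt_split ρ m stp hB, mul_comm]
    rw [e, lm_pull hwB' B' (fun f f' h => rest_congr ρ m stp B B' h)]
    refine mul_le_mul' ?_ (hc ζ hval)
    rw [hK]
    unfold rest
    refine mul_le_mul' ?_ ?_
    · have hcard : (edges stp B \ edges stp B').card ≤ 4 * (B \ B').card := by
        refine (card_le_card ?_).trans (card_edges_le stp (B \ B'))
        intro p hp
        rw [mem_sdiff, mem_edges, mem_edges] at hp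
        rw [mem_edges, mem_sdiff, mem_sdiff]
        tauto
      calc ENNReal.ofReal (ρ a) ^ (4 * (B \ B').card)
          ≤ ENNReal.ofReal (ρ a) ^ (edges stp B \ edges stp B').card :=
            pow_le_pow_right_of_le_one' (ofReal_rho_le_one hρ a) hcard
        _ = ∏ p ∈ edges stp B \ edges stp B', ENNReal.ofReal (ρ a) := by rw [prod_const]
        _ ≤ _ := by
            refine prod_le_prod' fun p hp => ENNReal.ofReal_le_ofReal (hρ.anti ?_)
            have hp' := mem_sdiff.1 hp
            have h1 := hφ p hp'.1 hp'.2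
            rw [mem_edges (W := B')] at hp'
            have h2 := hp'.2
            push Not at h2
            have h3 := hval _ h2.1
            have h4 := hval _ h2.2
            have h5 : |ζ (p.1 + stp p.2) - ζ p.1| ≤
                |ζ (p.1 + stp p.2) - φ (p.1 + stp p.2)| + |φ (p.1 + stp p.2) - φ p.1| +
                  |ζ p.1 - φ p.1| := by
              have e : ζ (p.1 + stp p.2) - ζ p.1 = (ζ (p.1 + stp p.2) - φ (p.1 + stp p.2)) +
                (φ (p.1 + stp p.2) - φ p.1) - (ζ p.1 - φ p.1) := by ring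
              rw [e]
              refine (abs_sub _ _).trans ?_
              gcongr
              exact abs_add_le _ _
            have h6 : |ζ (p.1 + stp p.2) - ζ p.1| ≤ a := by linarith
            exact h6.trans (le_abs_self a)
    · refine prod_le_prod' fun x hx => ENNReal.ofReal_le_ofReal (Real.exp_le_exp.2 ?_)
      have h1 := hval x (mem_sdiff.1 hx).2
      have h2 : |ζ x| ≤ |φ x| + δ := by
        have e : ζ x = φ x + (ζ x - φ x) := by ring
        rw [e]
        exact (abs_add_le _ _).trans (by linarith)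
      have h3 : ζ x ^ 2 ≤ (|φ x| + δ) ^ 2 := by
        rw [← sq_abs (ζ x)]
        have := abs_nonneg (ζ x)
        nlinarith
      have h4 := mul_le_mul_of_nonneg_left h3 (sq_nonneg m)
      linarith
  calc (∏ x ∈ B \ B', ENNReal.ofReal
        (2 * δ * ρ a ^ 4 * Real.exp (-(m ^ 2 * (|φ x| + δ) ^ 2 / 2)))) * c
      = K * c * (Measure.pi fun _ : ↥(B \ B') => (volume : Measure ℝ)) D := by
        rw [hvol, hK]
        have e : ∀ x ∈ B \ B', ENNReal.ofReal
            (2 * δ * ρ a ^ 4 * Real.exp (-(m ^ 2 * (|φ x| + δ) ^ 2 / 2))) =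
            ENNReal.ofReal (2 * δ) * ENNReal.ofReal (ρ a) ^ 4 *
              ENNReal.ofReal (Real.exp (-(m ^ 2 * (|φ x| + δ) ^ 2 / 2))) := by
          intro x _
          rw [ENNReal.ofReal_mul (by have := hρ.nonneg a; positivity),
            ENNReal.ofReal_mul (by positivity), ENNReal.ofReal_pow (hρ.nonneg a)]
        rw [prod_congr rfl e, prod_mul_distrib, prod_mul_distrib, prod_const, prod_const, ← pow_mul]
        ring
    _ = ∫⁻ _ in D, K * c ∂(Measure.pi fun _ : ↥(B \ B') => (volume : Measure ℝ)) := by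
        rw [lintegral_const, Measure.restrict_apply MeasurableSet.univ, Set.univ_inter]
    _ ≤ ∫⁻ y in D, lm B' (wt ρ m stp B) (Function.updateFinset ξ (B \ B') y)
          ∂(Measure.pi fun _ : ↥(B \ B') => (volume : Measure ℝ)) := setLIntegral_mono' hDm key
    _ ≤ lm (B \ B') (lm B' (wt ρ m stp B)) ξ := setLIntegral_le_lintegral _ _
    _ = lm B (wt ρ m stp B) ξ := (lm_sub hwB hB ξ).symm

/-- positivity: the boundary values vary by less than `a` along edges -/
theorem lm_wt_pos {ρ : ℝ → ℝ} (hρ : EdgeWeight ρ) {a : ℝ} (ha : 0 < ρ a) (m : ℝ)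
    (stp : Bool → G) (W : Finset G) (ξ : G → ℝ)
    (hξ : ∀ p ∈ edges stp W, |ξ (p.1 + stp p.2) - ξ p.1| < a) :
    0 < lm W (wt ρ m stp W) ξ := by
  have hδ : ∃ δ : ℝ, 0 < δ ∧ ∀ p ∈ edges stp W, |ξ (p.1 + stp p.2) - ξ p.1| + 2 * δ ≤ a := by
    rcases (edges stp W).eq_empty_or_nonempty with h | h
    · exact ⟨1, one_pos, by rw [h]; simp⟩
    · obtain ⟨q, hq, hmax⟩ := exists_max_image (edges stp W)
        (fun p => |ξ (p.1 + stp p.2) - ξ p.1|) h
      have := hξ q hq
      refine ⟨(a - |ξ (q.1 + stp q.2) - ξ q.1|) / 2, by linarith, fun p hp => ?_⟩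
      have := hmax p hp
      linarith
  obtain ⟨δ, hδ, h1⟩ := hδ
  have h := window hρ hδ m stp (empty_subset W) ξ ξ (fun _ _ => rfl) (fun p hp _ => h1 p hp) 1
    (fun ξ' _ => by simp [lm, wt, edges])
  refine lt_of_lt_of_le ?_ h
  rw [mul_one]
  refine pos_iff_ne_zero.2 (prod_ne_zero_iff.2 fun x _ => ?_)
  simp only [ne_eq, ENNReal.ofReal_eq_zero, not_le]
  have := Real.exp_pos (-(m ^ 2 * (|ξ x| + δ) ^ 2 / 2))
  positivity

theorem lm_wt_pos_const {ρ : ℝ → ℝ} (hρ : EdgeWeight ρ) (m : ℝ) (stp : Bool → G)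
    (W : Finset G) (c : ℝ) : 0 < lm W (wt ρ m stp W) (fun _ => c) := by
  obtain ⟨a, ha, hρa⟩ := hρ.pos
  exact lm_wt_pos hρ hρa m stp W _ fun p _ => by simpa using ha

end Pool.Agent.HM
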